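import Pool.Agent.H37.MA.Acy
import Pool.Agent.H19.SR.Defs

/-!
# Project SM, M side: cocycles of the cubes extend to the tuples
-/

set_option autoImplicit false
set_option linter.unusedSectionVars false

open Finset

namespace Pool.Agent.H37.MA

open Pool.Agent.H19.Cub Pool.Agent.H77.SX Pool.Agent.H77.SW Pool.Agent.H37.TM
open Pool.Agent.H19.SR (Coc)
open Pool.Agent.H4.Singer (RGrp gen exists_lift gen_mul_gen gen_inv gen_comm)

variable {V : Type} [DecidableEq V] [Fintype V] {G : SimpleGraph V} {P : Type} [Group P]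

/-- the action on the cells of the augmented complex -/
private noncomputable def aO (D : PG G P) (g : (piP D).ker) :
    Option ((QP D).Cover 1 × Finset V) → Option ((QP D).Cover 1 × Finset V) :=
  Option.map fun e => (g • e.1, e.2)

private theorem aO_one (D : PG G P) : aO D 1 = id := by
  funext a
  cases a with
  | none => rfl
  | some e =>
    show some ((1 : (piP D).ker) • e.1, e.2) = some e
    rw [one_smul]

private theorem aO_mul (D : PG G P) (g h : (piP D).ker) : aO D (g * h) = aO D g ∘ aO D h := by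
  funext a
  cases a with
  | none => rfl
  | some e =>
    show some ((g * h) • e.1, e.2) = some (g • h • e.1, e.2)
    rw [mul_smul]

/-- the action on the chains of the augmented complex -/
noncomputable def rhoA (D : PG G P) : (piP D).ker →* (NA D →ₗ[ZMod 2] NA D) where
  toFun g := Finsupp.lmapDomain (ZMod 2) (ZMod 2) (Option.map fun e => (g • e.1, e.2))
  map_one' := by
    refine LinearMap.ext fun x => ?_
    show x.mapDomain (aO D 1) = x
    rw [aO_one, Finsupp.mapDomain_id]
  map_mul' g h := by
    refine LinearMap.ext fun x => ?_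
    show x.mapDomain (aO D (g * h)) = (x.mapDomain (aO D h)).mapDomain (aO D g)
    rw [aO_mul, Finsupp.mapDomain_comp]

private theorem rhoA_apply (D : PG G P) (g : (piP D).ker) (x : NA D) :
    rhoA D g x = x.mapDomain (aO D g) := rfl

private theorem rhoA_single (D : PG G P) (g : (piP D).ker)
    (a : Option ((QP D).Cover 1 × Finset V)) :
    rhoA D g (Finsupp.single a 1) = Finsupp.single (aO D g a) 1 := by
  rw [rhoA_apply, Finsupp.mapDomain_single]

private theorem nbc_smul (D : PG G P) (g : (piP D).ker) (v : V) (c : (QP D).Cover 1) :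
    (QP D).nbc 1 v (g • c) = g • (QP D).nbc 1 v c := (qp_deck D).nb g v c (mem_univ v)

private theorem bdD_smul (D : PG G P) (g : (piP D).ker) (e : (QP D).Cover 1 × Finset V) :
    bdD (QP D) 1 (g • e.1, e.2) = (bdD (QP D) 1 e).mapDomain fun e => (g • e.1, e.2) := by
  unfold bdD
  rw [show (Finsupp.mapDomain (fun e : (QP D).Cover 1 × Finset V => (g • e.1, e.2))
      (∑ v ∈ e.2, (Finsupp.single (e.1, e.2.erase v) (1 : ZMod 2) +
        Finsupp.single ((QP D).nbc 1 v e.1, e.2.erase v) 1))) =
      Finsupp.lmapDomain (ZMod 2) (ZMod 2) (fun e : (QP D).Cover 1 × Finset V => (g • e.1, e.2))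
      (∑ v ∈ e.2, (Finsupp.single (e.1, e.2.erase v) (1 : ZMod 2) +
        Finsupp.single ((QP D).nbc 1 v e.1, e.2.erase v) 1)) from rfl, map_sum]
  refine sum_congr rfl fun v _ => ?_
  rw [map_add, Finsupp.lmapDomain_apply, Finsupp.lmapDomain_apply, Finsupp.mapDomain_single,
    Finsupp.mapDomain_single, nbc_smul]

private theorem dA1_rho (D : PG G P) (g : (piP D).ker) (a : Option ((QP D).Cover 1 × Finset V)) :
    dA1 D (aO D g a) = rhoA D g (dA1 D a) := by
  cases a with
  | none => exact (map_zero _).symm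
  | some e =>
    show (if e.2 = ∅ then Finsupp.single none 1 else
      (bdD (QP D) 1 (g • e.1, e.2)).mapDomain some) =
      rhoA D g (if e.2 = ∅ then Finsupp.single none 1 else (bdD (QP D) 1 e).mapDomain some)
    by_cases h : e.2 = ∅
    · rw [if_pos h, if_pos h, rhoA_single]
      rfl
    · rw [if_neg h, if_neg h, bdD_smul, rhoA_apply, ← Finsupp.mapDomain_comp,
        ← Finsupp.mapDomain_comp]
      rfl

/-- `dA` is equivariant (`(qp_deck D).nb`: all labels are at all vertices) -/
theorem dA_rho (D : PG G P) (g : (piP D).ker) (x : NA D) :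
    dA D (rhoA D g x) = rhoA D g (dA D x) := by
  unfold dA
  rw [rhoA_apply, lin_map, map_lin]
  congr 1
  congr 1
  funext a
  exact dA1_rho D g a

private theorem cell_smul' (D : PG G P) {i : ℕ} (g : (piP D).ker) {e : (QP D).Cover 1 × Finset V}
    (he : e ∈ Cell (QP D) 1 D.b i) : (g • e.1, e.2) ∈ Cell (QP D) 1 D.b i := by
  obtain ⟨-, h2, h3, h4⟩ := he
  refine ⟨subset_univ _, h2, h3, fun v hv => ?_⟩
  show D.b ((QP D).proj 1 (g • e.1)) v = 0
  rw [(qp_deck D).proj]
  exact h4 v hv

theorem MA_rho (D : PG G P) (i : ℕ) (g : (piP D).ker) (x : NA D) (hx : x ∈ MA D i) :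
    rhoA D g x ∈ MA D i := by
  classical
  rw [rhoA_apply]
  cases i with
  | zero =>
    refine (Finsupp.mem_supported _ _).2 fun b hb => ?_
    obtain ⟨a, ha, rfl⟩ := Finset.mem_image.1 (Finsupp.mapDomain_support hb)
    have h1 : a = none := (Finsupp.mem_supported _ _).1 hx ha
    rw [h1]
    rfl
  | succ i =>
    refine (Finsupp.mem_supported _ _).2 fun b hb => ?_
    obtain ⟨a, ha, rfl⟩ := Finset.mem_image.1 (Finsupp.mapDomain_support hb)
    obtain ⟨e, he, rfl⟩ := (Finsupp.mem_supported _ _).1 hx ha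
    exact ⟨_, cell_smul' D g he, rfl⟩

open Classical in
/-- the value of `γ` at a cell -/
private noncomputable def prv (D : PG G P) (m : ℕ) (γ : Finset V → P → ZMod 2) :
    Option ((QP D).Cover 1 × Finset V) → ZMod 2
  | none => 0
  | some e => if e ∈ Cell (QP D) 1 D.b m then γ e.2 ((QP D).proj 1 e.1) else 0

/-- the pairing of `γ` with the chains -/
noncomputable def prG (D : PG G P) (m : ℕ) (γ : Finset V → P → ZMod 2) : NA D →ₗ[ZMod 2] ZMod 2 :=
  lin (prv D m γ)

private theorem prv_some (D : PG G P) {m : ℕ} (γ : Finset V → P → ZMod 2)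
    {e : (QP D).Cover 1 × Finset V} (he : e ∈ Cell (QP D) 1 D.b m) :
    prv D m γ (some e) = γ e.2 ((QP D).proj 1 e.1) := if_pos he

private theorem prv_smul (D : PG G P) {m : ℕ} (γ : Finset V → P → ZMod 2) (g : (piP D).ker)
    (a : Option ((QP D).Cover 1 × Finset V)) : prv D m γ (aO D g a) = prv D m γ a := by
  classical
  cases a with
  | none => rfl
  | some e =>
    show (if (g • e.1, e.2) ∈ Cell (QP D) 1 D.b m then γ e.2 ((QP D).proj 1 (g • e.1)) else 0) =
      if e ∈ Cell (QP D) 1 D.b m then γ e.2 ((QP D).proj 1 e.1) else 0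
    rw [(qp_deck D).proj]
    by_cases h : e ∈ Cell (QP D) 1 D.b m
    · rw [if_pos h, if_pos (cell_smul' D g h)]
    · rw [if_neg h, if_neg]
      intro h'
      apply h
      have h2 := cell_smul' D g⁻¹ h'
      have h3 : ((g⁻¹ • (g • e.1, e.2).1, (g • e.1, e.2).2) : (QP D).Cover 1 × Finset V) = e := by
        refine Prod.ext ?_ rfl
        exact inv_smul_smul g e.1
      rwa [h3] at h2

private theorem prG_rho (D : PG G P) {m : ℕ} (γ : Finset V → P → ZMod 2) (g : (piP D).ker)
    (x : NA D) : prG D m γ (rhoA D g x) = prG D m γ x := by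
  unfold prG
  rw [rhoA_apply, lin_map]
  congr 1
  congr 1
  funext a
  exact prv_smul D γ g a

private theorem proj_nbcQ (D : PG G P) (v : V) (c : (QP D).Cover 1) :
    (QP D).proj 1 ((QP D).nbc 1 v c) = (QP D).proj 1 c * D.g v := proj_nbc 1 (mem_univ v)

private theorem face1 (D : PG G P) {m : ℕ} {e : (QP D).Cover 1 × Finset V}
    (he : e ∈ Cell (QP D) 1 D.b (m + 1)) {v : V} (hv : v ∈ e.2) :
    (e.1, e.2.erase v) ∈ Cell (QP D) 1 D.b m := by
  obtain ⟨-, h2, h3, h4⟩ := he
  refine ⟨subset_univ _, h2.subset ?_, ?_, fun u hu => h4 u (mem_of_mem_erase hu)⟩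
  · exact_mod_cast erase_subset v e.2
  · rw [card_erase_of_mem hv, h3]
    rfl

private theorem face2 (D : PG G P) {m : ℕ} {e : (QP D).Cover 1 × Finset V}
    (he : e ∈ Cell (QP D) 1 D.b (m + 1)) {v : V} (hv : v ∈ e.2) :
    ((QP D).nbc 1 v e.1, e.2.erase v) ∈ Cell (QP D) 1 D.b m := by
  obtain ⟨-, h2, h3, h4⟩ := he
  refine ⟨subset_univ _, h2.subset ?_, ?_, fun u hu => ?_⟩
  · exact_mod_cast erase_subset v e.2
  · rw [card_erase_of_mem hv, h3]
    rfl
  · obtain ⟨h5, h6⟩ := mem_erase.1 hu
    rw [proj_nbcQ, D.b_mul, h4 u h6, D.b_g, if_neg (Ne.symm h5), add_zero]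

private theorem lin_bdD' (D : PG G P) {N : Type} [AddCommGroup N] [Module (ZMod 2) N]
    (F : (QP D).Cover 1 × Finset V → N) (e : (QP D).Cover 1 × Finset V) :
    lin F (bdD (QP D) 1 e) =
      ∑ v ∈ e.2, (F (e.1, e.2.erase v) + F ((QP D).nbc 1 v e.1, e.2.erase v)) := by
  rw [bdD, map_sum]
  exact sum_congr rfl fun v _ => by rw [map_add, lin_single, lin_single]

/-- the pairing of a cocycle with a boundary -/
private theorem prG_dA (D : PG G P) {m : ℕ} {γ : Finset V → P → ZMod 2} (hγ : Coc D m γ)
    {y : NA D} (hy : y ∈ MA D (m + 2)) : prG D m γ (dA D y) = 0 := by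
  have h1 : prG D m γ (dA D y) = lin (fun a => prG D m γ (dA1 D a)) y :=
    map_lin (prG D m γ) (f := dA1 D) (x := y)
  have h2 : ∀ a, y a ≠ 0 → prG D m γ (dA1 D a) = (fun _ => (0 : ZMod 2)) a := by
    intro a ha
    obtain ⟨e, he, rfl⟩ := (Finsupp.mem_supported _ _).1 hy (Finsupp.mem_support_iff.2 ha)
    have h3 : e.2 ≠ ∅ := by
      intro h
      have h4 := he.2.2.1
      rw [h, card_empty] at h4
      omega
    have h4 : dA1 D (some e) = (bdD (QP D) 1 e).mapDomain some := if_neg h3
    rw [h4]
    unfold prG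
    rw [lin_map, lin_bdD']
    have h5 := hγ e.2 he.2.1 he.2.2.1 ((QP D).proj 1 e.1) he.2.2.2
    rw [← h5]
    refine sum_congr rfl fun v hv => ?_
    rw [prv_some D γ (face1 D he hv), prv_some D γ (face2 D he hv)]
    show γ (e.2.erase v) ((QP D).proj 1 e.1) +
      γ (e.2.erase v) ((QP D).proj 1 ((QP D).nbc 1 v e.1)) = _
    rw [proj_nbcQ]
  rw [h1, lin_congr (f' := fun a => prG D m γ (dA1 D a)) (f := fun _ => 0) h2]
  exact lin_fun_zero y

/-! ### the chain map from the tuples -/

/-- all faces of a tuple have one element less -/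
private theorem bdl_len {α : Type} : ∀ (L : List α) (b : List α), bdl L b ≠ 0 →
    b.length + 1 = L.length
  | [], b, h => absurd rfl h
  | x :: l, b, h => by
    classical
    by_cases h1 : b = l
    · rw [h1]
      rfl
    · have h2 : (bdl l).mapDomain (x :: ·) b ≠ 0 := by
        intro h3
        apply h
        have e : bdl (x :: l) = Finsupp.single l 1 + (bdl l).mapDomain (x :: ·) := rfl
        rw [e, Finsupp.add_apply, h3, Finsupp.single_eq_of_ne h1, add_zero]
      obtain ⟨c, hc, rfl⟩ := Finset.mem_image.1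
        (Finsupp.mapDomain_support (Finsupp.mem_support_iff.2 h2))
      have h3 := bdl_len l c (Finsupp.mem_support_iff.1 hc)
      rw [List.length_cons, List.length_cons, h3]

/-- **A chain map from the tuples to the cubes.** -/
theorem exists_S (D : PG G P) : ∃ S : List ((QP D).Cover 1) → NA D,
    (∀ i L, L.length = i + 1 → S L ∈ MA D (i + 1)) ∧
    (∀ (g : (piP D).ker) L, L ≠ [] → S (L.map (g • ·)) = rhoA D g (S L)) ∧
    (∀ c, dA D (S [c]) = Finsupp.single none 1) ∧
    ∀ L, 2 ≤ L.length → dA D (S L) = lin S (bdl L) := by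
  classical
  let act : MulAction (piP D).ker (List ((QP D).Cover 1)) :=
    { smul := fun g L => L.map (g • ·)
      one_smul := fun L => by
        show L.map ((1 : (piP D).ker) • ·) = L
        simp
      mul_smul := fun g h L => by
        show L.map ((g * h) • ·) = (L.map (h • ·)).map (g • ·)
        rw [List.map_map]
        congr 1
        funext c
        exact mul_smul g h c }
  have hact : ∀ (g : (piP D).ker) (L : List ((QP D).Cover 1)), g • L = L.map (g • ·) :=
    fun _ _ => rfl
  obtain ⟨bd, hbdef⟩ : ∃ bd : List ((QP D).Cover 1) → (List ((QP D).Cover 1) →₀ ZMod 2),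
    ∀ L, bd L = if L.length ≤ 1 then 0 else bdl L := ⟨_, fun _ => rfl⟩
  obtain ⟨F, hFdef⟩ : ∃ F : List ((QP D).Cover 1) → NA D,
    ∀ L, F L = if L.length = 1 then Finsupp.single none 1 else 0 := ⟨_, fun _ => rfl⟩
  have hF1 : ∀ c, F [c] = Finsupp.single none 1 := fun c => by
    rw [hFdef]
    exact if_pos rfl
  have hfaces : ∀ L b, bd L b ≠ 0 → b.length + 1 = L.length ∧ 2 ≤ L.length := by
    intro L b h
    rw [hbdef] at h
    by_cases h1 : L.length ≤ 1
    · rw [if_pos h1] at h
      exact absurd rfl h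
    · rw [if_neg h1] at h
      exact ⟨bdl_len L b h, by omega⟩
  obtain ⟨H, hH1, hH2, hH3⟩ := lift_free (Γ := (piP D).ker) (A := List ((QP D).Cover 1)) (N := NA D)
    (fun i => {L | L.length = i + 1})
    (fun i g L (hL : L.length = i + 1) => by
      show (L.map (g • ·)).length = i + 1
      rw [List.length_map]
      exact hL)
    (fun i j L (hi : L.length = i + 1) (hj : L.length = j + 1) => by omega)
    (fun i L (hi : L.length = i + 1) g hg => by
      match L, hi with
      | c :: l, _ =>
        have h1 : g • c :: l.map (g • ·) = c :: l := hg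
        exact (qp_deck D).free g c (List.cons.inj h1).1)
    bd
    (fun i L (hL : L.length = i + 1 + 1) b hb => by
      have := (hfaces L b hb).1
      show b.length = i + 1
      omega)
    (fun L (hL : L.length = 0 + 1) => by rw [hbdef, if_pos (by omega)])
    (fun i g L _ => by
      rw [hact, hbdef, hbdef, List.length_map]
      by_cases h : L.length ≤ 1
      · rw [if_pos h, if_pos h, Finsupp.mapDomain_zero]
      · rw [if_neg h, if_neg h, bdl_map]
        rfl)
    (fun i L (hL : L.length = i + 1) => by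
      by_cases h : L.length ≤ 1
      · rw [hbdef L, if_pos h, map_zero]
      · by_cases h2 : L.length = 2
        · rw [lin_congr (f' := bd) (f := fun _ => 0) (fun c hc => by
            have h3 := hfaces L c hc
            rw [hbdef, if_pos (by omega)])]
          exact lin_fun_zero _
        · rw [lin_congr (f' := bd) (f := bdl) (fun c hc => by
            have h3 := hfaces L c hc
            rw [hbdef, if_neg (by omega)]), hbdef L, if_neg h]
          exact BL_bdl L)
    (rhoA D) (dA D) (dA_rho D) (MA D) (MA_rho D)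
    (fun i _ x hx hd => dA_exact D i x hx hd)
    F
    (fun i L (hL : L.length = i + 1) => by
      rw [hFdef]
      by_cases h : L.length = 1
      · rw [if_pos h]
        have h1 : i = 0 := by omega
        subst h1
        exact Finsupp.single_mem_supported _ _ rfl
      · rw [if_neg h]
        exact Submodule.zero_mem _)
    (fun i g L _ => by
      rw [hact, hFdef, hFdef, List.length_map]
      by_cases h : L.length = 1
      · rw [if_pos h, rhoA_single]
        rfl
      · rw [if_neg h, map_zero])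
    (fun i L (hL : L.length = i + 1) => by
      by_cases h : L.length ≤ 1
      · have h1 : L.length = 1 := by omega
        rw [hbdef, if_pos h, map_zero, hFdef, if_pos h1]
        exact lin_single _ _
      · rw [hFdef, if_neg (by omega), map_zero]
        by_cases h2 : L.length = 2
        · match L, h2 with
          | [x, y], _ =>
            rw [hbdef, if_neg h]
            simp only [bdl, Finsupp.mapDomain_zero, add_zero, Finsupp.mapDomain_single]
            rw [map_add, lin_single, lin_single, hF1, hF1]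
            exact (chain_add_self _).symm
        · rw [lin_congr (f' := F) (f := fun _ => 0) (fun c hc => by
            have h3 := hfaces L c hc
            rw [hFdef, if_neg (by omega)])]
          exact (lin_fun_zero _).symm)
  refine ⟨H, fun i L hL => hH1 i L hL, fun g L hL => ?_, fun c => ?_, fun L hL => ?_⟩
  · have h1 : 0 < L.length := List.length_pos_iff.2 hL
    exact hH2 (L.length - 1) g L (show L.length = L.length - 1 + 1 by omega)
  · have h1 := hH3 0 [c] rfl
    have h2 : bd [c] = 0 := by
      rw [hbdef]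
      exact if_pos (by simp)
    rw [hF1, h2, map_zero, add_zero] at h1
    exact h1
  · have h1 := hH3 (L.length - 1) L (show L.length = L.length - 1 + 1 by omega)
    rw [hFdef, if_neg (by omega), hbdef, if_neg (by omega), zero_add] at h1
    exact h1

private theorem Tm_len (D : PG G P) : ∀ (k : ℕ) (c : (QP D).Cover 1) (σ : Finset V)
    (L : List ((QP D).Cover 1)), Tm (QP D) 1 k c σ L ≠ 0 → L.length = k + 1
  | 0, c, σ, L, h => by
    classical
    have h1 : Tm (QP D) 1 0 c σ = Finsupp.single [c] 1 := rfl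
    rw [h1] at h
    by_cases h2 : L = [c]
    · rw [h2]
      rfl
    · exact absurd (Finsupp.single_eq_of_ne h2) h
  | k + 1, c, σ, L, h => by
    classical
    have h1 : Tm (QP D) 1 (k + 1) c σ =
      ∑ v ∈ σ, (Tm (QP D) 1 k ((QP D).nbc 1 v c) (σ.erase v)).mapDomain (c :: ·) := rfl
    rw [h1, Finsupp.finsetSum_apply] at h
    obtain ⟨v, -, hv⟩ := exists_ne_zero_of_sum_ne_zero h
    obtain ⟨L', hL', rfl⟩ := Finset.mem_image.1
      (Finsupp.mapDomain_support (Finsupp.mem_support_iff.2 hv))
    have h2 := Tm_len D k _ _ L' (Finsupp.mem_support_iff.1 hL')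
    rw [List.length_cons, h2]

/-- all lists of `TT e` have `e.2.card + 1` elements -/
theorem TT_len (D : PG G P) (e : (QP D).Cover 1 × Finset V) (L : List ((QP D).Cover 1))
    (h : TT (QP D) 1 e L ≠ 0) : L.length = e.2.card + 1 := Tm_len D _ _ _ L h

/-- **The homotopy.** -/
theorem exists_Hm (D : PG G P) {S : List ((QP D).Cover 1) → NA D}
    (hS1 : ∀ i L, L.length = i + 1 → S L ∈ MA D (i + 1))
    (hS2 : ∀ (g : (piP D).ker) L, L ≠ [] → S (L.map (g • ·)) = rhoA D g (S L))
    (hS3 : ∀ c, dA D (S [c]) = Finsupp.single none 1)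
    (hS4 : ∀ L, 2 ≤ L.length → dA D (S L) = lin S (bdl L)) :
    ∃ H : (QP D).Cover 1 × Finset V → NA D,
      (∀ i, ∀ e ∈ Cell (QP D) 1 D.b i, H e ∈ MA D (i + 2)) ∧
      (∀ i (g : (piP D).ker), ∀ e ∈ Cell (QP D) 1 D.b i, H (g • e.1, e.2) = rhoA D g (H e)) ∧
      ∀ i, ∀ e ∈ Cell (QP D) 1 D.b i, dA D (H e) =
        Finsupp.single (some e) 1 + lin S (TT (QP D) 1 e) + lin H (bdD (QP D) 1 e) := by
  classical
  let act : MulAction (piP D).ker ((QP D).Cover 1 × Finset V) :=
    { smul := fun g e => (g • e.1, e.2)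
      one_smul := fun e => by
        show ((1 : (piP D).ker) • e.1, e.2) = e
        rw [one_smul]
      mul_smul := fun g h e => by
        show ((g * h) • e.1, e.2) = (g • h • e.1, e.2)
        rw [mul_smul] }
  have hact : ∀ (g : (piP D).ker) (e : (QP D).Cover 1 × Finset V), g • e = (g • e.1, e.2) :=
    fun _ _ => rfl
  refine lift_free (Γ := (piP D).ker) (A := (QP D).Cover 1 × Finset V) (N := NA D)
    (fun i => Cell (QP D) 1 D.b i)
    (fun i g e he => cell_smul' D g he)
    (fun i j e hi hj => hi.2.2.1.symm.trans hj.2.2.1)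
    (fun i e he g hg => (qp_deck D).free g e.1 (congrArg Prod.fst hg))
    (bdD (QP D) 1)
    (fun i e he b hb => bdD_cell (qp_bit D) he b hb)
    (fun e he => by
      unfold bdD
      rw [card_eq_zero.1 he.2.2.1, sum_empty])
    (fun i g e _ => bdD_smul D g e)
    (fun i e he => bdD_bdD he)
    (rhoA D) (dA D) (dA_rho D) (fun i => MA D (i + 1)) (fun i => MA_rho D (i + 1))
    (fun i _ x hx hd => dA_exact D (i + 1) x hx hd)
    (fun e => Finsupp.single (some e) 1 + lin S (TT (QP D) 1 e))
    (fun i e he => ?_) (fun i g e he => ?_) (fun i e he => ?_)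
  · refine Submodule.add_mem _ (Finsupp.single_mem_supported _ _ ⟨e, he, rfl⟩) ?_
    refine lin_mem fun L hL => hS1 i L ?_
    rw [TT_len D e L hL, he.2.2.1]
  · show Finsupp.single (some (g • e.1, e.2)) 1 + lin S (TT (QP D) 1 (g • e.1, e.2)) = _
    rw [map_add, rhoA_single, TT_smul (qp_deck D) he, lin_map, map_lin]
    congr 1
    refine lin_congr fun L hL => ?_
    refine hS2 g L ?_
    rintro rfl
    have h1 := TT_len D e [] hL
    simp at h1
  · show dA D (Finsupp.single (some e) 1 + lin S (TT (QP D) 1 e)) =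
      lin (fun e => Finsupp.single (some e) 1 + lin S (TT (QP D) 1 e)) (bdD (QP D) 1 e)
    have h0 : dA D (Finsupp.single (some e) 1) = dA1 D (some e) := lin_single _ _
    rw [map_add, h0]
    cases i with
    | zero =>
      have h1 : e.2 = ∅ := card_eq_zero.1 he.2.2.1
      have h2 : bdD (QP D) 1 e = 0 := by
        unfold bdD
        rw [h1, sum_empty]
      have h3 : TT (QP D) 1 e = Finsupp.single [e.1] 1 := by
        unfold TT
        rw [h1, card_empty]
        rfl
      rw [h2, map_zero, h3, lin_single, hS3, dA1_empty D h1, chain_add_self]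
    | succ i =>
      have h1 : e.2 ≠ ∅ := by
        intro h
        have h4 := he.2.2.1
        rw [h, card_empty] at h4
        omega
      have h2 : dA1 D (some e) = (bdD (QP D) 1 e).mapDomain some := if_neg h1
      have h3 : dA D (lin S (TT (QP D) 1 e)) = lin S (BL (TT (QP D) 1 e)) := by
        rw [map_lin, lin_congr (f' := fun L => dA D (S L)) (f := fun L => lin S (bdl L))
          (fun L hL => hS4 L (by
            have h4 := TT_len D e L hL
            have h5 := he.2.2.1
            omega))]
        exact lin_lin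
      have h4 := BL_TT he
      rw [if_neg (Nat.succ_ne_zero i)] at h4
      rw [h2, h3, h4, lin_add, lin_lin]
      congr 1
      unfold lin
      rw [Finsupp.linearCombination_apply, Finsupp.mapDomain]
      refine Finsupp.sum_congr fun c _ => ?_
      rw [Finsupp.smul_single, smul_eq_mul, mul_one]

/-- **The extension of a cocycle to the tuples.** -/
theorem exists_ext (D : PG G P) {m : ℕ} {γ : Finset V → P → ZMod 2} (hγ : Coc D m γ) :
    ∃ (Gc : List ((QP D).Cover 1) → ZMod 2) (β : Finset V → P → ZMod 2),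
      (∀ (g : (piP D).ker) L, Gc (L.map (g • ·)) = Gc L) ∧
      (∀ x, lin Gc (BL x) = 0) ∧ (∀ L, Gc L ≠ 0 → L.length = m + 1) ∧
      ∀ e ∈ Cell (QP D) 1 D.b m, lin Gc (TT (QP D) 1 e) =
        γ e.2 ((QP D).proj 1 e.1) + ∑ v ∈ e.2, (β (e.2.erase v) ((QP D).proj 1 e.1) +
          β (e.2.erase v) ((QP D).proj 1 e.1 * D.g v)) := by
  classical
  obtain ⟨S, hS1, hS2, hS3, hS4⟩ := exists_S D
  obtain ⟨H, hH1, hH2, hH3⟩ := exists_Hm D hS1 hS2 hS3 hS4
  obtain ⟨Gc, hGc⟩ : ∃ Gc : List ((QP D).Cover 1) → ZMod 2, ∀ L, Gc L =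
    if L.length = m + 1 then prG D m γ (S L) else 0 := ⟨_, fun _ => rfl⟩
  obtain ⟨β, hβ⟩ : ∃ β : Finset V → P → ZMod 2, ∀ B p, β B p =
    if h : ∃ c, (QP D).proj 1 c = p then prG D m γ (H (h.choose, B)) else 0 := ⟨_, fun _ _ => rfl⟩
  have hβ' : ∀ k, ∀ e ∈ Cell (QP D) 1 D.b k,
      β e.2 ((QP D).proj 1 e.1) = prG D m γ (H e) := by
    intro k e he
    have h1 : ∃ c, (QP D).proj 1 c = (QP D).proj 1 e.1 := ⟨e.1, rfl⟩
    rw [hβ, dif_pos h1]
    obtain ⟨g, hg⟩ := (qp_deck D).trans e.1 h1.choose h1.choose_spec.symm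
    rw [← hg, hH2 k g e he, prG_rho]
  refine ⟨Gc, β, fun g L => ?_, fun x => ?_, fun L hL => ?_, fun e he => ?_⟩
  · rw [hGc, hGc, List.length_map]
    by_cases h : L.length = m + 1
    · rw [if_pos h, if_pos h, hS2 g L (by rintro rfl; simp at h), prG_rho]
    · rw [if_neg h, if_neg h]
  · have h1 : ∀ L : List ((QP D).Cover 1), lin Gc (bdl L) = 0 := by
      intro L
      by_cases h : L.length = m + 2
      · rw [lin_congr (f' := Gc) (f := fun L => prG D m γ (S L)) (fun b hb => by
          have h2 := bdl_len L b hb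
          rw [hGc, if_pos (by omega)]), ← map_lin (prG D m γ), ← hS4 L (by omega)]
        exact prG_dA D hγ (hS1 (m + 1) L h)
      · rw [lin_congr (f' := Gc) (f := fun _ => 0) (fun b hb => by
          have h2 := bdl_len L b hb
          rw [hGc, if_neg (by omega)])]
        exact lin_fun_zero _
    have h2 : lin Gc (BL x) = lin (fun L => lin Gc (bdl L)) x :=
      map_lin (lin Gc) (f := bdl) (x := x)
    rw [h2]
    simp only [h1]
    exact lin_fun_zero x
  · rw [hGc] at hL
    by_contra h
    rw [if_neg h] at hL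
    exact hL rfl
  · have h1 : lin Gc (TT (QP D) 1 e) = prG D m γ (lin S (TT (QP D) 1 e)) := by
      rw [map_lin]
      refine lin_congr fun L hL => ?_
      rw [hGc, if_pos (by rw [TT_len D e L hL, he.2.2.1])]
    have h2 := congrArg (prG D m γ) (hH3 m e he)
    rw [prG_dA D hγ (hH1 m e he), map_add, map_add] at h2
    have h3 : prG D m γ (Finsupp.single (some e) 1) = γ e.2 ((QP D).proj 1 e.1) := by
      unfold prG
      rw [lin_single, prv_some D γ he]
    have h4 : prG D m γ (lin H (bdD (QP D) 1 e)) =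
        ∑ v ∈ e.2, (β (e.2.erase v) ((QP D).proj 1 e.1) +
          β (e.2.erase v) ((QP D).proj 1 e.1 * D.g v)) := by
      rw [lin_bdD', map_sum]
      refine sum_congr rfl fun v hv => ?_
      obtain ⟨k, hk⟩ : ∃ k, m = k + 1 := by
        have h5 := he.2.2.1
        have h6 := card_pos.2 ⟨v, hv⟩
        exact ⟨m - 1, by omega⟩
      have he' : e ∈ Cell (QP D) 1 D.b (k + 1) := by rw [← hk]; exact he
      rw [map_add, ← hβ' k _ (face1 D he' hv), ← hβ' k _ (face2 D he' hv), proj_nbcQ]
    rw [h3, h4] at h2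
    rw [h1]
    generalize prG D m γ (lin S (TT (QP D) 1 e)) = a at h2 ⊢
    generalize (∑ v ∈ e.2, (β (e.2.erase v) ((QP D).proj 1 e.1) +
          β (e.2.erase v) ((QP D).proj 1 e.1 * D.g v))) = b at h2 ⊢
    generalize γ e.2 ((QP D).proj 1 e.1) = c at h2 ⊢
    revert h2 a b c
    decide

end Pool.Agent.H37.MA
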