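import Pool.Agent.H37.TM.StarD

/-!
# M side of project SM, module Abs: the comparison and the right side for an abstract cocycle on the tuples
-/

set_option autoImplicit false
set_option linter.unusedSectionVars false

open Finset Pointwise

namespace Pool.Agent.H37.MA

open Pool.Agent.H19.Cub Pool.Agent.H77.SX Pool.Agent.H37.TM

variable {V X U Γ P K : Type} [DecidableEq V] [DecidableEq U] [Group Γ] [MulAction Γ U]
  {Q : CubeComplex V X} {x₀ : X} [MulAction Γ (Q.Cover x₀)] {bit : X → V → ZMod 2}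
  [Group P] [Field K] [Algebra (ZMod 2) K] {g : V → P} {t : V → P → K}

/-- an equivariant family of cocycles on the tuples -/
structure IsFun (Γ : Type) [Group Γ] [MulAction Γ (Q.Cover x₀)] (D : Dat Q g t)
    (W : P → List (Q.Cover x₀) → K) : Prop where
  cyc : ∀ (p : P) (x : List (Q.Cover x₀) →₀ ZMod 2), lin (W p) (BL x) = 0
  smul : ∀ (p : P) (γ : Γ) (m : List (Q.Cover x₀)),
    W p (m.map (γ • ·)) = W (p * pos D x₀ (γ • base Q x₀)) m

theorem IsFun.lin_smul {D : Dat Q g t} {W : P → List (Q.Cover x₀) → K} (hW : IsFun Γ D W) (p : P)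
    (γ : Γ) (x : List (Q.Cover x₀) →₀ ZMod 2) :
    lin (W p) (x.mapDomain (List.map (γ • ·))) = lin (W (p * pos D x₀ (γ • base Q x₀))) x := by
  rw [lin_map]
  congr 1
  exact congrArg lin (funext fun m => hW.smul p γ m)

theorem fun_lin {A B : Type} (W : B → K) (H : A → (B →₀ ZMod 2)) (y : A →₀ ZMod 2) :
    lin W (lin H y) = ∑ b ∈ y.support, y b • lin W (H b) := by
  rw [map_lin]
  rfl

/-- **The comparison.** `be (BL _) = 0` (`lin_bet_BL`), `osum_comm` with the kernel
`bdD e b • ∑ p, be p (H b) * upz e (∅, p) ^ 2`, and `sum_cofaces` for `c e = upz e (∅, p) ^ 2`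
(the square is additive in characteristic two). -/
theorem star_cmpF [Fintype V] [Fintype X] [Fintype P] [CharP K 2] (D : Dat Q g t) {s : Finset V}
    {d : ℕ} (hbit : IsBit Q bit) (hΓ : IsDeck Γ Q x₀) {z : Finset V → X → Finset V × P → K}
    (hz : z ∈ ZQ K Q (d + 1) (rX g s t)) {W : P → List (Q.Cover x₀) → K} (hW : IsFun Γ D W)
    {F H : Q.Cover x₀ × Finset V → (List (Q.Cover x₀) →₀ ZMod 2)}
    (hH : ∀ i, ∀ γ : Γ, ∀ e ∈ Cell Q x₀ bit i,
      H (γ • e) = (H e).mapDomain (List.map (γ • ·)))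
    (hF : ∀ i, ∀ e ∈ Cell Q x₀ bit i, BL (H e) = F e + lin H (bdD Q x₀ e)) :
    osum Γ (fun e : Q.Cover x₀ × Finset V => open Classical in
      if e ∈ Cell Q x₀ bit (d + 1) then ∑ p, lin (W p) (F e) * upz D s x₀ z e (∅, p) ^ 2
      else 0) = 0 := by
  classical
  -- the value at `F e`
  have hbe : ∀ e ∈ Cell Q x₀ bit (d + 1), ∀ p, lin (W p) (F e) =
      ∑ b ∈ (bdD Q x₀ e).support, bdD Q x₀ e b • lin (W p) (H b) := by
    intro e he p
    rw [← fun_lin]
    have h1 : lin (W p) (BL (H e)) = 0 := hW.cyc p _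
    rw [hF _ e he, map_add] at h1
    have h2 := add_self_K (lin (W p) (lin H (bdD Q x₀ e)))
    have h3 : lin (W p) (F e) + lin (W p) (lin H (bdD Q x₀ e)) = 0 := h1
    have h4 := h3.trans h2.symm
    exact add_right_cancel h4
  set k : Q.Cover x₀ × Finset V → Q.Cover x₀ × Finset V → K := fun e b =>
    if e ∈ Cell Q x₀ bit (d + 1) then
      bdD Q x₀ e b • ∑ p, lin (W p) (H b) * upz D s x₀ z e (∅, p) ^ 2 else 0 with hk
  have hk0 : ∀ e b, k e b ≠ 0 → e ∈ Cell Q x₀ bit (d + 1) ∧ bdD Q x₀ e b ≠ 0 := by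
    intro e b h
    by_cases he : e ∈ Cell Q x₀ bit (d + 1)
    · refine ⟨he, fun h0 => h ?_⟩
      simp only [hk, if_pos he, h0, zero_smul]
    · exact absurd (by simp only [hk, if_neg he]) h
  have hrow : ∀ e, (if e ∈ Cell Q x₀ bit (d + 1) then
      ∑ p, lin (W p) (F e) * upz D s x₀ z e (∅, p) ^ 2 else 0) = ∑ᶠ b, k e b := by
    intro e
    rw [finsum_eq_sum_of_support_subset (s := (bdD Q x₀ e).support) (k e) (fun b hb => by
      rw [mem_coe, Finsupp.mem_support_iff]
      exact (hk0 e b hb).2)]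
    by_cases he : e ∈ Cell Q x₀ bit (d + 1)
    · simp only [hk, if_pos he]
      rw [sum_congr rfl fun p _ => by rw [hbe e he p, sum_mul]]
      rw [sum_comm]
      refine sum_congr rfl fun b _ => ?_
      rw [smul_sum]
      exact sum_congr rfl fun p _ => smul_mul_assoc _ _ _
    · simp only [hk, if_neg he, sum_const_zero]
  have hinv : ∀ (γ : Γ) e b, k (γ • e) (γ • b) = k e b := by
    intro γ e b
    by_cases he : e ∈ Cell Q x₀ bit (d + 1)
    · have he' : γ • e ∈ Cell Q x₀ bit (d + 1) := (cell_smul hΓ γ e).2 he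
      simp only [hk, if_pos he, if_pos he']
      rw [bdD_smul_apply hΓ he]
      by_cases hb : bdD Q x₀ e b = 0
      · rw [hb, zero_smul, zero_smul]
      · have hb' := bdD_cell hbit he b hb
        congr 1
        rw [hH d γ b hb']
        simp only [hW.lin_smul, upz_empty_smul D s hΓ]
        exact Equiv.sum_comp (Equiv.mulRight (pos D x₀ (γ • base Q x₀)))
          (fun p => lin (W p) (H b) * upz D s x₀ z e (∅, p) ^ 2)
    · have he' : γ • e ∉ Cell Q x₀ bit (d + 1) := fun h => he ((cell_smul hΓ γ e).1 h)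
      simp only [hk, if_neg he, if_neg he']
  have h1 : osum Γ (fun e => ∑ᶠ b, k e b) = osum Γ fun b => ∑ᶠ e, k e b := by
    refine osum_comm k hinv (fun e b _ γ h => cu_free hΓ e γ h) (fun e b _ γ h => cu_free hΓ b γ h)
      (fun e => ?_) ?_
    · exact (bdD Q x₀ e).support.finite_toSet.subset fun b hb => by
        rw [mem_coe, Finsupp.mem_support_iff]
        exact (hk0 e b hb).2
    · obtain ⟨S, hS⟩ := cu_fin (Q := Q) (x₀ := x₀) hΓ
      exact ⟨S, fun e _ _ => hS e⟩
  have h2 : (fun e : Q.Cover x₀ × Finset V =>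
      if e ∈ Cell Q x₀ bit (d + 1) then ∑ p, lin (W p) (F e) * upz D s x₀ z e (∅, p) ^ 2
      else 0) = fun e => ∑ᶠ b, k e b := funext hrow
  rw [h2, h1]
  -- the columns
  have hcol : ∀ b, ∑ᶠ e, k e b = 0 := by
    intro b
    by_cases hb : b ∈ Cell Q x₀ bit d
    · -- the squares
      have hsq : ∀ p : P, {e | e ∈ Cell Q x₀ bit (d + 1) ∧ bdD Q x₀ e b ≠ 0}.Finite ∧
          ∑ᶠ e : Q.Cover x₀ × Finset V, (open Classical in
            if e ∈ Cell Q x₀ bit (d + 1) then
              bdD Q x₀ e b • (upz D s x₀ z e (∅, p) ^ 2) else 0) = 0 := by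
        intro p
        refine sum_cofaces hbit (fun e => upz D s x₀ z e (∅, p) ^ 2) ?_ ?_ ?_ b hb
        · intro e he
          refine hz.1 e.2 (Q.proj x₀ e.1) fun h0 => he ?_
          show (act D s x₀ e.1 (z e.2 (Q.proj x₀ e.1))) (∅, p) ^ 2 = 0
          rw [h0, map_zero]
          exact zero_pow two_ne_zero
        · intro x σ hσ v hv
          show upz D s x₀ z (Q.nbc x₀ v x, σ) (∅, p) ^ 2 = upz D s x₀ z (x, σ) (∅, p) ^ 2
          rw [upz_nbc D s x₀ hz hσ hv]
        · intro x κ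
          show ∑ v ∈ κᶜ, upz D s x₀ z (x, insert v κ) (∅, p) ^ 2 = 0
          have h3 := congrFun (upz_cyc D s x₀ hz x κ) (∅, p)
          rw [Finset.sum_apply] at h3
          rw [← CharTwo.sum_sq, h3]
          exact zero_pow two_ne_zero
      have hfin := (hsq 1).1
      have h4 : ∀ e, k e b = ∑ p, lin (W p) (H b) *
          (if e ∈ Cell Q x₀ bit (d + 1) then
              bdD Q x₀ e b • (upz D s x₀ z e (∅, p) ^ 2) else 0) := by
        intro e
        by_cases he : e ∈ Cell Q x₀ bit (d + 1)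
        · simp only [hk, if_pos he]
          rw [smul_sum]
          exact sum_congr rfl fun p _ => (mul_smul_comm _ _ _).symm
        · simp only [hk, if_neg he, mul_zero, sum_const_zero]
      have hsub : ∀ p, Function.support (fun e => (if e ∈ Cell Q x₀ bit (d + 1) then
          bdD Q x₀ e b • (upz D s x₀ z e (∅, p) ^ 2) else 0)) ⊆ ↑hfin.toFinset := by
        intro p e he
        rw [Set.Finite.coe_toFinset]
        by_cases he1 : e ∈ Cell Q x₀ bit (d + 1)
        · refine ⟨he1, fun h0 => he ?_⟩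
          show (if e ∈ Cell Q x₀ bit (d + 1) then _ else _) = (0 : K)
          rw [if_pos he1, h0, zero_smul]
        · exact absurd (by
            show (if e ∈ Cell Q x₀ bit (d + 1) then _ else _) = (0 : K)
            rw [if_neg he1]) he
      rw [finsum_congr h4, finsum_eq_sum_of_support_subset (s := hfin.toFinset) _ (by
        intro e he
        by_contra hn
        refine he (sum_eq_zero fun p _ => ?_)
        have h5 : (if e ∈ Cell Q x₀ bit (d + 1) then
            bdD Q x₀ e b • (upz D s x₀ z e (∅, p) ^ 2) else 0) = 0 := by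
          by_contra h6
          exact hn (hsub p h6)
        rw [h5, mul_zero])]
      rw [sum_comm]
      refine sum_eq_zero fun p _ => ?_
      rw [← mul_sum, ← finsum_eq_sum_of_support_subset (s := hfin.toFinset) _ (hsub p)]
      rw [(hsq p).2, mul_zero]
    · refine finsum_eq_zero_of_forall_eq_zero fun e => ?_
      by_contra h
      exact hb (bdD_cell hbit (hk0 e b h).1 b (hk0 e b h).2)
  simp only [hcol]
  unfold osum
  exact finsum_zero


variable {M B : Set (Finset U)} {n : ℕ} {ht : U → ℕ}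

open Classical in
/-- the kernel of the double sum -/
noncomputable def srF (D : Dat Q g t) (s : Finset V) (bit : X → V → ZMod 2) [Fintype P] (d n : ℕ)
    (M : Set (Finset U)) (ht : U → ℕ)
    (Ψ : Q.Cover x₀ × Finset V → (Finset U × Finset U →₀ ZMod 2)) (f : U → Q.Cover x₀)
    (z : Finset V → X → Finset V × P → K) (W : P → List (Q.Cover x₀) → K) (e : Q.Cover x₀ × Finset V)
    (T : Finset U) : K :=
  if e ∈ Cell Q x₀ bit d ∧ T ∈ M ∧ T.card = n + 1 then
    ∑ p, W p ((frontL ht T d).map f) *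
      (al (Ψ e) (T.filter fun u => d ≤ ht u) • upz D s x₀ z e (∅, p) ^ 2)
  else 0

theorem srF_smul [Fintype V] [Fintype X] [Fintype P] (D : Dat Q g t) (s : Finset V) {d : ℕ}
    (hΓ : IsDeck Γ Q x₀) (hM : Psm M B n) (hA : MAct Γ M B n ht)
    {Ψ : Q.Cover x₀ × Finset V → (Finset U × Finset U →₀ ZMod 2)}
    (hΨ : IsPsi Γ Q x₀ bit M B n Ψ) {f : U → Q.Cover x₀} (hf : IsVMap Γ f)
    (z : Finset V → X → Finset V × P → K) {W : P → List (Q.Cover x₀) → K} (hW : IsFun Γ D W)
    (γ : Γ) (e : Q.Cover x₀ × Finset V) (T : Finset U) : srF D s bit d n M ht Ψ f z W (γ • e) (γ • T) =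
      srF D s bit d n M ht Ψ f z W e T := by
  classical
  have hTM : γ • T ∈ M ↔ T ∈ M :=
    ⟨fun h => by simpa using hA.K_mem γ⁻¹ _ h, fun h => hA.K_mem γ T h⟩
  unfold srF
  rw [cell_smul hΓ, hTM, card_smul_finset]
  split_ifs with h
  · obtain ⟨he, hT, hc⟩ := h
    rw [filter_smul' hA.ht_smul, (al_fin (d := d) hΓ hM hA hΨ).2.2.2 γ e he,
      frontL_smul hA.ht_smul γ (hA.ht_inj T hT)]
    rw [← Equiv.sum_comp (Equiv.mulRight (pos D x₀ (γ • base Q x₀)))
      fun p => W p ((frontL ht T d).map f) *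
        (al (Ψ e) (T.filter fun u => d ≤ ht u) • upz D s x₀ z e (∅, p) ^ 2)]
    refine sum_congr rfl fun p _ => ?_
    have hm : ((frontL ht T d).map (γ • ·)).map f = ((frontL ht T d).map f).map (γ • ·) := by
      rw [List.map_map, List.map_map]
      exact List.map_congr_left fun u _ => hf γ u
    rw [hm, hW.smul, upz_empty_smul D s hΓ]
    rfl
  · rfl

theorem srF_row [Fintype P] (D : Dat Q g t) (s : Finset V) {d : ℕ} (hM : Psm M B n)
    {Ψ : Q.Cover x₀ × Finset V → (Finset U × Finset U →₀ ZMod 2)} (f : U → Q.Cover x₀)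
    (z : Finset V → X → Finset V × P → K) (W : P → List (Q.Cover x₀) → K) (e : Q.Cover x₀ × Finset V) (T : Finset U)
    (h : srF D s bit d n M ht Ψ f z W e T ≠ 0) : e ∈ Cell Q x₀ bit d ∧ T ∈ M ∧ T.card = n + 1 ∧
      al (Ψ e) (T.filter fun u => d ≤ ht u) ≠ 0 := by
  classical
  unfold srF at h
  by_cases h1 : e ∈ Cell Q x₀ bit d ∧ T ∈ M ∧ T.card = n + 1
  · refine ⟨h1.1, h1.2.1, h1.2.2, fun h2 => ?_⟩
    rw [if_pos h1] at h
    refine h (sum_eq_zero fun p _ => ?_)
    rw [h2, zero_smul, mul_zero]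
  · exact absurd (if_neg h1) h

/-- the sum over the rows -/
theorem srF_sum [Fintype V] [Fintype X] [Fintype P] (D : Dat Q g t) (s : Finset V) {d : ℕ}
    (hΓ : IsDeck Γ Q x₀) (hM : Psm M B n) (hA : MAct Γ M B n ht)
    {Ψ : Q.Cover x₀ × Finset V → (Finset U × Finset U →₀ ZMod 2)}
    (hΨ : IsPsi Γ Q x₀ bit M B n Ψ) (f : U → Q.Cover x₀)
    (z : Finset V → X → Finset V × P → K) (W : P → List (Q.Cover x₀) → K) (hd : d ≤ n + 1)
    {e : Q.Cover x₀ × Finset V} (he : e ∈ Cell Q x₀ bit d) :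
    ∑ p, lin (W p) (Phi M n ht f (Ψ e)) * upz D s x₀ z e (∅, p) ^ 2 =
      ∑ᶠ T, srF D s bit d n M ht Ψ f z W e T := by
  classical
  obtain ⟨hf1, -, -, -⟩ := al_fin (d := d) hΓ hM hA hΨ
  set S : Finset (Finset U) := (Ψ e).support.image Prod.snd with hS
  have hSmem : ∀ e', Ψ e e' ≠ 0 → e'.2 ∈ S := fun e' h =>
    mem_image.2 ⟨e', Finsupp.mem_support_iff.2 h, rfl⟩
  have hSal : ∀ τ, al (Ψ e) τ ≠ 0 → τ ∈ S := fun τ h => by
    obtain ⟨v, _, h1⟩ := exists_ne_zero_of_sum_ne_zero h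
    exact hSmem _ h1
  set C : Finset U → Finset (Finset U) := fun τ =>
    if (∀ u ∈ τ, d ≤ ht u) ∧ τ ∈ M ∧ τ.card + d = n + 1 then cofs M τ (n + 1) else ∅ with hC
  have hCmem : ∀ τ T, T ∈ C τ ↔ (∀ u ∈ τ, d ≤ ht u) ∧ τ ∈ M ∧ τ.card + d = n + 1 ∧ T ∈ M ∧
      τ ⊆ T ∧ T.card = n + 1 := by
    intro τ T
    rw [hC]
    dsimp only
    split_ifs with h
    · rw [mem_cofsP hM h.2.1]
      tauto
    · simp only [notMem_empty, false_iff]
      tauto
  have hCseg : ∀ τ T, T ∈ C τ → (T.filter fun u => d ≤ ht u) = τ := by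
    intro τ T hT
    obtain ⟨h1, h2, h3, h4, h5, h6⟩ := (hCmem τ T).1 hT
    have h7 := top_seg hA h4 h6 hd
    refine (eq_of_subset_of_card_le (fun u hu => mem_filter.2 ⟨h5 hu, h1 u hu⟩) ?_).symm
    omega
  have hsum : ∑ᶠ T, srF D s bit d n M ht Ψ f z W e T =
      ∑ τ ∈ S, ∑ T ∈ C τ, srF D s bit d n M ht Ψ f z W e T := by
    rw [← sum_biUnion (fun τ _ τ' _ hne => disjoint_left.2 fun T hT hT' =>
      hne ((hCseg τ T hT).symm.trans (hCseg τ' T hT')))]
    refine finsum_eq_sum_of_support_subset _ fun T hT => ?_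
    obtain ⟨_, h2, h3, h4⟩ := srF_row D s hM f z W e T hT
    obtain ⟨h5, _, h6⟩ := hf1 e he _ h4
    exact mem_coe.2 (mem_biUnion.2 ⟨_, hSal _ h4, (hCmem _ _).2
      ⟨fun u hu => (mem_filter.1 hu).2, h5, h6, h2, filter_subset _ _, h3⟩⟩)
  have hbe : ∀ p, lin (W p) (Phi M n ht f (Ψ e)) =
      ∑ τ ∈ S, al (Ψ e) τ • lin ((fun m => W p (m.map f))) (lamT M n ht τ) := by
    intro p
    unfold Phi
    rw [lin_map, ← lam_eval (hΨ.mem d e he) _ hSmem]
  rw [hsum]
  simp only [hbe, sum_mul]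
  rw [sum_comm]
  refine sum_congr rfl fun τ _ => ?_
  by_cases h0 : al (Ψ e) τ = 0
  · rw [sum_eq_zero fun p _ => by rw [h0, zero_smul, zero_mul]]
    refine (sum_eq_zero fun T hT => ?_).symm
    by_contra h1
    have h2 := (srF_row D s hM f z W e T h1).2.2.2
    rw [hCseg τ T hT] at h2
    exact h2 h0
  · obtain ⟨h1, _, h2⟩ := hf1 e he τ h0
    have h3 : ∀ T ∈ C τ, srF D s bit d n M ht Ψ f z W e T =
        ∑ p, W p ((frontL ht T d).map f) *
          (al (Ψ e) τ • upz D s x₀ z e (∅, p) ^ 2) := by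
      intro T hT
      obtain ⟨_, _, _, h4, _, h5⟩ := (hCmem τ T).1 hT
      unfold srF
      rw [if_pos ⟨he, h4, h5⟩, hCseg τ T hT]
    rw [sum_congr rfl h3, sum_comm]
    refine sum_congr rfl fun p _ => ?_
    rw [← sum_mul, lamT_eval h2]
    by_cases h4 : ∀ u ∈ τ, d ≤ ht u
    · have h5 : C τ = cofs M τ (n + 1) := by
        rw [hC]
        exact if_pos ⟨h4, h1, h2⟩
      rw [if_pos h4, h5, smul_mul_assoc, mul_smul_comm]
    · have h5 : C τ = ∅ := by
        rw [hC]
        exact if_neg fun h => h4 h.1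
      rw [if_neg h4, h5, sum_empty, smul_zero, zero_mul, zero_mul]

/-- The right side. -/
theorem star_rightF [Fintype V] [Fintype X] [Fintype P] [CharP K 2] (D : Dat Q g t)
    {s : Finset V} {d : ℕ} (hΓ : IsDeck Γ Q x₀) (hM : Psm M B n)
    (hA : MAct Γ M B n ht) {Ψ : Q.Cover x₀ × Finset V → (Finset U × Finset U →₀ ZMod 2)}
    (hΨ : IsPsi Γ Q x₀ bit M B n Ψ) {f : U → Q.Cover x₀} (hf : IsVMap Γ f)
    (z : Finset V → X → Finset V × P → K) {W : P → List (Q.Cover x₀) → K} (hW : IsFun Γ D W)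
    (hd : d ≤ n + 1) :
    osum Γ (fun e : Q.Cover x₀ × Finset V => open Classical in
      if e ∈ Cell Q x₀ bit d then
        ∑ p, lin (W p) (Phi M n ht f (Ψ e)) * upz D s x₀ z e (∅, p) ^ 2
      else 0) =
    osum Γ (fun τ : Finset U => open Classical in
      if τ ∈ M ∧ τ.card = n + 1 then
        ∑ p, W p ((frontL ht τ d).map f) *
          aa D s x₀ bit d z Ψ p ∅ (τ.filter fun u => d ≤ ht u) ^ 2
      else 0) := by
  classical
  obtain ⟨hf1, -, hf3, -⟩ := al_fin (d := d) hΓ hM hA hΨ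
  have h1 : (fun e : Q.Cover x₀ × Finset V =>
      if e ∈ Cell Q x₀ bit d then
        ∑ p, lin (W p) (Phi M n ht f (Ψ e)) * upz D s x₀ z e (∅, p) ^ 2
      else 0) = fun e => ∑ᶠ T, srF D s bit d n M ht Ψ f z W e T := by
    funext e
    by_cases he : e ∈ Cell Q x₀ bit d
    · rw [if_pos he, srF_sum D s hΓ hM hA hΨ f z W hd he]
    · rw [if_neg he]
      refine (finsum_eq_zero_of_forall_eq_zero fun T => ?_).symm
      by_contra h
      exact he (srF_row D s hM f z W e T h).1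
  have h2 : (fun τ : Finset U => if τ ∈ M ∧ τ.card = n + 1 then
        ∑ p, W p ((frontL ht τ d).map f) *
          aa D s x₀ bit d z Ψ p ∅ (τ.filter fun u => d ≤ ht u) ^ 2
      else 0) = fun T => ∑ᶠ e, srF D s bit d n M ht Ψ f z W e T := by
    funext T
    by_cases hT : T ∈ M ∧ T.card = n + 1
    · rw [if_pos hT]
      set τ := T.filter fun u => d ≤ ht u with hτ
      set E := (hf3 τ).toFinset with hE
      have hEm : ∀ e, e ∈ E ↔ e ∈ Cell Q x₀ bit d ∧ al (Ψ e) τ ≠ 0 := fun e => by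
        rw [hE, Set.Finite.mem_toFinset]
        rfl
      have h3 : ∑ᶠ e, srF D s bit d n M ht Ψ f z W e T =
          ∑ e ∈ E, srF D s bit d n M ht Ψ f z W e T := by
        refine finsum_eq_sum_of_support_subset _ fun e he => ?_
        obtain ⟨h4, _, _, h5⟩ := srF_row D s hM f z W e T he
        exact mem_coe.2 ((hEm e).2 ⟨h4, h5⟩)
      have h4 : ∀ e ∈ E, srF D s bit d n M ht Ψ f z W e T =
          ∑ p, W p ((frontL ht T d).map f) *
            (al (Ψ e) τ • upz D s x₀ z e (∅, p) ^ 2) := fun e he => by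
        unfold srF
        rw [if_pos ⟨((hEm e).1 he).1, hT⟩]
      have h5 : ∀ p, aa D s x₀ bit d z Ψ p ∅ τ =
          ∑ e ∈ E, al (Ψ e) τ • upz D s x₀ z e (∅, p) := fun p => by
        unfold aa
        rw [finsum_eq_sum_of_support_subset (s := E)]
        · exact sum_congr rfl fun e he => if_pos ((hEm e).1 he).1
        · intro e he
          have he' : (if e ∈ Cell Q x₀ bit d then al (Ψ e) τ • upz D s x₀ z e (∅, p) else 0) ≠ 0 :=
            he
          by_cases h6 : e ∈ Cell Q x₀ bit d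
          · rw [if_pos h6] at he'
            refine mem_coe.2 ((hEm e).2 ⟨h6, fun h7 => he' ?_⟩)
            rw [h7, zero_smul]
          · rw [if_neg h6] at he'
            exact absurd rfl he'
      rw [h3, sum_congr rfl h4, sum_comm]
      refine sum_congr rfl fun p _ => ?_
      rw [h5, sq_sum_two, mul_sum]
    · rw [if_neg hT]
      refine (finsum_eq_zero_of_forall_eq_zero fun e => ?_).symm
      by_contra h
      obtain ⟨_, h4, h5, _⟩ := srF_row D s hM f z W e T h
      exact hT ⟨h4, h5⟩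
  have h3 := osum_comm (Γ := Γ) (fun (e : Q.Cover x₀ × Finset V) (T : Finset U) =>
    srF D s bit d n M ht Ψ f z W e T)
    (fun γ e T => srF_smul D s hΓ hM hA hΨ hf z hW γ e T)
    (fun e T _ γ hγ => cu_free hΓ e γ hγ)
    (fun e T h γ hγ => hA.free γ T (srF_row D s hM f z W e T h).2.1 hγ)
    (fun e => by
      refine (Set.Finite.biUnion ((Ψ e).support.image Prod.snd).finite_toSet
        (t := fun τ => {T | τ ∈ M ∧ T ∈ M ∧ τ ⊆ T}) fun τ _ => ?_).subset fun T hT => ?_
      · by_cases h5 : τ ∈ M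
        · exact (hM.locfin τ h5).subset fun T hT => ⟨hT.2.1, hT.2.2⟩
        · exact Set.finite_empty.subset fun T hT => h5 hT.1
      · obtain ⟨h5, h6, _, h7⟩ := srF_row D s hM f z W e T hT
        obtain ⟨v, _, h8⟩ := exists_ne_zero_of_sum_ne_zero h7
        exact Set.mem_biUnion (mem_coe.2 (mem_image.2 ⟨_, Finsupp.mem_support_iff.2 h8, rfl⟩))
          ⟨(hf1 e h5 _ h7).1, h6, filter_subset _ _⟩)
    (by
      obtain ⟨F, hF⟩ := cu_fin (Γ := Γ) (Q := Q) (x₀ := x₀) hΓ
      exact ⟨F, fun e _ _ => hF e⟩)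
  rw [h1, h2]
  exact h3


end Pool.Agent.H37.MA
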