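import Pool.Agent.H37.MA.QP
import Pool.Agent.H37.TM.Path
import Pool.Agent.H73.HVN.Two

/-!
# Project SM, M side: the Davis complex is acyclic
-/

set_option autoImplicit false
set_option linter.unusedSectionVars false

open Finset

namespace Pool.Agent.H37.MA

open Pool.Agent.H19.Cub Pool.Agent.H77.SX Pool.Agent.H77.SW Pool.Agent.H37.TM
open Pool.Agent.H4.Singer (RGrp gen exists_lift gen_mul_gen gen_inv gen_comm racg racg_not_adj)

variable {V : Type} [DecidableEq V] [Fintype V] {G : SimpleGraph V} {P : Type} [Group P]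

/-- the chains of the augmented complex of the cover: `none` is the augmentation cell -/
abbrev NA (D : PG G P) : Type := Option ((QP D).Cover 1 × Finset V) →₀ ZMod 2

/-- the boundary of a cell of the augmented complex -/
noncomputable def dA1 (D : PG G P) : Option ((QP D).Cover 1 × Finset V) → NA D
  | none => 0
  | some e => if e.2 = ∅ then Finsupp.single none 1 else (bdD (QP D) 1 e).mapDomain some

theorem dA1_empty (D : PG G P) {e : (QP D).Cover 1 × Finset V} (h : e.2 = ∅) :
    dA1 D (some e) = Finsupp.single none 1 := if_pos h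

/-- the boundary of the augmented complex -/
noncomputable def dA (D : PG G P) : NA D →ₗ[ZMod 2] NA D := lin (dA1 D)

/-- the chains of degree `i - 1` of the augmented complex -/
noncomputable def MA (D : PG G P) : ℕ → Submodule (ZMod 2) (NA D)
  | 0 => Finsupp.supported (ZMod 2) (ZMod 2) {none}
  | i + 1 => Finsupp.supported (ZMod 2) (ZMod 2) (some '' Cell (QP D) 1 D.b i)

/-! ### right descents -/

section Rd

variable (G)

/-- right descents -/
private def RD (w : RGrp G) (v : V) : Prop := (racg G).toCoxeterSystem.IsRightDescent w v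

/-- the length -/
private noncomputable def ln (w : RGrp G) : ℕ := (racg G).toCoxeterSystem.length w

variable {G}

private theorem ln_rd {w : RGrp G} {v : V} (h : RD G w v) : ln G (w * gen G v) < ln G w := h

private theorem ln_one : ln G (1 : RGrp G) = 0 := (racg G).toCoxeterSystem.length_one

private theorem rd_self {w : RGrp G} {v : V} : RD G (w * gen G v) v ↔ ¬ RD G w v := by
  have h := (racg G).toCoxeterSystem.isRightDescent_iff_not_isRightDescent_mul
    (w := w * gen G v) (i := v)
  have e : w * gen G v * (racg G).toCoxeterSystem.simple v = w := by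
    show w * gen G v * gen G v = w
    rw [mul_assoc, gen_mul_gen, mul_one]
  rw [e] at h
  exact h

private theorem adj_of_rd {w : RGrp G} {u v : V} (huv : u ≠ v) (hu : RD G w u) (hv : RD G w v) :
    G.Adj u v := by
  by_contra h
  exact (Pool.Agent.H73.HVN.two_descents (racg G).toCoxeterSystem huv hu hv).1
    (racg_not_adj G huv h)

private theorem rd_adj1 {w : RGrp G} {u v : V} (h : G.Adj u v) (hv : RD G w v) :
    RD G (w * gen G u) v := by
  by_cases hu : RD G w u
  · exact (Pool.Agent.H73.HVN.two_descents (racg G).toCoxeterSystem h.ne hu hv).2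
  · by_contra h1
    have e1 := (racg G).toCoxeterSystem.not_isRightDescent_iff.1 hu
    have e2 := (racg G).toCoxeterSystem.not_isRightDescent_iff.1 h1
    have e3 := (racg G).toCoxeterSystem.isRightDescent_iff.1 hv
    have e4 : w * gen G u * gen G v = w * gen G v * gen G u := by
      rw [mul_assoc, gen_comm G u v h, mul_assoc]
    have e5 := (racg G).toCoxeterSystem.length_mul_simple (w * gen G v) u
    have e6 : (racg G).toCoxeterSystem.length (w * gen G u * gen G v) =
        (racg G).toCoxeterSystem.length (w * gen G u) + 1 := e2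
    have e7 : (racg G).toCoxeterSystem.length (w * gen G u) =
        (racg G).toCoxeterSystem.length w + 1 := e1
    have e8 : (racg G).toCoxeterSystem.length (w * gen G v) + 1 =
        (racg G).toCoxeterSystem.length w := e3
    have e9 : (racg G).toCoxeterSystem.length (w * gen G v * gen G u) =
        (racg G).toCoxeterSystem.length (w * gen G v) + 1 ∨
        (racg G).toCoxeterSystem.length (w * gen G v * gen G u) + 1 =
        (racg G).toCoxeterSystem.length (w * gen G v) := e5
    rw [e4] at e6
    omega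

private theorem rd_adj {w : RGrp G} {u v : V} (h : G.Adj u v) : RD G (w * gen G u) v ↔ RD G w v := by
  refine ⟨fun h1 => ?_, rd_adj1 h⟩
  have h2 := rd_adj1 h h1
  rwa [mul_assoc, gen_mul_gen, mul_one] at h2

private theorem exists_rd {w : RGrp G} (hw : w ≠ 1) : ∃ v, RD G w v :=
  (racg G).toCoxeterSystem.exists_rightDescent_of_ne_one hw

private theorem not_rd_one (v : V) : ¬ RD G (1 : RGrp G) v := by
  intro h
  have h1 := ln_rd h
  rw [ln_one] at h1
  omega

/-! ### products over cliques -/

/-- the product of the generators in a clique -/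
private noncomputable def gW (G : SimpleGraph V) (C : Finset V) : RGrp G :=
  (C.toList.map (gen G)).prod

private theorem gW_empty : gW G ∅ = 1 := by
  simp [gW]

private theorem cl_comm {C : Finset V} (hC : G.IsClique (C : Set V)) {u v : V} (hu : u ∈ C)
    (hv : v ∈ C) : Commute (gen G u) (gen G v) := by
  by_cases h : u = v
  · rw [h]
  · exact gen_comm G u v (hC (mem_coe.2 hu) (mem_coe.2 hv) h)

private theorem gW_insert {C : Finset V} {v : V} (hv : v ∉ C)
    (hC : G.IsClique ((insert v C : Finset V) : Set V)) : gW G (insert v C) = gen G v * gW G C := by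
  unfold gW
  have h1 : ((insert v C).toList.map (gen G)).Perm ((v :: C.toList).map (gen G)) :=
    (Finset.toList_insert hv).map _
  rw [h1.prod_eq' ?_, List.map_cons, List.prod_cons]
  refine List.Pairwise.map _ (R := fun u w => Commute (gen G u) (gen G w)) (fun _ _ h => h) ?_
  refine List.pairwise_of_forall_mem_list fun a ha b hb => ?_
  exact cl_comm hC (mem_toList.1 ha) (mem_toList.1 hb)

private theorem gW_erase {C : Finset V} {v : V} (hv : v ∈ C)
    (hC : G.IsClique (C : Set V)) : gW G C = gen G v * gW G (C.erase v) := by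
  conv_lhs => rw [← insert_erase hv]
  exact gW_insert (notMem_erase v C) (by rwa [insert_erase hv])

private theorem gW_comm {C : Finset V} {v : V} (hC : G.IsClique ((insert v C : Finset V) : Set V)) :
    gW G C * gen G v = gen G v * gW G C := by
  refine (Commute.list_prod_right _ (gen G v) fun y hy => ?_).eq.symm
  obtain ⟨u, hu, rfl⟩ := List.mem_map.1 hy
  exact cl_comm hC (mem_insert_self v C) (mem_insert_of_mem (mem_toList.1 hu))

private theorem gW_sq {C : Finset V} (hC : G.IsClique (C : Set V)) : gW G C * gW G C = 1 := by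
  induction C using Finset.induction_on with
  | empty => rw [gW_empty, one_mul]
  | insert a C ha ih =>
    have h1 : G.IsClique (C : Set V) := hC.subset (by
      rw [coe_insert]; exact Set.subset_insert _ _)
    rw [gW_insert ha hC, mul_assoc, ← mul_assoc (gW G C), gW_comm hC, mul_assoc, ih h1, mul_one,
      gen_mul_gen]

private theorem rd_gW {C : Finset V} {v : V} (hC : G.IsClique ((insert v C : Finset V) : Set V))
    (w : RGrp G) : RD G (w * gW G C) v ↔ (RD G w v ↔ v ∉ C) := by
  induction C using Finset.induction_on generalizing w with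
  | empty => simp [gW_empty]
  | insert a C ha ih =>
    have h0 : G.IsClique ((insert a C : Finset V) : Set V) := hC.subset (by
      rw [coe_insert v]; exact Set.subset_insert _ _)
    have h1 : G.IsClique ((insert v C : Finset V) : Set V) := hC.subset (by
      exact_mod_cast insert_subset_insert v (subset_insert a C))
    rw [gW_insert ha h0, ← mul_assoc, ih h1 (w * gen G a)]
    by_cases hav : a = v
    · subst hav
      rw [rd_self]
      simp only [mem_insert_self, not_true_eq_false, iff_false]
      have h2 : (a ∉ C) ↔ True := iff_true_intro ha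
      rw [h2, iff_true]
    · have h3 : G.Adj a v := by
        refine hC ?_ ?_ hav
        · exact_mod_cast mem_insert_of_mem (mem_insert_self a C)
        · exact_mod_cast mem_insert_self v _
      rw [rd_adj h3]
      have h4 : v ∉ insert a C ↔ v ∉ C := by
        rw [mem_insert, not_or]
        exact ⟨fun h => h.2, fun h => ⟨fun h' => hav h'.symm, h⟩⟩
      rw [h4]

end Rd

/-! ### bits -/

/-- the bits -/
private noncomputable def bt (D : PG G P) (w : RGrp G) (v : V) : ZMod 2 := D.b (piP D w) v

private theorem bt_gen (D : PG G P) (w : RGrp G) (u v : V) :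
    bt D (w * gen G u) v = bt D w v + if u = v then 1 else 0 := by
  unfold bt
  rw [map_mul, piP_gen, D.b_mul, D.b_g]

private theorem bt_gW (D : PG G P) {C : Finset V} (hC : G.IsClique (C : Set V)) (w : RGrp G)
    (v : V) : bt D (w * gW G C) v = bt D w v + if v ∈ C then 1 else 0 := by
  induction C using Finset.induction_on generalizing w with
  | empty => simp [gW_empty]
  | insert a C ha ih =>
    have h1 : G.IsClique (C : Set V) := hC.subset (by
      rw [coe_insert]; exact Set.subset_insert _ _)
    rw [gW_insert ha hC, ← mul_assoc, ih h1 (w * gen G a), bt_gen]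
    by_cases hav : a = v
    · subst hav
      rw [if_pos rfl, if_neg ha, if_pos (mem_insert_self a C), add_zero]
    · rw [if_neg hav, add_zero]
      by_cases hv : v ∈ C
      · rw [if_pos hv, if_pos (mem_insert_of_mem hv)]
      · rw [if_neg hv, if_neg (fun h => (mem_insert.1 h).elim (fun h' => hav h'.symm) hv)]

private theorem z2 {a : ZMod 2} (h : a ≠ 0) : a = 1 := by
  revert h
  revert a
  decide

/-- the vertex with the bits `0` of the cell `w W_τ` -/
private noncomputable def nm (D : PG G P) (w : RGrp G) (τ : Finset V) : RGrp G :=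
  w * gW G (τ.filter fun v => bt D w v ≠ 0)

/-- the cell -/
private noncomputable def ce (D : PG G P) (w : RGrp G) (τ : Finset V) :
    (QP D).Cover 1 × Finset V := ((cw D).symm (nm D w τ), τ)

private theorem nbc_symm (D : PG G P) (w : RGrp G) (v : V) :
    (QP D).nbc 1 v ((cw D).symm w) = (cw D).symm (w * gen G v) := by
  apply (cw D).injective
  rw [cw_nbc, Equiv.apply_symm_apply, Equiv.apply_symm_apply]

private theorem sub_cl {τ S : Finset V} (hτ : G.IsClique (τ : Set V)) (h : S ⊆ τ) :
    G.IsClique (S : Set V) := hτ.subset (by exact_mod_cast h)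

private theorem nm_bit (D : PG G P) {w : RGrp G} {τ : Finset V} (hτ : G.IsClique (τ : Set V))
    {v : V} (hv : v ∈ τ) : bt D (nm D w τ) v = 0 := by
  unfold nm
  rw [bt_gW D (sub_cl hτ (filter_subset _ _))]
  by_cases h : bt D w v = 0
  · have h1 : v ∉ τ.filter fun u => bt D w u ≠ 0 := by
      rw [mem_filter]
      exact fun h' => h'.2 h
    rw [h, if_neg h1, add_zero]
  · rw [if_pos (mem_filter.2 ⟨hv, h⟩), z2 h]
    decide

private theorem bd_ce (D : PG G P) (w : RGrp G) {τ : Finset V} (hτ : G.IsClique (τ : Set V)) :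
    bdD (QP D) 1 (ce D w τ) = ∑ v ∈ τ, (Finsupp.single (ce D w (τ.erase v)) 1 +
      Finsupp.single (ce D (w * gen G v) (τ.erase v)) 1) := by
  unfold bdD
  refine sum_congr rfl fun v hv => ?_
  have h1 : (τ.erase v).filter (fun u => bt D w u ≠ 0) = (τ.filter fun u => bt D w u ≠ 0).erase v := by
    ext u
    simp only [mem_filter, mem_erase]
    tauto
  have h2 : (τ.erase v).filter (fun u => bt D (w * gen G v) u ≠ 0) =
      (τ.filter fun u => bt D w u ≠ 0).erase v := by
    ext u
    simp only [mem_filter, mem_erase]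
    constructor
    · rintro ⟨⟨h3, h4⟩, h5⟩
      rw [bt_gen, if_neg (Ne.symm h3), add_zero] at h5
      exact ⟨h3, h4, h5⟩
    · rintro ⟨h3, h4, h5⟩
      refine ⟨⟨h3, h4⟩, ?_⟩
      rw [bt_gen, if_neg (Ne.symm h3), add_zero]
      exact h5
  obtain ⟨S, hS⟩ : ∃ S, S = τ.filter fun u => bt D w u ≠ 0 := ⟨_, rfl⟩
  have hSτ : S ⊆ τ := by
    rw [hS]
    exact filter_subset _ _
  have hvS : G.IsClique ((insert v S : Finset V) : Set V) := sub_cl hτ (insert_subset hv hSτ)
  have h3 : (ce D w τ).1 = (cw D).symm (w * gW G S) := by rw [hS]; rfl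
  have h4 : (ce D w τ).2 = τ := rfl
  have h5 : ce D w (τ.erase v) = ((cw D).symm (w * gW G (S.erase v)), τ.erase v) := by
    unfold ce nm
    rw [h1, ← hS]
  have h6 : ce D (w * gen G v) (τ.erase v) =
      ((cw D).symm (w * gen G v * gW G (S.erase v)), τ.erase v) := by
    unfold ce nm
    rw [h2, ← hS]
  rw [h3, h4, h5, h6, nbc_symm]
  by_cases hv' : v ∈ S
  · have h7 := gW_erase hv' (sub_cl hvS (subset_insert v S))
    have h8 : G.IsClique ((insert v (S.erase v) : Finset V) : Set V) := by
      rw [insert_erase hv']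
      exact sub_cl hvS (subset_insert v S)
    have e1 : w * gen G v * gW G (S.erase v) = w * gW G S := by rw [h7, mul_assoc]
    have e2 : w * gW G S * gen G v = w * gW G (S.erase v) := by
      rw [h7, mul_assoc, mul_assoc, gW_comm h8, ← mul_assoc (gen G v), gen_mul_gen, one_mul]
    rw [e1, e2, add_comm]
  · rw [erase_eq_of_notMem hv']
    have e2 : w * gW G S * gen G v = w * gen G v * gW G S := by
      rw [mul_assoc, gW_comm hvS, mul_assoc]
    rw [e2]

/-! ### the longest vertex of a cell -/

open Classical in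
/-- the longest vertex of a cell -/
private noncomputable def tp (D : PG G P) (e : (QP D).Cover 1 × Finset V) : RGrp G :=
  cw D e.1 * gW G (e.2.filter fun v => ¬ RD G (cw D e.1) v)

private theorem tp_rd (D : PG G P) {e : (QP D).Cover 1 × Finset V}
    (he : G.IsClique (e.2 : Set V)) {v : V} (hv : v ∈ e.2) : RD G (tp D e) v := by
  classical
  unfold tp
  rw [rd_gW (sub_cl he (insert_subset hv (filter_subset _ _))), mem_filter]
  tauto

private theorem ce_tp (D : PG G P) {e : (QP D).Cover 1 × Finset V}
    (he : G.IsClique (e.2 : Set V)) (hb : ∀ v ∈ e.2, bt D (cw D e.1) v = 0) :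
    ce D (tp D e) e.2 = e := by
  classical
  have h1 : (e.2.filter fun v => bt D (tp D e) v ≠ 0) =
      e.2.filter fun v => ¬ RD G (cw D e.1) v := by
    ext v
    rw [mem_filter, mem_filter]
    refine and_congr_right fun hv => ?_
    unfold tp
    rw [bt_gW D (sub_cl he (filter_subset _ _)), hb v hv, zero_add]
    by_cases h : RD G (cw D e.1) v
    · have h2 : v ∉ e.2.filter fun u => ¬ RD G (cw D e.1) u := by
        rw [mem_filter]
        exact fun h' => h'.2 h
      rw [if_neg h2]
      simp [h]
    · rw [if_pos (mem_filter.2 ⟨hv, h⟩)]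
      simp [h]
  refine Prod.ext ?_ rfl
  show (cw D).symm (nm D (tp D e) e.2) = e.1
  rw [Equiv.symm_apply_eq]
  unfold nm
  rw [h1]
  show cw D e.1 * gW G (e.2.filter fun v => ¬ RD G (cw D e.1) v) *
    gW G (e.2.filter fun v => ¬ RD G (cw D e.1) v) = cw D e.1
  rw [mul_assoc, gW_sq (sub_cl he (filter_subset _ _)), mul_one]

private theorem tp_ce (D : PG G P) {w : RGrp G} {τ : Finset V} (hτ : G.IsClique (τ : Set V))
    (hd : ∀ v ∈ τ, RD G w v) : tp D (ce D w τ) = w := by
  classical
  unfold tp
  have h1 : cw D (ce D w τ).1 = nm D w τ := (cw D).apply_symm_apply _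
  have h2 : (ce D w τ).2 = τ := rfl
  rw [h1, h2]
  have h3 : (τ.filter fun v => ¬ RD G (nm D w τ) v) = τ.filter fun v => bt D w v ≠ 0 := by
    ext v
    rw [mem_filter, mem_filter]
    refine and_congr_right fun hv => ?_
    unfold nm
    rw [rd_gW (sub_cl hτ (insert_subset hv (filter_subset _ _))), mem_filter]
    have := hd v hv
    tauto
  rw [h3]
  unfold nm
  rw [mul_assoc, gW_sq (sub_cl hτ (filter_subset _ _)), mul_one]

private theorem rd_cl {w : RGrp G} {τ : Finset V} (hd : ∀ v ∈ τ, RD G w v) :
    G.IsClique (τ : Set V) := by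
  intro u hu v hv huv
  exact adj_of_rd huv (hd u (mem_coe.1 hu)) (hd v (mem_coe.1 hv))

/-! ### the contraction -/

open Classical in
/-- the contraction on the cell with the longest vertex `w` -/
private noncomputable def hh (D : PG G P) (w : RGrp G) (σ : Finset V) : NA D :=
  if h : w = 1 then 0 else
    if (exists_rd h).choose ∈ σ then 0 else
      Finsupp.single (some (ce D w (insert (exists_rd h).choose σ))) 1

/-- the contraction -/
private noncomputable def h1 (D : PG G P) : Option ((QP D).Cover 1 × Finset V) → NA D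
  | none => Finsupp.single (some (ce D 1 ∅)) 1
  | some e => hh D (tp D e) e.2

/-- the rank of a cell -/
private noncomputable def rk (D : PG G P) : Option ((QP D).Cover 1 × Finset V) → ℕ
  | none => 0
  | some e => ln G (tp D e)

private theorem hh_one (D : PG G P) (σ : Finset V) : hh D 1 σ = 0 := by
  unfold hh
  rw [dif_pos rfl]

private theorem hh_eq (D : PG G P) {w : RGrp G} (hw : w ≠ 1) : ∃ v, RD G w v ∧ ∀ σ,
    hh D w σ = if v ∈ σ then 0 else Finsupp.single (some (ce D w (insert v σ))) 1 := by
  classical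
  refine ⟨(exists_rd hw).choose, (exists_rd hw).choose_spec, fun σ => ?_⟩
  unfold hh
  rw [dif_neg hw]

private theorem h1_ce (D : PG G P) {w : RGrp G} {σ : Finset V} (hd : ∀ v ∈ σ, RD G w v) :
    h1 D (some (ce D w σ)) = hh D w σ := by
  show hh D (tp D (ce D w σ)) σ = hh D w σ
  rw [tp_ce D (rd_cl hd) hd]

private theorem rk_ce (D : PG G P) {w : RGrp G} {σ : Finset V} (hd : ∀ v ∈ σ, RD G w v) :
    rk D (some (ce D w σ)) = ln G w := by
  show ln G (tp D (ce D w σ)) = ln G w
  rw [tp_ce D (rd_cl hd) hd]

/-- the chains on the cells of rank less than `n` -/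
private noncomputable def Fl (D : PG G P) (n : ℕ) : Submodule (ZMod 2) (NA D) :=
  Finsupp.supported (ZMod 2) (ZMod 2) {b | rk D b < n}

private theorem single_Fl (D : PG G P) {n : ℕ} {b : Option ((QP D).Cover 1 × Finset V)}
    (h : rk D b < n) : (Finsupp.single b 1 : NA D) ∈ Fl D n :=
  Finsupp.single_mem_supported _ _ h

private theorem ce_Fl (D : PG G P) {n : ℕ} {w : RGrp G} {σ : Finset V} (hd : ∀ v ∈ σ, RD G w v)
    (h : ln G w < n) : (Finsupp.single (some (ce D w σ)) 1 : NA D) ∈ Fl D n :=
  single_Fl D (by rw [rk_ce D hd]; exact h)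

private theorem hh_Fl (D : PG G P) {n : ℕ} {w : RGrp G} {σ : Finset V} (hd : ∀ v ∈ σ, RD G w v)
    (h : ln G w < n) : hh D w σ ∈ Fl D n := by
  classical
  by_cases hw : w = 1
  · rw [hw, hh_one]
    exact Submodule.zero_mem _
  · obtain ⟨v, hv, hv'⟩ := hh_eq D hw
    rw [hv']
    by_cases h2 : v ∈ σ
    · rw [if_pos h2]
      exact Submodule.zero_mem _
    · rw [if_neg h2]
      exact ce_Fl D (fun u hu => (mem_insert.1 hu).elim (fun e => e ▸ hv) (hd u)) h

private theorem dA1_ce (D : PG G P) {w : RGrp G} {σ : Finset V} (hσ : G.IsClique (σ : Set V))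
    (hne : σ ≠ ∅) : dA1 D (some (ce D w σ)) =
      ∑ v ∈ σ, (Finsupp.single (some (ce D w (σ.erase v))) 1 +
        Finsupp.single (some (ce D (w * gen G v) (σ.erase v))) 1) := by
  have h0 : (ce D w σ).2 = σ := rfl
  show (if (ce D w σ).2 = ∅ then Finsupp.single none 1 else
    (bdD (QP D) 1 (ce D w σ)).mapDomain some) = _
  rw [h0, if_neg hne, bd_ce D w hσ]
  rw [show (Finsupp.mapDomain some (∑ v ∈ σ, (Finsupp.single (ce D w (σ.erase v)) (1 : ZMod 2) +
      Finsupp.single (ce D (w * gen G v) (σ.erase v)) 1))) =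
      Finsupp.lmapDomain (ZMod 2) (ZMod 2) some (∑ v ∈ σ, (Finsupp.single (ce D w (σ.erase v))
        (1 : ZMod 2) + Finsupp.single (ce D (w * gen G v) (σ.erase v)) 1)) from rfl, map_sum]
  refine sum_congr rfl fun v _ => ?_
  rw [map_add, Finsupp.lmapDomain_apply, Finsupp.lmapDomain_apply, Finsupp.mapDomain_single,
    Finsupp.mapDomain_single]

private theorem dA_single (D : PG G P) (a : Option ((QP D).Cover 1 × Finset V)) :
    dA D (Finsupp.single a 1) = dA1 D a := lin_single _ _

private theorem rd_step {w : RGrp G} {σ : Finset V} (hd : ∀ v ∈ σ, RD G w v) {u : V} (hu : u ∈ σ) :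
    ∀ v ∈ σ.erase u, RD G (w * gen G u) v := by
  intro v hv
  obtain ⟨h1, h2⟩ := mem_erase.1 hv
  exact (rd_adj (adj_of_rd (Ne.symm h1) (hd u hu) (hd v h2))).2 (hd v h2)

private theorem low (D : PG G P) {w : RGrp G} {σ : Finset V} (hd : ∀ v ∈ σ, RD G w v)
    (hw : w ≠ 1) :
    Finsupp.single (some (ce D w σ)) 1 + dA D (h1 D (some (ce D w σ))) +
      lin (h1 D) (dA1 D (some (ce D w σ))) ∈ Fl D (ln G w) := by
  classical
  obtain ⟨v, hv, hv'⟩ := hh_eq D hw
  have hlin : σ ≠ ∅ → lin (h1 D) (dA1 D (some (ce D w σ))) =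
      ∑ u ∈ σ, hh D w (σ.erase u) + ∑ u ∈ σ, hh D (w * gen G u) (σ.erase u) := by
    intro hne
    rw [dA1_ce D (rd_cl hd) hne, map_sum, ← sum_add_distrib]
    refine sum_congr rfl fun u hu => ?_
    rw [map_add, lin_single, lin_single, h1_ce D (fun v hv => hd v (mem_of_mem_erase hv)),
      h1_ce D (rd_step hd hu)]
  have hlow : ∑ u ∈ σ, hh D (w * gen G u) (σ.erase u) ∈ Fl D (ln G w) :=
    Submodule.sum_mem _ fun u hu => hh_Fl D (rd_step hd hu) (ln_rd (hd u hu))
  rw [h1_ce D hd]
  by_cases h2 : v ∈ σ
  · have hne : σ ≠ ∅ := ne_empty_of_mem h2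
    have h3 : ∑ u ∈ σ, hh D w (σ.erase u) = Finsupp.single (some (ce D w σ)) 1 := by
      rw [sum_eq_single v]
      · rw [hv', if_neg (notMem_erase v σ), insert_erase h2]
      · intro u hu huv
        rw [hv', if_pos (mem_erase.2 ⟨Ne.symm huv, h2⟩)]
      · exact fun h => absurd h2 h
    rw [hv', if_pos h2, map_zero, add_zero, hlin hne, h3, ← add_assoc, chain_add_self, zero_add]
    exact hlow
  · have hd' : ∀ u ∈ insert v σ, RD G w u := fun u hu =>
      (mem_insert.1 hu).elim (fun e => e ▸ hv) (hd u)
    have h3 : dA D (Finsupp.single (some (ce D w (insert v σ))) 1) =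
        (Finsupp.single (some (ce D w σ)) 1 + ∑ u ∈ σ, Finsupp.single (some (ce D w (insert v (σ.erase u)))) 1) +
        ∑ u ∈ insert v σ, Finsupp.single (some (ce D (w * gen G u) ((insert v σ).erase u))) 1 := by
      rw [dA_single, dA1_ce D (rd_cl hd') (insert_ne_empty v σ), sum_add_distrib]
      congr 1
      rw [sum_insert h2, erase_insert h2]
      congr 1
      refine sum_congr rfl fun u hu => ?_
      rw [erase_insert_of_ne]
      rintro rfl
      exact h2 hu
    have h4 : ∑ u ∈ insert v σ, Finsupp.single (some (ce D (w * gen G u) ((insert v σ).erase u)))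
        (1 : ZMod 2) ∈ Fl D (ln G w) :=
      Submodule.sum_mem _ fun u hu => ce_Fl D (rd_step hd' hu) (ln_rd (hd' u hu))
    rw [hv', if_neg h2, h3]
    obtain ⟨A, hA⟩ : ∃ A : NA D, A = Finsupp.single (some (ce D w σ)) 1 := ⟨_, rfl⟩
    obtain ⟨B, hB⟩ : ∃ B : NA D, B = ∑ u ∈ σ, Finsupp.single (some (ce D w (insert v (σ.erase u)))) 1 :=
      ⟨_, rfl⟩
    rw [← hA, ← hB]
    by_cases hne : σ = ∅
    · subst hne
      rw [sum_empty] at hB
      have h5 : lin (h1 D) (dA1 D (some (ce D w ∅))) = Finsupp.single (some (ce D 1 ∅)) 1 := by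
        have h6 : dA1 D (some (ce D w ∅)) = Finsupp.single none 1 := dA1_empty D rfl
        rw [h6, lin_single]
        rfl
      rw [h5, hB, add_zero, ← add_assoc, chain_add_self, zero_add]
      refine Submodule.add_mem _ h4 (ce_Fl D (fun u hu => absurd hu (notMem_empty u)) ?_)
      have h6 : RD G w v := hv
      have h7 := ln_rd h6
      rw [ln_one]
      omega
    · have h5 : ∑ u ∈ σ, hh D w (σ.erase u) = B := by
        rw [hB]
        refine sum_congr rfl fun u hu => ?_
        rw [hv', if_neg (fun h => h2 (mem_of_mem_erase h))]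
      rw [hlin hne, h5]
      have h6 : A + (A + B + ∑ u ∈ insert v σ, Finsupp.single (some (ce D (w * gen G u)
          ((insert v σ).erase u))) (1 : ZMod 2)) + (B + ∑ u ∈ σ, hh D (w * gen G u) (σ.erase u)) =
          (∑ u ∈ insert v σ, Finsupp.single (some (ce D (w * gen G u)
          ((insert v σ).erase u))) (1 : ZMod 2)) + ∑ u ∈ σ, hh D (w * gen G u) (σ.erase u) := by
        have hA2 := chain_add_self A
        have hB2 := chain_add_self B
        calc _ = (A + A) + (B + B) + ((∑ u ∈ insert v σ, Finsupp.single (some (ce D (w * gen G u)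
          ((insert v σ).erase u))) (1 : ZMod 2)) + ∑ u ∈ σ, hh D (w * gen G u) (σ.erase u)) := by abel
          _ = _ := by rw [hA2, hB2, zero_add, zero_add]
      rw [h6]
      exact Submodule.add_mem _ h4 hlow

/-- the cells of the augmented complex -/
private def Ok (D : PG G P) : ℕ → Set (Option ((QP D).Cover 1 × Finset V))
  | 0 => {none}
  | i + 1 => some '' Cell (QP D) 1 D.b i

private theorem MA_eq (D : PG G P) (i : ℕ) :
    MA D i = Finsupp.supported (ZMod 2) (ZMod 2) (Ok D i) := by
  cases i <;> rfl

private theorem ce_cell (D : PG G P) {w : RGrp G} {σ : Finset V} (hσ : G.IsClique (σ : Set V)) {i : ℕ}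
    (hi : σ.card = i) : ce D w σ ∈ Cell (QP D) 1 D.b i := by
  refine ⟨subset_univ _, hσ, hi, fun v hv => ?_⟩
  rw [proj_cw]
  show bt D (cw D ((cw D).symm (nm D w σ))) v = 0
  rw [Equiv.apply_symm_apply]
  exact nm_bit D hσ hv

private theorem cell_ce (D : PG G P) {e : (QP D).Cover 1 × Finset V} {i : ℕ}
    (he : e ∈ Cell (QP D) 1 D.b i) :
    e = ce D (tp D e) e.2 ∧ (∀ v ∈ e.2, RD G (tp D e) v) ∧ e.2.card = i := by
  obtain ⟨-, h1, h2, h3⟩ := he
  refine ⟨(ce_tp D h1 fun v hv => ?_).symm, fun v hv => tp_rd D h1 hv, h2⟩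
  have h4 := h3 v hv
  rw [proj_cw] at h4
  exact h4

/-- the contraction shifts the degree -/
private theorem h1_mem (D : PG G P) {i : ℕ} {a : Option ((QP D).Cover 1 × Finset V)}
    (ha : a ∈ Ok D i) : h1 D a ∈ MA D (i + 1) := by
  classical
  rw [MA_eq]
  cases i with
  | zero =>
    have h2 : a = none := ha
    subst h2
    refine Finsupp.single_mem_supported _ _ ⟨ce D 1 ∅, ce_cell D ?_ card_empty, rfl⟩
    simp
  | succ i =>
    obtain ⟨e, he, rfl⟩ := ha
    obtain ⟨-, h2, h3⟩ := cell_ce D he
    show hh D (tp D e) e.2 ∈ _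
    by_cases hw : tp D e = 1
    · rw [hw, hh_one]
      exact Submodule.zero_mem _
    · obtain ⟨v, hv, hv'⟩ := hh_eq D hw
      rw [hv']
      by_cases h4 : v ∈ e.2
      · rw [if_pos h4]
        exact Submodule.zero_mem _
      · rw [if_neg h4]
        refine Finsupp.single_mem_supported _ _ ⟨_, ce_cell D (rd_cl fun u hu =>
          (mem_insert.1 hu).elim (fun e => e ▸ hv) (h2 u)) ?_, rfl⟩
        rw [card_insert_of_notMem h4, h3]

/-- the boundary of a cell -/
private theorem dA1_mem (D : PG G P) {i : ℕ} {a : Option ((QP D).Cover 1 × Finset V)}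
    (ha : a ∈ Ok D (i + 1)) : dA1 D a ∈ MA D i := by
  classical
  obtain ⟨e, he, rfl⟩ := ha
  show (if e.2 = ∅ then Finsupp.single none 1 else (bdD (QP D) 1 e).mapDomain some) ∈ _
  rw [MA_eq]
  cases i with
  | zero =>
    rw [if_pos (card_eq_zero.1 he.2.2.1)]
    exact Finsupp.single_mem_supported _ _ rfl
  | succ i =>
    have h1 : e.2 ≠ ∅ := by
      intro h
      have h2 := he.2.2.1
      rw [h, card_empty] at h2
      omega
    rw [if_neg h1, Finsupp.mem_supported]
    intro b hb
    obtain ⟨c, hc, rfl⟩ := Finset.mem_image.1 (Finsupp.mapDomain_support hb)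
    exact ⟨c, bdD_cell (qp_bit D) he c (Finsupp.mem_support_iff.1 hc), rfl⟩

private theorem dA1_dA1 (D : PG G P) {i : ℕ} {a : Option ((QP D).Cover 1 × Finset V)}
    (ha : a ∈ Ok D i) : dA D (dA1 D a) = 0 := by
  cases i with
  | zero =>
    have h2 : a = none := ha
    subst h2
    exact map_zero _
  | succ i =>
    obtain ⟨e, he, rfl⟩ := ha
    show dA D (if e.2 = ∅ then Finsupp.single none 1 else (bdD (QP D) 1 e).mapDomain some) = 0
    by_cases h1 : e.2 = ∅
    · rw [if_pos h1, dA_single]
      rfl
    · rw [if_neg h1]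
      have h2 : dA D ((bdD (QP D) 1 e).mapDomain some) =
          lin (fun c => dA1 D (some c)) (bdD (QP D) 1 e) := by
        unfold dA lin
        rw [Finsupp.linearCombination_mapDomain]
        rfl
      rw [h2]
      rcases Nat.lt_or_ge 1 e.2.card with h3 | h3
      · have h4 : ∀ c, bdD (QP D) 1 e c ≠ 0 → (bdD (QP D) 1 c).mapDomain some = dA1 D (some c) := by
          intro c hc
          have h5 : e ∈ Cell (QP D) 1 D.b (e.2.card - 1 + 1) := by
            have h6 := he.2.2.1
            have h7 : e.2.card - 1 + 1 = i := by omega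
            rw [h7]
            exact he
          have h6 := (bdD_cell (qp_bit D) h5 c hc).2.2.1
          have h7 : c.2 ≠ ∅ := by
            intro h
            rw [h, card_empty] at h6
            omega
          show _ = if c.2 = ∅ then Finsupp.single none 1 else (bdD (QP D) 1 c).mapDomain some
          rw [if_neg h7]
        rw [← lin_congr (f' := fun c => (bdD (QP D) 1 c).mapDomain some) h4]
        have h5 := map_lin (Finsupp.lmapDomain (ZMod 2) (ZMod 2)
          (some : _ → Option ((QP D).Cover 1 × Finset V))) (f := bdD (QP D) 1) (x := bdD (QP D) 1 e)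
        rw [bdD_bdD he, map_zero] at h5
        exact h5.symm
      · have h4 : e.2.card = 1 := by
          have := card_pos.2 (nonempty_iff_ne_empty.2 h1)
          omega
        obtain ⟨v, hv⟩ := card_eq_one.1 h4
        unfold bdD
        rw [hv, sum_singleton, map_add, lin_single, lin_single]
        have h5 : ({v} : Finset V).erase v = ∅ := by simp
        have h6 : ∀ c : (QP D).Cover 1, dA1 D (some (c, ({v} : Finset V).erase v)) =
            Finsupp.single none 1 := fun c => if_pos h5
        rw [h6, h6]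
        exact chain_add_self _

private theorem lin_Ok (D : PG G P) {i : ℕ} {x : NA D} (hx : x ∈ MA D i) :
    ∀ a, x a ≠ 0 → a ∈ Ok D i := by
  intro a ha
  rw [MA_eq] at hx
  exact (Finsupp.mem_supported _ _).1 hx (Finsupp.mem_support_iff.2 ha)

/-- `dA` squares to zero -/
theorem dA_dA (D : PG G P) {i : ℕ} {x : NA D} (hx : x ∈ MA D i) : dA D (dA D x) = 0 := by
  have h1 : dA D (dA D x) = lin (fun a => dA D (dA1 D a)) x := map_lin (dA D) (f := dA1 D) (x := x)
  rw [h1, lin_congr (f' := fun a => dA D (dA1 D a)) (f := fun _ => 0)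
    (fun a ha => dA1_dA1 D (lin_Ok D hx a ha))]
  unfold lin
  simp [Finsupp.linearCombination_apply]

/-- `dA` lowers the degree -/
theorem dA_mem (D : PG G P) {i : ℕ} {x : NA D} (hx : x ∈ MA D (i + 1)) : dA D x ∈ MA D i :=
  lin_mem fun a ha => dA1_mem D (lin_Ok D hx a ha)

/-- the operator `1 + d h + h d` lowers the rank -/
private theorem low_all (D : PG G P) {i : ℕ} {a : Option ((QP D).Cover 1 × Finset V)}
    (ha : a ∈ Ok D i) :
    Finsupp.single a 1 + dA D (h1 D a) + lin (h1 D) (dA1 D a) ∈ Fl D (rk D a) := by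
  cases i with
  | zero =>
    have h2 : a = none := ha
    subst h2
    have h3 : dA D (h1 D none) = Finsupp.single none 1 := by
      show dA D (Finsupp.single (some (ce D 1 ∅)) 1) = _
      rw [dA_single]
      exact dA1_empty D rfl
    have h4 : lin (h1 D) (dA1 D none) = 0 := map_zero _
    rw [h3, h4, add_zero, chain_add_self]
    exact Submodule.zero_mem _
  | succ i =>
    obtain ⟨e, he, rfl⟩ := ha
    obtain ⟨h2, h3, h4⟩ := cell_ce D he
    show _ ∈ Fl D (ln G (tp D e))
    by_cases hw : tp D e = 1
    · have h5 : e.2 = ∅ := by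
        by_contra h
        obtain ⟨v, hv⟩ := nonempty_iff_ne_empty.2 h
        have h6 := h3 v hv
        rw [hw] at h6
        exact not_rd_one v h6
      have h6 : h1 D (some e) = 0 := by
        show hh D (tp D e) e.2 = 0
        rw [hw, hh_one]
      have h7 : lin (h1 D) (dA1 D (some e)) = Finsupp.single (some e) 1 := by
        have h8 : dA1 D (some e) = Finsupp.single none 1 := if_pos h5
        rw [h8, lin_single]
        show Finsupp.single (some (ce D 1 ∅)) 1 = _
        rw [hw, h5] at h2
        rw [← h2]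
      rw [h6, map_zero, add_zero, h7, chain_add_self]
      exact Submodule.zero_mem _
    · have h5 := low D h3 hw
      rw [← h2] at h5
      exact h5

/-- **The Davis complex is acyclic.** -/
theorem dA_exact (D : PG G P) (i : ℕ) (x : NA D) (hx : x ∈ MA D i) (hd : dA D x = 0) :
    ∃ y ∈ MA D (i + 1), dA D y = x := by
  obtain ⟨n, hn⟩ : ∃ n, x ∈ Fl D n := by
    refine ⟨x.support.sup (rk D) + 1, (Finsupp.mem_supported _ _).2 fun a ha => ?_⟩
    show rk D a < _
    exact Nat.lt_succ_of_le (le_sup (f := rk D) ha)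
  induction n generalizing x with
  | zero =>
    have h0 : x = 0 := by
      ext a
      by_contra h
      have h2 := (Finsupp.mem_supported _ _).1 hn (Finsupp.mem_support_iff.2 h)
      exact absurd h2 (Nat.not_lt_zero _)
    exact ⟨0, Submodule.zero_mem _, by rw [h0, map_zero]⟩
  | succ n ih =>
    obtain ⟨y, hy, hy'⟩ : ∃ y, y ∈ MA D (i + 1) ∧ y = lin (h1 D) x :=
      ⟨_, lin_mem fun a ha => h1_mem D (lin_Ok D hx a ha), rfl⟩
    have h2 : x + dA D y = lin (fun a => Finsupp.single a 1 + dA D (h1 D a) +
        lin (h1 D) (dA1 D a)) x := by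
      rw [lin_add, lin_add, lin_lin (f := h1 D) (e := dA1 D), ← map_lin (dA D) (f := h1 D), ← hy']
      have h3 : lin (dA1 D) x = 0 := hd
      have h4 : lin (fun a : Option ((QP D).Cover 1 × Finset V) =>
          (Finsupp.single a 1 : NA D)) x = x := by
        unfold lin
        rw [Finsupp.linearCombination_apply]
        simp
      rw [h3, h4, map_zero, add_zero]
    have h3 : x + dA D y ∈ Fl D n := by
      rw [h2]
      refine lin_mem fun a ha => ?_
      have h4 := low_all D (lin_Ok D hx a ha)
      have h5 : rk D a < n + 1 := (Finsupp.mem_supported _ _).1 hn (Finsupp.mem_support_iff.2 ha)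
      exact Finsupp.supported_mono (fun b (hb : rk D b < rk D a) => lt_of_lt_of_le hb
        (Nat.lt_succ_iff.1 h5)) h4
    obtain ⟨y', hy1, hy2⟩ := ih (x + dA D y) (Submodule.add_mem _ hx (dA_mem D hy)) (by
      rw [map_add, hd, dA_dA D hy, add_zero]) h3
    refine ⟨y' + y, Submodule.add_mem _ hy1 hy, ?_⟩
    rw [map_add, hy2, add_assoc, chain_add_self, add_zero]

end Pool.Agent.H37.MA
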