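import Pool.Agent.H37.TM.StarB

/-!
# M side of project SM, module Gc: the product of a cocycle on the tuples and a cochain on ordered simplices
-/

set_option autoImplicit false
set_option linter.unusedSectionVars false

open Finset Pointwise

namespace Pool.Agent.H37.MA

open Pool.Agent.H19.Cub Pool.Agent.H77.SX Pool.Agent.H37.TM

section

variable {U V K : Type} [DecidableEq U] [DecidableEq V] [Field K] [Algebra (ZMod 2) K]
  {ht : U → ℕ}

/-- the coboundary of a function of the tuples -/
noncomputable def dG {α : Type} (G : List α → K) (l : List α) : K := lin G (bdl l)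

theorem dG_cons {α : Type} (G : List α → K) (v : α) (l : List α) :
    dG G (v :: l) = G l + dG (fun m => G (v :: m)) l := by
  unfold dG
  rw [bdl, map_add, lin_single, lin_map]

/-- the product of the function `G` of the tuples of `m + 1` elements (at the lowest vertices) and of `w` -/
def gc (ht : U → ℕ) : ℕ → (List U → K) → (Finset U → K) → Finset U → K
  | 0, G, w, s => (∑ v ∈ lows ht s, G [v]) * w s
  | m + 1, G, w, s => ∑ v ∈ lows ht s, gc ht m (fun l => G (v :: l)) w (s.erase v)

theorem gc_succ (m : ℕ) (G : List U → K) (w : Finset U → K) (s : Finset U) :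
    gc ht (m + 1) G w s = ∑ v ∈ lows ht s, gc ht m (fun l => G (v :: l)) w (s.erase v) := rfl

theorem gc_add_left (m : ℕ) : ∀ (G G' : List U → K) (w : Finset U → K) (s : Finset U),
    gc ht m (fun l => G l + G' l) w s = gc ht m G w s + gc ht m G' w s := by
  induction m with
  | zero =>
    intro G G' w s
    show (∑ v ∈ lows ht s, (G [v] + G' [v])) * w s = _
    rw [sum_add_distrib, add_mul]
    rfl
  | succ m ih =>
    intro G G' w s
    rw [gc_succ, gc_succ, gc_succ, ← sum_add_distrib]
    exact sum_congr rfl fun v _ => ih _ _ _ _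

theorem gc_congr (m : ℕ) : ∀ (G : List U → K) {x y : Finset U → K} {s : Finset U},
    (∀ t ⊆ s, x t = y t) → gc ht m G x s = gc ht m G y s := by
  induction m with
  | zero =>
    intro G x y s h
    show _ * x s = _ * y s
    rw [h s (Subset.refl s)]
  | succ m ih =>
    intro G x y s h
    rw [gc_succ, gc_succ]
    exact sum_congr rfl fun v _ => ih _ fun t ht => h t (ht.trans (erase_subset v s))

/-- only the values of `G` at lists of length `m + 1` matter -/
theorem gc_congr_left (m : ℕ) : ∀ {G G' : List U → K} (w : Finset U → K) (s : Finset U),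
    (∀ l, l.length = m + 1 → G l = G' l) → gc ht m G w s = gc ht m G' w s := by
  induction m with
  | zero =>
    intro G G' w s h
    show (∑ v ∈ lows ht s, G [v]) * w s = (∑ v ∈ lows ht s, G' [v]) * w s
    rw [sum_congr rfl fun v _ => h [v] rfl]
  | succ m ih =>
    intro G G' w s h
    rw [gc_succ, gc_succ]
    exact sum_congr rfl fun v _ => ih _ _ fun l hl => h (v :: l) (by rw [List.length_cons, hl])

theorem gc_zero_left (m : ℕ) (w : Finset U → K) (s : Finset U) :
    gc ht m (fun _ => (0 : K)) w s = 0 := by
  have h := gc_add_left (ht := ht) m (fun _ : List U => (0 : K)) (fun _ => 0) w s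
  simp only [add_zero] at h
  exact left_eq_add.1 h

/-- the support -/
theorem gc_ne_zero (m : ℕ) : ∀ {G : List U → K} {w : Finset U → K} {s : Finset U},
    gc ht m G w s ≠ 0 → ∃ t ⊆ s, w t ≠ 0 := by
  induction m with
  | zero =>
    intro G w s h
    exact ⟨s, Subset.refl s, right_ne_zero_of_mul h⟩
  | succ m ih =>
    intro G w s h
    obtain ⟨v, _, hv⟩ := exists_ne_zero_of_sum_ne_zero h
    obtain ⟨t, h1, h2⟩ := ih hv
    exact ⟨t, h1.trans (erase_subset v s), h2⟩

/-- **The Leibniz rule.** -/
theorem cob_gc [CharP K 2] (m : ℕ) : ∀ (G : List U → K) (w : Finset U → K) {s : Finset U},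
    Set.InjOn ht (s : Set U) → m + 2 ≤ s.card →
    cob (gc ht m G w) s = gc ht (m + 1) (dG G) w s + gc ht m G (cob w) s := by
  induction m with
  | zero =>
    intro G w s hs hc
    have hne : s.Nonempty := card_pos.1 (by omega)
    obtain ⟨v, hv, hm⟩ := exists_low ht hne
    have h1 := lows_eq hs hv hm
    have hne' : (s.erase v).Nonempty := card_pos.1 (by rw [card_erase_of_mem hv]; omega)
    have hs' : Set.InjOn ht ((s.erase v : Finset U) : Set U) :=
      hs.mono (by exact_mod_cast erase_subset v s)
    obtain ⟨v', hv', hm'⟩ := exists_low ht hne'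
    have h1' := lows_eq hs' hv' hm'
    have h2 : ∀ u ∈ s.erase v, lows ht (s.erase u) = {v} := by
      intro u hu
      refine lows_eq (hs.mono ?_) (mem_erase.2 ⟨(ne_of_mem_erase hu).symm, hv⟩)
        fun u' hu' => hm u' (mem_of_mem_erase hu')
      exact_mod_cast erase_subset u s
    unfold cob
    rw [← add_sum_erase s _ hv]
    have h3 : ∑ u ∈ s.erase v, gc ht 0 G w (s.erase u) = G [v] * ∑ u ∈ s.erase v, w (s.erase u) := by
      rw [mul_sum]
      refine sum_congr rfl fun u hu => ?_
      show (∑ a ∈ lows ht (s.erase u), G [a]) * _ = _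
      rw [h2 u hu, sum_singleton]
    have h4 : gc ht 0 G w (s.erase v) = G [v'] * w (s.erase v) := by
      show (∑ a ∈ lows ht (s.erase v), G [a]) * _ = _
      rw [h1', sum_singleton]
    have h5 : gc ht 1 (dG G) w s = (G [v'] + G [v]) * w (s.erase v) := by
      rw [gc_succ, h1, sum_singleton]
      show (∑ a ∈ lows ht (s.erase v), dG G (v :: [a])) * _ = _
      rw [h1', sum_singleton, dG_cons, dG_cons]
      have h6 : dG (fun m => G (v :: v' :: m)) ([] : List U) = 0 := by
        unfold dG
        rw [bdl, map_zero]
      rw [h6, add_zero]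
    have h6 : gc ht 0 G (fun t => ∑ v ∈ t, w (t.erase v)) s =
        G [v] * (w (s.erase v) + ∑ u ∈ s.erase v, w (s.erase u)) := by
      show (∑ a ∈ lows ht s, G [a]) * (∑ v ∈ s, w (s.erase v)) = _
      rw [h1, sum_singleton, ← add_sum_erase s _ hv]
    rw [h3, h4, h5, h6]
    have h7 := CharTwo.add_self_eq_zero (G [v] * w (s.erase v))
    linear_combination -h7
  | succ m ih =>
    intro G w s hs hc
    have hne : s.Nonempty := card_pos.1 (by omega)
    obtain ⟨v, hv, hm⟩ := exists_low ht hne
    have h1 := lows_eq hs hv hm
    have hs' : Set.InjOn ht ((s.erase v : Finset U) : Set U) :=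
      hs.mono (by exact_mod_cast erase_subset v s)
    have h2 : ∀ u ∈ s.erase v, lows ht (s.erase u) = {v} := by
      intro u hu
      refine lows_eq (hs.mono ?_) (mem_erase.2 ⟨(ne_of_mem_erase hu).symm, hv⟩)
        fun u' hu' => hm u' (mem_of_mem_erase hu')
      exact_mod_cast erase_subset u s
    have h3 : cob (gc ht (m + 1) G w) s =
        gc ht (m + 1) G w (s.erase v) + cob (gc ht m (fun l => G (v :: l)) w) (s.erase v) := by
      unfold cob
      rw [← add_sum_erase s _ hv]
      congr 1
      refine sum_congr rfl fun u hu => ?_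
      rw [gc_succ, h2 u hu, sum_singleton, erase_right_comm]
    rw [h3, ih _ _ hs' (by rw [card_erase_of_mem hv]; omega), gc_succ (m + 1), h1, sum_singleton,
      gc_succ m G (cob w), h1, sum_singleton, ← add_assoc]
    congr 1
    have h4 : (fun l => dG G (v :: l)) = fun l => G l + dG (fun m => G (v :: m)) l :=
      funext fun l => dG_cons G v l
    rw [h4, gc_add_left]

/-- the coboundary of the product with a cocycle -/
theorem cob_gc_of [CharP K 2] (m : ℕ) {G : List U → K} (hG : ∀ l, dG G l = 0)
    (w : Finset U → K) {s : Finset U} (hs : Set.InjOn ht (s : Set U)) (hc : m + 2 ≤ s.card) :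
    cob (gc ht m G w) s = gc ht m G (cob w) s := by
  rw [cob_gc m G w hs hc]
  have h1 : dG G = fun _ => 0 := funext hG
  rw [h1, gc_zero_left, zero_add]

/-- invariance -/
theorem gc_smul {Γ : Type} [Group Γ] [MulAction Γ U] {g : Γ} (hg : ∀ u, ht (g • u) = ht u)
    (m : ℕ) : ∀ {G G' : List U → K} {w w' : Finset U → K} {s : Finset U},
    (∀ l, G (l.map (g • ·)) = G' l) → (∀ t ⊆ s, w (g • t) = w' t) →
    gc ht m G w (g • s) = gc ht m G' w' s := by
  induction m with
  | zero =>
    intro G G' w w' s h1 h2
    show (∑ v ∈ lows ht (g • s), G [v]) * w (g • s) = (∑ v ∈ lows ht s, G' [v]) * w' s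
    rw [h2 s (Subset.refl s), lows_smul hg, TM.sum_smul]
    congr 1
    exact sum_congr rfl fun v _ => h1 [v]
  | succ m ih =>
    intro G G' w w' s h1 h2
    rw [gc_succ, gc_succ, lows_smul hg, TM.sum_smul]
    refine sum_congr rfl fun v _ => ?_
    rw [erase_smul]
    exact ih (fun l => h1 (v :: l)) fun t ht => h2 t (ht.trans (erase_subset v s))

/-! ### top simplices -/

/-- the product of the tuple functions: `G` at the first `m + 1` elements, `bet` at the rest -/
def betg {D : Type} (m : ℕ) (G : List D → K) (h : V → D → K) (l : List V) (L : List D) : K :=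
  G (L.take (m + 1)) * bet h l (L.drop m)

/-- the product at a top simplex -/
theorem gcWW_top {t : Finset U} {n : ℕ}
    (hinj : Set.InjOn ht (t : Set U)) (hle : ∀ u ∈ t, ht u ≤ n) (hcard : t.card = n + 1)
    (a : Finset V → Finset U → K) (hp : V → U → K) {q : ℕ} (hq0 : 0 < q) (l : List V) (m : ℕ)
    (G : List U → K) (hq : m + q + l.length = n + 1) :
    gc ht m G (WW ht a hp q l) t = betg m G hp l (frontL ht t (m + l.length)) *
      a ∅ (t.filter fun u => m + l.length ≤ ht u) ^ 2 := by
  classical
  have himg : t.image ht = range (n + 1) := by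
    refine eq_of_subset_of_card_le (fun i hi => ?_) ?_
    · obtain ⟨u, hu, rfl⟩ := mem_image.1 hi
      exact mem_range.2 (by have := hle u hu; omega)
    · rw [card_image_of_injOn hinj, hcard, card_range]
  have hv : ∀ i, i ≤ n → ∃ u ∈ t, ht u = i := fun i hi => by
    have h1 : i ∈ t.image ht := by
      rw [himg]
      exact mem_range.2 (by omega)
    obtain ⟨u, hu, h⟩ := mem_image.1 h1
    exact ⟨u, hu, h⟩
  have hne : t.Nonempty := card_pos.1 (by omega)
  obtain ⟨u0, _⟩ := hne
  have hv' : ∀ i, ∃ u, i ≤ n → u ∈ t ∧ ht u = i := fun i => by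
    by_cases hi : i ≤ n
    · obtain ⟨u, hu⟩ := hv i hi
      exact ⟨u, fun _ => hu⟩
    · exact ⟨u0, fun h => absurd h hi⟩
  choose v hv using hv'
  have hlow : ∀ k, k ≤ n → lows ht (t.filter fun u => k ≤ ht u) = {v k} := fun k hk => by
    refine lows_eq (hinj.mono ?_) ?_ ?_
    · exact_mod_cast filter_subset _ t
    · rw [mem_filter]
      exact ⟨(hv k hk).1, (hv k hk).2.ge⟩
    · intro u hu
      rw [(hv k hk).2]
      exact (mem_filter.1 hu).2
  have herase : ∀ k, k ≤ n → (t.filter fun u => k ≤ ht u).erase (v k) =
      t.filter fun u => k + 1 ≤ ht u := fun k hk => by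
    ext u
    rw [mem_erase, mem_filter, mem_filter]
    constructor
    · rintro ⟨h1, h2, h3⟩
      refine ⟨h2, lt_of_le_of_ne h3 fun h4 => h1 ?_⟩
      exact hinj h2 (hv k hk).1 (by rw [(hv k hk).2, ← h4])
    · rintro ⟨h2, h3⟩
      refine ⟨?_, h2, by omega⟩
      rintro rfl
      rw [(hv k hk).2] at h3
      omega
  have hcardk : ∀ k, k ≤ n + 1 → (t.filter fun u => k ≤ ht u).card = n + 1 - k := fun k => by
    induction k with
    | zero =>
      intro _
      rw [filter_true_of_mem (fun u _ => Nat.zero_le _), hcard, Nat.sub_zero]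
    | succ k ih =>
      intro hk
      rw [← herase k (by omega), card_erase_of_mem, ih (by omega)]
      · omega
      · rw [mem_filter]
        exact ⟨(hv k (by omega)).1, (hv k (by omega)).2.ge⟩
  have key : ∀ (l : List V) (k : ℕ), k + q + l.length = n + 1 →
      WW ht a hp q l (t.filter fun u => k ≤ ht u) =
        bet hp l ((List.range' k (l.length + 1)).map v) *
          a ∅ (t.filter fun u => k + l.length ≤ ht u) ^ 2 := by
    intro l
    induction l with
    | nil =>
      intro k hk
      rw [List.length_nil] at hk
      change PQ ht a ∅ q _ = 1 * _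
      rw [one_mul, PQ_card]
      · rfl
      · rw [hcardk k (by omega)]
        omega
    | cons b l ih =>
      intro k hk
      rw [List.length_cons] at hk
      have h1 : k ≤ n := by omega
      change dcup ht (hp b) (WW ht a hp q l) _ = _
      unfold dcup hmin
      rw [hlow k h1, sum_singleton, herase k h1, hlow (k + 1) (by omega), sum_singleton,
        ih (k + 1) (by omega), List.length_cons]
      have h2 : List.range' k (l.length + 1 + 1) = k :: (k + 1) :: List.range' (k + 2) l.length := by
        rw [List.range'_succ, List.range'_succ]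
      have h3 : List.range' (k + 1) (l.length + 1) = (k + 1) :: List.range' (k + 2) l.length := by
        rw [List.range'_succ]
      rw [h2, h3, List.map_cons, List.map_cons, List.map_cons]
      have h4 : (fun u => k + 1 + l.length ≤ ht u) = fun u => k + (l.length + 1) ≤ ht u := by
        funext u
        rw [show k + 1 + l.length = k + (l.length + 1) by omega]
      simp only [h4]
      change _ = ((hp b (v k) + hp b (v (k + 1))) * bet hp l _) * _
      rw [mul_assoc]
  have key2 : ∀ (m k : ℕ) (G : List U → K), k + m ≤ n →
      gc ht m G (WW ht a hp q l) (t.filter fun u => k ≤ ht u) =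
        G ((List.range' k (m + 1)).map v) *
          WW ht a hp q l (t.filter fun u => k + m ≤ ht u) := by
    intro m
    induction m with
    | zero =>
      intro k G hk
      show (∑ a ∈ lows ht _, G [a]) * _ = _
      rw [hlow k (by omega), sum_singleton]
      rfl
    | succ m ih =>
      intro k G hk
      rw [gc_succ, hlow k (by omega), sum_singleton, herase k (by omega), ih (k + 1) _ (by omega)]
      have h2 : List.range' k (m + 1 + 1) = k :: List.range' (k + 1) (m + 1) := by
        rw [List.range'_succ]
      rw [h2, List.map_cons]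
      have h4 : (fun u => k + 1 + m ≤ ht u) = fun u => k + (m + 1) ≤ ht u := by
        funext u
        rw [show k + 1 + m = k + (m + 1) by omega]
      simp only [h4]
  have h5 := key2 m 0 G (by omega)
  rw [filter_true_of_mem (fun u _ => Nat.zero_le _), zero_add, key l m (by omega)] at h5
  rw [h5]
  have h6 : frontL ht t (m + l.length) = (List.range' 0 (m + l.length + 1)).map v := by
    unfold frontL
    rw [List.range_eq_range', List.map_eq_flatMap]
    refine List.flatMap_congr fun i hi => ?_
    have hi' : i ≤ n := by
      rw [List.mem_range'] at hi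
      obtain ⟨j, hj, rfl⟩ := hi
      omega
    have h6 : (t.filter fun u => ht u = i) = {v i} := by
      ext u
      rw [mem_filter, mem_singleton]
      constructor
      · rintro ⟨h7, h8⟩
        exact hinj h7 (hv i hi').1 (h8.trans (hv i hi').2.symm)
      · rintro rfl
        exact hv i hi'
    rw [h6, toList_singleton]
  unfold betg
  have happ : ∀ m k : ℕ, List.range' 0 (m + k) = List.range' 0 m ++ List.range' m k := by
    intro m k
    have h9 := List.range'_append_1 (s := 0) (m := m) (n := k)
    rw [zero_add] at h9
    exact h9.symm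
  have h7 : List.range' 0 (m + l.length + 1) =
      List.range' 0 m ++ List.range' m (l.length + 1) := by
    rw [add_assoc, happ]
  have h8 : (List.range' 0 (m + l.length + 1)).take (m + 1) = List.range' 0 (m + 1) := by
    have h9 : List.range' 0 (m + l.length + 1) =
        List.range' 0 (m + 1) ++ List.range' (m + 1) l.length := by
      rw [← happ]
      congr 1
      omega
    rw [h9, List.take_left' (by simp)]
  rw [h6, ← List.map_take, ← List.map_drop, h8, h7, List.drop_left' (by simp), mul_assoc]

end

end Pool.Agent.H37.MA
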