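import Pool.Agent.H37.MA.Tup
import Pool.Agent.H37.MA.Zer
import Pool.Agent.H19.SR.Bc

/-!
# M side of project SM, module Rel: the relation with a cocycle of the deck group
-/

set_option autoImplicit false
set_option linter.unusedSectionVars false

open Finset Pointwise

namespace Pool.Agent.H37.MA

open Pool.Agent.H19.Cub Pool.Agent.H77.SX Pool.Agent.H37.TM

variable {V X U Γ : Type} [DecidableEq V] [DecidableEq U] [Group Γ] [MulAction Γ U]
  {Q : CubeComplex V X} {x₀ : X} [MulAction Γ (Q.Cover x₀)] {bit : X → V → ZMod 2}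
  {M B : Set (Finset U)} {n : ℕ} {ht : U → ℕ}

/-- The sum over the cubes is a sum over the top simplices. -/
theorem star_top [Fintype V] [Fintype X] {P K : Type} [Group P] [Fintype P] [Field K]
    [Algebra (ZMod 2) K] [CharP K 2] {g : V → P} {t : V → P → K} (D : Dat Q g t)
    (hbit : IsBit Q bit) (hΓ : IsDeck Γ Q x₀) (hM : Psm M B n)
    (hA : MAct Γ M B n ht) {f : U → Q.Cover x₀} (hf : IsVMap Γ f)
    {Ψ : Q.Cover x₀ × Finset V → (Finset U × Finset U →₀ ZMod 2)}
    (hΨ : IsPsi Γ Q x₀ bit M B n Ψ) {s : Finset V} {d : ℕ}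
    {z : Finset V → X → Finset V × P → K} (hz : z ∈ ZQ K Q (d + 1) (rX g s t))
    {W : P → List (Q.Cover x₀) → K} (hW : IsFun Γ D W) (hd : d + 1 ≤ n + 1) :
    osum Γ (fun e : Q.Cover x₀ × Finset V => open Classical in
      if e ∈ Cell Q x₀ bit (d + 1) then
        ∑ p, lin (W p) (TT Q x₀ e) * upz D s x₀ z e (∅, p) ^ 2
      else 0) =
    osum Γ (fun τ : Finset U => open Classical in
      if τ ∈ M ∧ τ.card = n + 1 then
        ∑ p, W p ((frontL ht τ (d + 1)).map f) *
          aa D s x₀ bit (d + 1) z Ψ p ∅ (τ.filter fun u => d + 1 ≤ ht u) ^ 2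
      else 0) := by
  classical
  obtain ⟨H, hH1, hH2⟩ := exists_homotopy hbit hΓ hM hA hΨ hf
  have h1 := star_cmpF D hbit hΓ hz hW (F := fun e => TT Q x₀ e + Phi M n ht f (Ψ e)) hH1 hH2
  obtain ⟨S, hS⟩ := cu_fin (x₀ := x₀) hΓ
  rw [← star_rightF D hΓ hM hA hΨ hf z hW hd]
  have h3 := osum_add (Γ := Γ)
    (fun e : Q.Cover x₀ × Finset V => open Classical in
      if e ∈ Cell Q x₀ bit (d + 1) then
        ∑ p, lin (W p) (TT Q x₀ e) * upz D s x₀ z e (∅, p) ^ 2
      else 0)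
    (fun e : Q.Cover x₀ × Finset V => open Classical in
      if e ∈ Cell Q x₀ bit (d + 1) then
        ∑ p, lin (W p) (Phi M n ht f (Ψ e)) * upz D s x₀ z e (∅, p) ^ 2
      else 0) ⟨S, fun e _ => hS e⟩ ⟨S, fun e _ => hS e⟩
  have h4 := h3.symm.trans (Eq.trans (by
    congr 1
    funext e
    by_cases hc : e ∈ Cell Q x₀ bit (d + 1)
    · rw [if_pos hc, if_pos hc, if_pos hc, ← sum_add_distrib]
      exact sum_congr rfl fun p _ => by rw [map_add, add_mul]
    · rw [if_neg hc, if_neg hc, if_neg hc, add_zero]) h1)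
  have h5 := add_self_K (osum Γ (fun e : Q.Cover x₀ × Finset V => open Classical in
      if e ∈ Cell Q x₀ bit (d + 1) then
        ∑ p, lin (W p) (Phi M n ht f (Ψ e)) * upz D s x₀ z e (∅, p) ^ 2
      else 0))
  exact add_right_cancel (h4.trans h5.symm)

/-- The relation from a pseudomanifold with a height and a map to its complex of pairs. -/
theorem rel_psi [Fintype V] [Fintype X] {P K : Type} [Group P] [Fintype P] [Field K]
    [Algebra (ZMod 2) K] [CharP K 2] {g : V → P} {t : V → P → K} (D : Dat Q g t)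
    (hbit : IsBit Q bit) (hΓ : IsDeck Γ Q x₀) (hM : Psm M B n)
    (hA : MAct Γ M B n ht) (hU : ∀ u : U, {u} ∈ M)
    {Ψ : Q.Cover x₀ × Finset V → (Finset U × Finset U →₀ ZMod 2)}
    (hΨ : IsPsi Γ Q x₀ bit M B n Ψ) {cl : X → Q.Cover x₀} (hcl : ∀ x, Q.proj x₀ (cl x) = x)
    {s : Finset V} {i m : ℕ} (hs1 : 1 ≤ s.card) (hm : m + s.card = i) (hi : i + s.card = n + 1)
    {z : Finset V → X → Finset V × P → K} (hz : z ∈ ZQ K Q i (rX g s t))
    {G : List (Q.Cover x₀) → K} (hG : ∀ x, lin G (BL x) = 0)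
    (hGg : ∀ (γ : Γ) (L : List (Q.Cover x₀)), G (L.map (γ • ·)) = G L) :
    ∑ A ∈ (univ : Finset (Finset V)).filter (fun A => s ⊆ A),
        ∑ x ∈ univ.filter (fun x => ∀ v ∈ A, bit x v = 0), ∑ p,
          (∏ v ∈ s, t v p) * lin G (TT Q x₀ (cl x, A \ s)) * z A x (∅, p) ^ 2 = 0 := by
  classical
  obtain ⟨d, rfl⟩ : ∃ d', i = d' + 1 := ⟨i - 1, by omega⟩
  obtain ⟨f, hf⟩ := exists_vmap (Q := Q) (x₀ := x₀) hA.sact hU
  have hnd : s.toList.Nodup := s.nodup_toList
  have hls : s.toList.toFinset = s := s.toList_toFinset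
  have hll : s.toList.length = s.card := length_toList s
  rw [← star_leftG D hΓ hcl hz hnd hls hm hGg]
  have hW := isFun_betg D s hΓ s.toList m hG hGg
  rw [star_top D hbit hΓ hM hA hf hΨ hz hW (by omega)]
  refine Eq.trans ?_ (star_zeroG D hbit hΓ hM hA hΨ hf hz hnd (m := m) (q := s.card) (by omega)
    (by omega) (by omega) (by omega) hG hGg)
  congr 1
  funext τ
  by_cases hτ : τ ∈ M ∧ τ.card = n + 1
  · rw [if_pos hτ, if_pos hτ]
    refine sum_congr rfl fun p _ => ?_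
    have h := gcWW_top (hA.ht_inj τ hτ.1) (hA.ht_le τ hτ.1) hτ.2
      (aa D s x₀ bit (d + 1) z Ψ p) (hpf D s x₀ f p) (q := s.card) (by omega) s.toList m
      (fun L => G (L.map f)) (by omega)
    rw [h]
    have h1 : m + s.toList.length = d + 1 := by omega
    rw [h1]
    congr 1
    unfold betg
    rw [← List.map_take, ← List.map_drop]
    congr 1
    exact bet_map' _ f _ _
  · rw [if_neg hτ, if_neg hτ]

/-- **The relation.** The deck group acts freely and simplicially on the homology manifold `M`. -/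
theorem rel_mfd [Fintype V] [Fintype X] {P K : Type} [Group P] [Fintype P] [Field K]
    [Algebra (ZMod 2) K] [CharP K 2] {g : V → P} {t : V → P → K} (D : Dat Q g t)
    (hbit : IsBit Q bit) (hΓ : IsDeck Γ Q x₀) (hM : Mfd M B n)
    {dd : ℕ} (hd : DimLe Q dd) (hK : AcycLt M dd) (hA : SAct Γ M B)
    {cl : X → Q.Cover x₀} (hcl : ∀ x, Q.proj x₀ (cl x) = x)
    {s : Finset V} {i m : ℕ} (hs1 : 1 ≤ s.card) (hm : m + s.card = i) (hi : i + s.card = n + 1)
    {z : Finset V → X → Finset V × P → K} (hz : z ∈ ZQ K Q i (rX g s t))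
    {G : List (Q.Cover x₀) → K} (hG : ∀ x, lin G (BL x) = 0)
    (hGg : ∀ (γ : Γ) (L : List (Q.Cover x₀)), G (L.map (γ • ·)) = G L) :
    ∑ A ∈ (univ : Finset (Finset V)).filter (fun A => s ⊆ A),
        ∑ x ∈ univ.filter (fun x => ∀ v ∈ A, bit x v = 0), ∑ p,
          (∏ v ∈ s, t v p) * lin G (TT Q x₀ (cl x, A \ s)) * z A x (∅, p) ^ 2 = 0 := by
  classical
  let iact : MulAction Γ (Sx M) :=
    { smul := fun g a => ⟨g • a.1, hA.K_mem g a.1 a.2⟩
      one_smul := fun a => Subtype.ext (one_smul Γ a.1)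
      mul_smul := fun g h a => Subtype.ext (mul_smul g h a.1) }
  have hact : ∀ (g : Γ) (a : Sx M), (g • a).1 = g • a.1 := fun _ _ => rfl
  obtain ⟨Ψ, hΨ⟩ := exists_psi (Γ := Γ) (x₀ := x₀) (bit := bit) hbit hΓ hd hM hK hA
  obtain ⟨φ, hφ, hφg⟩ := exists_phi hM.psm hact hA.free
  exact rel_psi D hbit hΓ (sd_psm hM.psm)
    (sd_mact hM.psm hact hA.B_mem hA.free) sd_singleton (sd_psi hM.psm hφ hact hφg hΨ) hcl
    hs1 hm hi hz hG hGg

/-- constants and linear functionals -/
theorem lin_cst (K : Type) [Field K] [CharP K 2] [Algebra (ZMod 2) K] {L : Type} (G : L → ZMod 2)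
    (x : L →₀ ZMod 2) :
    lin (fun a => Pool.Agent.H19.SR.cst K (G a)) x = Pool.Agent.H19.SR.cst K (lin G x) := by
  have h1 : ∀ a : ZMod 2, Pool.Agent.H19.SR.cst K a = algebraMap (ZMod 2) K a := fun a => by
    rw [Pool.Agent.H19.SR.cst_eq]
    exact congrFun (congrArg DFunLike.coe (RingHom.ext_zmod _ _)) a
  rw [h1]
  show _ = (algebraMap (ZMod 2) K) (lin G x)
  induction x using Finsupp.induction_linear with
  | zero => rw [map_zero, map_zero, map_zero]
  | add x y hx hy => rw [map_add, map_add, map_add, hx, hy]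
  | single a b =>
    have h01 : b = 0 ∨ b = 1 := by revert b; decide
    rcases h01 with rfl | rfl
    · rw [Finsupp.single_zero, map_zero, map_zero, map_zero]
    · rw [lin_single, lin_single, h1]

/-- The relation with a cocycle over the field of two elements. -/
theorem rel_key [Fintype V] [Fintype X] {P K : Type} [Group P] [Fintype P] [Field K]
    [CharP K 2] {g : V → P} {t : V → P → K} (D : Dat Q g t)
    (hbit : IsBit Q bit) (hΓ : IsDeck Γ Q x₀) (hM : Mfd M B n) (hK : Acyc M) (hA : SAct Γ M B)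
    (hsurj : Function.Surjective (Q.proj x₀))
    {s : Finset V} {i m : ℕ} (hs1 : 1 ≤ s.card) (hm : m + s.card = i) (hi : i + s.card = n + 1)
    {z : Finset V → X → Finset V × P → K} (hz : z ∈ ZQ K Q i (rX g s t))
    {G : List (Q.Cover x₀) → ZMod 2} (hG : ∀ x, lin G (BL x) = 0)
    (hGg : ∀ (γ : Γ) (L : List (Q.Cover x₀)), G (L.map (γ • ·)) = G L)
    {gam : Finset V → X → ZMod 2} (hgam : ∀ e ∈ Cell Q x₀ bit m,
      lin G (TT Q x₀ e) = gam e.2 (Q.proj x₀ e.1)) :
    ∑ A ∈ (univ : Finset (Finset V)).filter (fun A => s ⊆ A),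
        ∑ x ∈ univ.filter (fun x => ∀ v ∈ A, bit x v = 0), ∑ p,
          Pool.Agent.H19.SR.cst K (gam (A \ s) x) * (∏ v ∈ s, t v p) * z A x (∅, p) ^ 2 = 0 := by
  classical
  let ialg : Algebra (ZMod 2) K := ZMod.algebra K 2
  choose cl hcl using hsurj
  have h1 := rel_mfd D hbit hΓ hM (dd := Fintype.card V)
    (fun _ σ _ _ => card_le_univ σ) (hK.lt _) hA hcl hs1 hm hi hz
    (G := fun L => Pool.Agent.H19.SR.cst K (G L)) (fun x => by
      rw [lin_cst K G, hG]
      exact Pool.Agent.H19.SR.cst_zero K) (fun γ L => by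
      show Pool.Agent.H19.SR.cst K (G (L.map (γ • ·))) = Pool.Agent.H19.SR.cst K (G L)
      rw [hGg])
  rw [← h1]
  refine sum_congr rfl fun A hA' => sum_congr rfl fun x hx => sum_congr rfl fun p _ => ?_
  by_cases hz0 : z A x = 0
  · rw [hz0, Pi.zero_apply, zero_pow two_ne_zero, mul_zero, mul_zero]
  · obtain ⟨h2, h3, h4⟩ := (mem_ZQ.1 hz).1 A x hz0
    have h5 : s ⊆ A := (mem_filter.1 hA').2
    have h6 : ((cl x, A \ s) : Q.Cover x₀ × Finset V) ∈ Cell Q x₀ bit m := by
      refine ⟨?_, h3.subset (by exact_mod_cast sdiff_subset), ?_, fun v hv => ?_⟩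
      · show A \ s ⊆ Q.lab (Q.proj x₀ (cl x))
        rw [hcl]
        exact sdiff_subset.trans h2
      · show (A \ s).card = m
        rw [card_sdiff_of_subset h5, h4]
        omega
      · show bit (Q.proj x₀ (cl x)) v = 0
        rw [hcl]
        exact (mem_filter.1 hx).2 v (sdiff_subset hv)
    rw [lin_cst K G, hgam _ h6]
    show _ = (∏ v ∈ s, t v p) * Pool.Agent.H19.SR.cst K (gam (A \ s) (Q.proj x₀ (cl x))) * _
    rw [hcl, mul_comm (∏ v ∈ s, t v p)]

end Pool.Agent.H37.MA
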