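import Pool.Agent.H19.SR.Pair

/-!
# Project SM, M side: coboundaries do not contribute to the relation
-/

set_option autoImplicit false
set_option linter.unusedSectionVars false

open Finset

namespace Pool.Agent.H37.MA

open Pool.Agent.H77.SW Pool.Agent.H19.SR

variable {V : Type} [DecidableEq V] [Fintype V] {P : Type} [Group P] [Fintype P] {K : Type}
  [Field K] [CharP K 2]

theorem cst_add (a b : ZMod 2) : cst K (a + b) = cst K a + cst K b := by
  have h2 : (1 : K) + 1 = 0 := CharTwo.add_self_eq_zero 1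
  have h : ∀ x : ZMod 2, x = 0 ∨ x = 1 := by decide
  have e : (1 : ZMod 2) + 1 = 0 := by decide
  rcases h a with rfl | rfl <;> rcases h b with rfl | rfl
  · simp [cst]
  · simp [cst]
  · simp [cst]
  · rw [e]
    simp [cst, h2]

private theorem cst_sum {ι : Type} (S : Finset ι) (f : ι → ZMod 2) :
    cst K (∑ i ∈ S, f i) = ∑ i ∈ S, cst K (f i) := by
  classical
  induction S using Finset.induction_on with
  | empty => simp [cst]
  | insert a S ha ih => rw [sum_insert ha, sum_insert ha, cst_add, ih]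

/-- **Stokes for the square of a cycle.** With `κ = A \ {v}` (`s ⊆ κ`) the sum over `A ⊇ s`, `p ∈ bz D A`,
`v ∈ A \ s` is the sum over `κ ⊇ s` and `v ∉ κ` of `∑ p ∈ bz D (insert v κ), (β (κ \ s) p + β (κ \ s) (p * D.g v)) *
T p * z (insert v κ) (∅, p) ^ 2`, `T p = ∏ u ∈ s, t u p`. If the last factor is not zero, `insert v κ` is a clique,
`T (p * D.g v) = T p` (`ht`, `v` is adjacent to all `u ∈ s`) and `z (insert v κ) (∅, p * D.g v) =
z (insert v κ) (∅, p)` (second property in `Zs`, component `∅` of `rE`), so by `sum_bz` this is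
`∑ p ∈ bz D κ, β (κ \ s) p * T p * z (insert v κ) (∅, p) ^ 2`. The sum over `v ∉ κ` of the squares is the square of
`∑ v ∈ κᶜ, z (insert v κ) (∅, p) = 0`. (`cst K` is additive in characteristic two.) -/
theorem stokes_sq {G : SimpleGraph V} (D : PG G P) {s : Finset V} {i : ℕ} {t : V → P → K}
    (ht : StarInv D t) (β : Finset V → P → ZMod 2) {z : Finset V → (Finset V × P → K)}
    (hz : z ∈ Zs K G i (rE D s t)) :
    ∑ A ∈ (univ : Finset (Finset V)).filter (fun A => s ⊆ A), ∑ p ∈ bz D A,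
      cst K (∑ v ∈ A \ s, (β ((A \ s).erase v) p + β ((A \ s).erase v) (p * D.g v))) *
        (∏ v ∈ s, t v p) * z A (∅, p) ^ 2 = 0 := by
  classical
  -- the terms
  set g : Finset V → V → P → K := fun κ v p =>
    (cst K (β (κ \ s) p) + cst K (β (κ \ s) (p * D.g v))) * (∏ v ∈ s, t v p) *
      z (insert v κ) (∅, p) ^ 2 with hg
  have h1 : ∑ A ∈ (univ : Finset (Finset V)).filter (fun A => s ⊆ A), ∑ p ∈ bz D A,
      cst K (∑ v ∈ A \ s, (β ((A \ s).erase v) p + β ((A \ s).erase v) (p * D.g v))) *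
        (∏ v ∈ s, t v p) * z A (∅, p) ^ 2 =
      ∑ A ∈ (univ : Finset (Finset V)).filter (fun A => s ⊆ A), ∑ v ∈ A \ s,
        ∑ p ∈ bz D A, g (A.erase v) v p := by
    refine sum_congr rfl fun A hA => ?_
    rw [sum_comm]
    refine sum_congr rfl fun p _ => ?_
    rw [cst_sum, sum_mul, sum_mul]
    refine sum_congr rfl fun v hv => ?_
    have hvA : v ∈ A := (mem_sdiff.1 hv).1
    have e1 : (A \ s).erase v = A.erase v \ s := by
      ext u
      simp only [mem_erase, mem_sdiff]
      tauto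
    simp only [hg]
    rw [cst_add, e1, insert_erase hvA]
  have h2 : ∑ A ∈ (univ : Finset (Finset V)).filter (fun A => s ⊆ A), ∑ v ∈ A \ s,
        ∑ p ∈ bz D A, g (A.erase v) v p =
      ∑ κ ∈ (univ : Finset (Finset V)).filter (fun A => s ⊆ A), ∑ v ∈ κᶜ,
        ∑ p ∈ bz D (insert v κ), g κ v p := by
    rw [sum_sigma' _ _ (fun A v => ∑ p ∈ bz D A, g (A.erase v) v p),
      sum_sigma' _ _ (fun κ v => ∑ p ∈ bz D (insert v κ), g κ v p)]
    refine sum_bij' (fun x _ => ⟨x.1.erase x.2, x.2⟩) (fun x _ => ⟨insert x.2 x.1, x.2⟩)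
      ?_ ?_ ?_ ?_ ?_
    · rintro ⟨A, v⟩ h
      rw [mem_sigma, mem_filter, mem_sdiff] at h
      rw [mem_sigma, mem_filter, mem_compl]
      exact ⟨⟨mem_univ _, subset_erase.2 ⟨h.1.2, h.2.2⟩⟩, notMem_erase _ _⟩
    · rintro ⟨κ, v⟩ h
      rw [mem_sigma, mem_filter, mem_compl] at h
      rw [mem_sigma, mem_filter, mem_sdiff]
      exact ⟨⟨mem_univ _, h.1.2.trans (subset_insert _ _)⟩, mem_insert_self _ _,
        fun h3 => h.2 (h.1.2 h3)⟩
    · rintro ⟨A, v⟩ h
      rw [mem_sigma, mem_filter, mem_sdiff] at h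
      show (⟨insert v (A.erase v), v⟩ : Sigma fun _ : Finset V => V) = ⟨A, v⟩
      rw [insert_erase h.2.1]
    · rintro ⟨κ, v⟩ h
      rw [mem_sigma, mem_filter, mem_compl] at h
      show (⟨(insert v κ).erase v, v⟩ : Sigma fun _ : Finset V => V) = ⟨κ, v⟩
      rw [erase_insert h.2]
    · rintro ⟨A, v⟩ h
      rw [mem_sigma, mem_filter, mem_sdiff] at h
      show ∑ p ∈ bz D A, g (A.erase v) v p = ∑ p ∈ bz D (insert v (A.erase v)), g (A.erase v) v p
      rw [insert_erase h.2.1]
  rw [h1, h2]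
  refine sum_eq_zero fun κ hκ => ?_
  have hsκ : s ⊆ κ := (mem_filter.1 hκ).2
  have h3 : ∀ v ∈ κᶜ, ∑ p ∈ bz D (insert v κ), g κ v p =
      ∑ p ∈ bz D κ, cst K (β (κ \ s) p) * (∏ v ∈ s, t v p) * z (insert v κ) (∅, p) ^ 2 := by
    intro v hv
    have hvκ : v ∉ κ := mem_compl.1 hv
    by_cases h0 : z (insert v κ) = 0
    · simp only [hg, h0, Pi.zero_apply, ne_eq, OfNat.ofNat_ne_zero, not_false_eq_true, zero_pow,
        mul_zero, sum_const_zero]
    · have hcl := (hz.1 _ h0).1
      rw [sum_bz D hvκ]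
      refine sum_congr rfl fun p _ => ?_
      have e1 : ∏ u ∈ s, t u (p * D.g v) = ∏ u ∈ s, t u p := by
        refine prod_congr rfl fun u hu => ht u v (Or.inr ?_) p
        refine hcl (mem_coe.2 (mem_insert_of_mem (hsκ hu))) (mem_coe.2 (mem_insert_self _ _)) ?_
        rintro rfl
        exact hvκ (hsκ hu)
      have e2 : z (insert v κ) (∅, p * D.g v) = z (insert v κ) (∅, p) := by
        have h4 := congrFun (hz.2.1 (insert v κ) v (mem_insert_self _ _)) (∅, p)
        have h5 : rE D s t v (z (insert v κ)) (∅, p) = z (insert v κ) (∅, p * D.g v) := by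
          show z (insert v κ) (∅, p * D.g v) + _ = _
          rw [if_neg (fun h => absurd h.2 (notMem_empty v)), add_zero]
        rw [← h5, h4]
      simp only [hg]
      rw [e1, e2]
      ring
  rw [sum_congr rfl h3, sum_comm]
  refine sum_eq_zero fun p _ => ?_
  rw [← mul_sum, ← CharTwo.sum_sq]
  have h4 := congrFun (hz.2.2 κ) (∅, p)
  rw [Finset.sum_apply] at h4
  rw [h4]
  simp

end Pool.Agent.H37.MA
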