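import Pool.Agent.H37.MA.Ext
import Pool.Agent.H37.MA.Stk
import Pool.Agent.H37.MA.Rel
import Pool.Agent.H37.TM.TF
import Pool.Agent.H8.SM.Link
import Pool.Agent.H19.SR.KeyP

/-!
# Project SM, M side: the relation from a proper action
-/

set_option autoImplicit false
set_option linter.unusedSectionVars false

open Finset

namespace Pool.Agent.H37.MA

open Pool.Agent.H19.Cub Pool.Agent.H77.SX Pool.Agent.H77.SW Pool.Agent.H37.TM Pool.Agent.H65.RM
open Pool.Agent.H19.SR (Coc cst KeyRel bz)
open Pool.Agent.H4.Singer (RGrp)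

variable {V : Type} [DecidableEq V] [Fintype V] {G : SimpleGraph V} {P : Type} [Group P]

/-- the cycles of `X_P` with coefficients in the regular extension module, as cycles of the complex `QP D` -/
theorem zq_mem {K : Type} [Field K] [Fintype P] (D : PG G P) {i : ℕ} {s : Finset V} {t : V → P → K}
    {z : Finset V → (Finset V × P → K)} (hz : z ∈ Zs K G i (rE D s t)) [DecidableEq P] :
    (fun σ x y => if y.2 = x then z σ y else 0) ∈ ZQ K (QP D) i (rX D.g s t) := by
  obtain ⟨h1, h2, h3⟩ := mem_Zs.1 hz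
  refine mem_ZQ.2 ⟨fun σ x h => ?_, fun σ x _ v hv => ?_, fun κ x => ?_⟩
  · have h4 : z σ ≠ 0 := by
      rintro h5
      apply h
      funext y
      show (if y.2 = x then z σ y else 0) = 0
      rw [h5]
      split_ifs <;> rfl
    exact ⟨subset_univ _, (h1 σ h4).1, (h1 σ h4).2⟩
  · funext y
    obtain ⟨A, p⟩ := y

    show (if p = x * D.g v then z σ (A, p) else 0) = (if p * D.g v = x then z σ (A, p * D.g v) else 0) +
      if v ∈ s ∧ v ∈ A then t v p * (if p * D.g v = x then z σ (A.erase v, p * D.g v) else 0) else 0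
    have h4 : p = x * D.g v ↔ p * D.g v = x := by
      constructor
      · rintro rfl
        rw [mul_assoc, D.sq, mul_one]
      · rintro rfl
        rw [mul_assoc, D.sq, mul_one]
    have h5 := congrFun (h2 σ v hv) (A, p)
    have h6 : z σ (A, p * D.g v) + (if v ∈ s ∧ v ∈ A then t v p * z σ (A.erase v, p * D.g v) else 0) =
        z σ (A, p) := h5
    by_cases h : p * D.g v = x
    · rw [if_pos (h4.2 h), if_pos h, if_pos h]
      exact h6.symm
    · rw [if_neg (fun h' => h (h4.1 h')), if_neg h, if_neg h, mul_zero, zero_add]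
      split_ifs <;> rfl
  · funext y
    rw [Finset.sum_apply]
    show ∑ v ∈ κᶜ, (if y.2 = x then z (insert v κ) y else 0) = 0
    by_cases h : y.2 = x
    · simp only [if_pos h]
      have h4 := congrFun (h3 κ) y
      rw [Finset.sum_apply] at h4
      exact h4
    · simp only [if_neg h, sum_const_zero]

/-- **The relation from an action.** -/
theorem keyRel_of_act {U : Type} [DecidableEq U] [MulAction (RGrp G) U] {M B : Set (Finset U)}
    {n : ℕ} (hM : Mfd M B n) (hK : Acyc M) (hA : PAct (RGrp G) M B) {i : ℕ} {s : Finset V}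
    (hi : i + s.card = n + 1) (hs1 : 1 ≤ s.card) (hsi : s.card ≤ i) : KeyRel G i s := by
  classical
  intro K _ _ P _ _ D hg t ht γ hγ z hz
  obtain ⟨Gc, β, hinv, hcoc, -, hTT⟩ := exists_ext D hγ
  have hD : Dat (QP D) D.g t := ⟨D.sq, D.comm, ht⟩
  have hSA : SAct (piP D).ker M B := sact_of_proper (qp_bit D) (qp_deck D)
    (PAct.sub hA (piP D).ker) hM.ne hM.down
  have h1 := rel_key hD (qp_bit D) (qp_deck D) hM hK hSA (qp_surj D hg) hs1
    (Nat.sub_add_cancel hsi) hi (zq_mem D hz) hcoc hinv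
    (gam := fun B x => γ B x + ∑ v ∈ B, (β (B.erase v) x + β (B.erase v) (x * D.g v))) hTT
  have h2 := stokes_sq D ht β hz
  have h3 : ∀ A : Finset V, (univ.filter fun x => ∀ v ∈ A, D.b x v = 0) = bz D A := by
    intro A
    ext x
    simp [bz]
  have h4 : ∑ A ∈ (univ : Finset (Finset V)).filter (fun A => s ⊆ A), ∑ p ∈ bz D A,
        cst K (γ (A \ s) p) * (∏ v ∈ s, t v p) * z A (∅, p) ^ 2 +
      ∑ A ∈ (univ : Finset (Finset V)).filter (fun A => s ⊆ A), ∑ p ∈ bz D A,
        cst K (∑ v ∈ A \ s, (β ((A \ s).erase v) p + β ((A \ s).erase v) (p * D.g v))) *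
          (∏ v ∈ s, t v p) * z A (∅, p) ^ 2 = 0 := by
    rw [← h1, ← sum_add_distrib]
    refine sum_congr rfl fun A _ => ?_
    rw [← sum_add_distrib, h3 A]
    refine sum_congr rfl fun p _ => ?_
    rw [sum_eq_single p]
    · show _ = cst K (γ (A \ s) p + ∑ v ∈ A \ s, (β ((A \ s).erase v) p +
        β ((A \ s).erase v) (p * D.g v))) * (∏ v ∈ s, t v p) * (if p = p then z A (∅, p) else 0) ^ 2
      rw [if_pos rfl, cst_add]
      ring
    · intro q _ hq
      show _ * (if q = p then z A (∅, q) else 0) ^ 2 = 0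
      rw [if_neg hq]
      ring
    · exact fun h => absurd (mem_univ p) h
  rw [h2, add_zero] at h4
  exact h4

/-- **The relation for the graphs in `InC`.** -/
theorem keyRel_of_inC {n : ℕ} (h : Pool.Agent.H8.SM.InC G n) {i : ℕ} {s : Finset V}
    (hi : i + s.card = n + 1) (hs1 : 1 ≤ s.card) (hsi : s.card ≤ i) : KeyRel G i s := by
  obtain ⟨U, _, _, M, B, hM, hK, hA, -⟩ := h
  exact keyRel_of_act hM hK hA hi hs1 hsi

end Pool.Agent.H37.MA
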