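import Pool.Agent.H37.TM.Up
import Pool.Agent.H19.Cub.CovEmb
import Pool.Agent.H4.Singer.Levels
import Pool.Agent.H77.SW.Defs

/-!
# Project SM, M side: the cube complex of a finite quotient of the right-angled Coxeter group

`QP D` is the finite cube complex with the vertices `P`; its universal cover is the Davis complex: `cw D` is the
bijection of its vertices with `RGrp G`. The kernel of `piP D : RGrp G →* P` is the deck group.
-/

set_option autoImplicit false
set_option linter.unusedSectionVars false

open Finset

namespace Pool.Agent.H37.MA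

open Pool.Agent.H19.Cub Pool.Agent.H77.SX Pool.Agent.H77.SW Pool.Agent.H37.TM
open Pool.Agent.H4.Singer (RGrp gen exists_lift gen_mul_gen gen_inv gen_comm)

variable {V : Type} [DecidableEq V] [Fintype V] {G : SimpleGraph V} {P : Type} [Group P]

/-- the cube complex with the vertices `P` -/
def QP (D : PG G P) : CubeComplex V P where
  graph := G
  lab _ := univ
  nb v p := p * D.g v
  lab_nb _ _ _ := mem_univ _
  nb_nb v p _ := by rw [mul_assoc, D.sq, mul_one]
  lab_adj _ _ _ _ _ _ := mem_univ _
  nb_comm u v p h _ _ := by rw [mul_assoc, mul_assoc, D.comm u v h]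

theorem qp_graph (D : PG G P) : (QP D).graph = G := rfl

theorem qp_nb (D : PG G P) (v : V) (p : P) : (QP D).nb v p = p * D.g v := rfl

theorem qp_lab (D : PG G P) (v : V) (p : P) : v ∈ (QP D).lab p := mem_univ v

theorem qp_bit (D : PG G P) : IsBit (QP D) D.b := by
  intro v p _ u
  rw [qp_nb, D.b_mul, D.b_g]
  congr 1
  by_cases h : v = u
  · rw [if_pos h, if_pos h.symm]
  · rw [if_neg h, if_neg (Ne.symm h)]

theorem exists_piP (D : PG G P) : ∃ π : RGrp G →* P, ∀ v, π (gen G v) = D.g v :=
  exists_lift G D.g D.sq D.comm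

/-- the homomorphism to the finite quotient -/
noncomputable def piP (D : PG G P) : RGrp G →* P := (exists_piP D).choose

theorem piP_gen (D : PG G P) (v : V) : piP D (gen G v) = D.g v := (exists_piP D).choose_spec v

theorem qp_path (D : PG G P) (x : P) (l : List V) : (QP D).IsPath x l := by
  induction l generalizing x with
  | nil => trivial
  | cons v l ih => exact ⟨mem_univ v, ih _⟩

theorem qp_fin (D : PG G P) (x : P) (l : List V) :
    (QP D).fin x l = x * piP D (CubeComplex.wd G l) := by
  induction l generalizing x with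
  | nil =>
    show x = x * piP D 1
    rw [map_one, mul_one]
  | cons v l ih =>
    show (QP D).fin ((QP D).nb v x) l = _
    rw [ih]
    show x * D.g v * piP D (CubeComplex.wd G l) = x * piP D (gen G v * CubeComplex.wd G l)
    rw [map_mul, piP_gen, mul_assoc]

/-- the element of the Coxeter group of a vertex of the cover -/
noncomputable def cwF (D : PG G P) (c : (QP D).Cover 1) : RGrp G := ((QP D).emb 1 c).2

theorem proj_cwF (D : PG G P) (c : (QP D).Cover 1) : (QP D).proj 1 c = piP D (cwF D c) := by
  induction c using Quot.ind with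
  | mk l =>
    show (QP D).fin 1 l.1 = piP D (CubeComplex.wd G l.1)
    rw [qp_fin, one_mul]

theorem cwF_bij (D : PG G P) : Function.Bijective (cwF D) := by
  constructor
  · intro c c' h
    apply (QP D).emb_injective 1
    refine Prod.ext ?_ h
    rw [(QP D).emb_fst, (QP D).emb_fst, proj_cwF, proj_cwF, h]
  · intro w
    obtain ⟨ω, rfl⟩ := (Pool.Agent.H4.Singer.racg G).toCoxeterSystem.wordProd_surjective w
    exact ⟨Quot.mk _ ⟨ω, qp_path D 1 ω⟩, rfl⟩

/-- the vertices of the cover are the elements of the Coxeter group -/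
noncomputable def cw (D : PG G P) : (QP D).Cover 1 ≃ RGrp G := Equiv.ofBijective _ (cwF_bij D)

theorem proj_cw (D : PG G P) (c : (QP D).Cover 1) : (QP D).proj 1 c = piP D (cw D c) := proj_cwF D c

theorem cw_base (D : PG G P) : cw D (base (QP D) 1) = 1 := rfl

theorem cw_nbc (D : PG G P) (v : V) (c : (QP D).Cover 1) :
    cw D ((QP D).nbc 1 v c) = cw D c * gen G v := by
  induction c using Quot.ind with
  | mk l =>
    rw [(QP D).nbc_mk 1 v l (mem_univ v)]
    show CubeComplex.wd G (l.1 ++ [v]) = CubeComplex.wd G l.1 * gen G v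
    exact CubeComplex.wd_snoc G l.1 v

/-- the Coxeter group acts on the vertices of the cover -/
noncomputable instance coverAct (D : PG G P) : MulAction (RGrp G) ((QP D).Cover 1) where
  smul w c := (cw D).symm (w * cw D c)
  one_smul c := by
    show (cw D).symm (1 * cw D c) = c
    rw [one_mul, Equiv.symm_apply_apply]
  mul_smul w w' c := by
    show (cw D).symm (w * w' * cw D c) = (cw D).symm (w * cw D ((cw D).symm (w' * cw D c)))
    rw [Equiv.apply_symm_apply, mul_assoc]

theorem cw_smul (D : PG G P) (w : RGrp G) (c : (QP D).Cover 1) : cw D (w • c) = w * cw D c :=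
  (cw D).apply_symm_apply _

theorem cw_smul' (D : PG G P) (w : (piP D).ker) (c : (QP D).Cover 1) :
    cw D (w • c) = w.1 * cw D c := cw_smul D w.1 c

/-- the kernel is the deck group -/
theorem qp_deck (D : PG G P) : IsDeck (piP D).ker (QP D) 1 where
  nb g v c _ := by
    apply (cw D).injective
    rw [cw_nbc, cw_smul', cw_smul', cw_nbc, mul_assoc]
  proj g c := by
    rw [proj_cw, cw_smul', map_mul, g.2, one_mul, ← proj_cw]
  trans c c' h := by
    rw [proj_cw, proj_cw] at h
    refine ⟨⟨cw D c' * (cw D c)⁻¹, ?_⟩, ?_⟩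
    · rw [MonoidHom.mem_ker, map_mul, map_inv, h, mul_inv_cancel]
    · apply (cw D).injective
      rw [cw_smul']
      show cw D c' * (cw D c)⁻¹ * cw D c = cw D c'
      rw [inv_mul_cancel_right]
  free g c h := by
    have h1 := congrArg (cw D) h
    rw [cw_smul'] at h1
    exact Subtype.ext (mul_eq_right.1 h1)

theorem piP_surj (D : PG G P) (h : Subgroup.closure (Set.range D.g) = ⊤) :
    Function.Surjective (piP D) := by
  rw [← MonoidHom.range_eq_top, eq_top_iff, ← h, Subgroup.closure_le]
  rintro p ⟨v, rfl⟩
  exact ⟨gen G v, piP_gen D v⟩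

theorem qp_surj (D : PG G P) (h : Subgroup.closure (Set.range D.g) = ⊤) :
    Function.Surjective ((QP D).proj 1) := by
  intro p
  obtain ⟨w, hw⟩ := piP_surj D h p
  exact ⟨(cw D).symm w, by rw [proj_cw, Equiv.apply_symm_apply, hw]⟩

end Pool.Agent.H37.MA
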