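import Pool.Agent.H37.MA.Key
import Pool.Agent.H8.SM.Range
import Pool.Agent.H19.SR.Step
import Pool.Agent.H19.SR.KeyT

/-!
# Project SM: the range for all right-angled Coxeter groups on acyclic manifolds
-/

set_option autoImplicit false
set_option linter.unusedSectionVars false

open Finset

namespace Pool.Agent.H37.MA

open Pool.Agent.H19.SR Pool.Agent.H73.GC Pool.Agent.H8.SM

/-- **The step for the graphs in `InC`.** -/
theorem step_inC {V : Type} [DecidableEq V] [Fintype V] (G : SimpleGraph V) (n i : ℕ)
    (h : InC G n) (hin : i ≤ n) (hn : n + 1 ≤ 2 * i)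
    (hlk : ∀ r < n - i + 1, ∀ t : Finset V, G.IsClique (t : Set V) → r + 2 ≤ t.card →
      GZ G (lkF G t) (i - r - 1)) : GZ G univ i :=
  step (q := n - i + 1) (fun s _ hc => keyT (keyRel_of_inC h (by omega) (by omega) (by omega)))
    (by omega) (by omega) hlk

/-- **The range.** -/
theorem range_inC (N : ℕ) : ∀ {V : Type} [DecidableEq V] [Fintype V] (G : SimpleGraph V)
    (n d i : ℕ), Fintype.card V ≤ N → InC G n →
      (∀ s : Finset V, G.IsClique (s : Set V) → s.card ≤ d) → 1 ≤ i → Rng 1 d n i →
      GZ G univ i :=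
  range_of_step 1 le_rfl (fun G n i h _ hin hn hlk => step_inC G n i h hin hn fun r hr t ht htr =>
    hlk r (lt_of_lt_of_le hr (le_max_left _ _)) t ht htr) N

end Pool.Agent.H37.MA
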