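import Pool.Agent.H37.MA.Gc
import Pool.Agent.H37.MA.Abs

/-!
# M side of project SM, module Tup: the cocycle `G` times the product of one-cocycles
-/

set_option autoImplicit false
set_option linter.unusedSectionVars false

open Finset Pointwise

namespace Pool.Agent.H37.MA

open Pool.Agent.H19.Cub Pool.Agent.H77.SX Pool.Agent.H37.TM

section

variable {V D K : Type} [DecidableEq V] [Field K] [Algebra (ZMod 2) K]

theorem bet_nil' (h : V → D → K) : ∀ l : List V, bet h l ([] : List D) = 0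
  | [] => bet_nil_nil h
  | b :: l => bet_cons_nil h b l

theorem betg_nil (m : ℕ) (G : List D → K) (h : V → D → K) (l : List V) :
    betg m G h l ([] : List D) = 0 := by
  unfold betg
  rw [List.drop_nil, bet_nil', mul_zero]

theorem betg_cons (m : ℕ) (G : List D → K) (h : V → D → K) (l : List V) (x : D) (L : List D) :
    betg (m + 1) G h l (x :: L) = betg m (fun M => G (x :: M)) h l L := by
  unfold betg
  rw [List.take_succ_cons, List.drop_succ_cons]

/-- the Leibniz rule -/
theorem lin_betg_bdl (h : V → D → K) (l : List V) (m : ℕ) : ∀ (G : List D → K) (L : List D),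
    lin (betg m G h l) (bdl L) = betg (m + 1) (dG G) h l L +
      G (L.take (m + 1)) * lin (bet h l) (bdl (L.drop m)) := by
  induction m with
  | zero =>
    intro G L
    match L with
    | [] =>
      rw [betg_nil, bdl, map_zero, List.drop_nil, bdl, map_zero, mul_zero, add_zero]
    | [x] =>
      rw [betg_cons, betg_nil, List.drop_zero]
      simp only [bdl, Finsupp.mapDomain_zero, add_zero, lin_single, betg_nil, bet_nil', mul_zero]
    | x :: y :: M =>
      rw [betg_cons, List.drop_zero, lin_bet_bdl, mul_zero, add_zero]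
      have h0 := lin_bet_bdl h l (x :: y :: M)
      rw [bdl, map_add, lin_single, lin_map] at h0
      rw [bdl, map_add, lin_single, lin_map]
      have h1 : lin (fun a => betg 0 G h l (x :: a)) (bdl (y :: M)) =
          G [x] * lin (fun a => bet h l (x :: a)) (bdl (y :: M)) := by
        rw [← lin_mul]
        rfl
      have h2 : lin (fun a => bet h l (x :: a)) (bdl (y :: M)) = bet h l (y :: M) := by
        have h3 := add_self_K (bet h l (y :: M))
        have h4 := h0.trans h3.symm
        exact add_left_cancel h4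
      have h3 : betg 0 (fun M => dG G (x :: M)) h l (y :: M) =
          dG G [x, y] * bet h l (y :: M) := rfl
      have h4 : dG G [x, y] = G [y] + G [x] := by
        rw [dG_cons, dG_cons]
        have h6 : dG (fun m => G (x :: y :: m)) ([] : List D) = 0 := by
          unfold dG
          rw [bdl, map_zero]
        rw [h6, add_zero]
      have h5 : betg 0 G h l (y :: M) = G [y] * bet h l (y :: M) := rfl
      rw [h1, h2, h3, h4, h5, add_mul]
  | succ m ih =>
    intro G L
    match L with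
    | [] =>
      rw [betg_nil, bdl, map_zero, List.drop_nil, bdl, map_zero, mul_zero, add_zero]
    | x :: M =>
      rw [bdl, map_add, lin_single, lin_map]
      have h1 : (fun a => betg (m + 1) G h l (x :: a)) = betg m (fun M => G (x :: M)) h l :=
        funext fun a => betg_cons m G h l x a
      rw [h1, ih, betg_cons, ← add_assoc, List.take_succ_cons, List.drop_succ_cons]
      congr 1
      unfold betg
      rw [← add_mul]
      congr 1
      exact (dG_cons G x _).symm

theorem lin_betg_BL (h : V → D → K) (l : List V) (m : ℕ) {G : List D → K}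
    (hG : ∀ x, lin G (BL x) = 0) (x : List D →₀ ZMod 2) : lin (betg m G h l) (BL x) = 0 :=
  chain_ext (F := lin (betg m G h l) ∘ₗ BL) (G := 0) (fun L => by
    have h1 : dG G = fun _ => 0 := by
      funext M
      have h := hG (Finsupp.single M 1)
      rw [BL_single] at h
      exact h
    rw [LinearMap.comp_apply, BL_single, lin_betg_bdl, LinearMap.zero_apply, lin_bet_bdl,
      mul_zero, add_zero, h1]
    unfold betg
    rw [zero_mul]) x

end

section

variable {V X : Type} [DecidableEq V]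

/-- `σ` spans a cube at `c` -/
def Cb' (Q : CubeComplex V X) (x₀ : X) (c : Q.Cover x₀) (σ : Finset V) : Prop :=
  σ ⊆ Q.lab (Q.proj x₀ c) ∧ Q.graph.IsClique (σ : Set V)

theorem Cb'.step {Q : CubeComplex V X} {x₀ : X} {c : Q.Cover x₀} {σ : Finset V}
    (h : Cb' Q x₀ c σ) {v : V} (hv : v ∈ σ) : Cb' Q x₀ (Q.nbc x₀ v c) (σ.erase v) :=
  ⟨fun u hu => (Q.cover x₀).lab_adj u v c
    (h.2 (mem_coe.2 (mem_of_mem_erase hu)) (mem_coe.2 hv) (ne_of_mem_erase hu))
    (h.1 (mem_of_mem_erase hu)) (h.1 hv), h.2.subset (by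
    rw [coe_erase]; exact Set.sdiff_subset)⟩

theorem Tm_head' (Q : CubeComplex V X) (x₀ : X) (k : ℕ)
    (c : Q.Cover x₀) (σ : Finset V) :
    ∃ y : List (Q.Cover x₀) →₀ ZMod 2, Tm Q x₀ k c σ = y.mapDomain (c :: ·) := by
  cases k with
  | zero => exact ⟨Finsupp.single [] 1, by
      show Finsupp.single [c] 1 = _
      rw [Finsupp.mapDomain_single]⟩
  | succ k =>
    refine ⟨∑ v ∈ σ, Tm Q x₀ k (Q.nbc x₀ v c) (σ.erase v), ?_⟩
    exact (map_sum (Finsupp.lmapDomain (ZMod 2) (ZMod 2) (c :: ·)) _ σ).symm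

variable {K : Type} [Field K] [Algebra (ZMod 2) K]

/-- the value at a cube: the paths which first run through the other labels (in any order) and then through `l` -/
theorem lin_betg_Tm {Q : CubeComplex V X} {x₀ : X} {h t : V → Q.Cover x₀ → K}
    (hh : ∀ c, ∀ v ∈ Q.lab (Q.proj x₀ c), ∀ b,
      h b (Q.nbc x₀ v c) = h b c + if v = b then t b c else 0)
    (ht : ∀ c, ∀ v ∈ Q.lab (Q.proj x₀ c), ∀ b, (b = v ∨ Q.graph.Adj b v) →
      t b (Q.nbc x₀ v c) = t b c) {l : List V} (hl : l.Nodup) (m : ℕ) :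
    ∀ (G : List (Q.Cover x₀) → K) (c : Q.Cover x₀) (σ : Finset V), Cb' Q x₀ c σ →
      σ.card = m + l.length →
      lin (betg m G h l) (Tm Q x₀ (m + l.length) c σ) = if l.toFinset ⊆ σ then
        (∏ b ∈ l.toFinset, t b c) * lin G (Tm Q x₀ m c (σ \ l.toFinset)) else 0 := by
  induction m with
  | zero =>
    intro G c σ hC hσ
    have h0 : lin (betg 0 G h l) (Tm Q x₀ (0 + l.length) c σ) =
        G [c] * lin (bet h l) (Tm Q x₀ l.length c σ) := by
      rw [zero_add]
      obtain ⟨y, hy⟩ := Tm_head' Q x₀ l.length c σ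
      rw [hy, lin_map, lin_map, ← lin_mul]
      rfl
    have h1 : lin (bet h l) (Tm Q x₀ l.length c σ) =
        if σ = l.toFinset then ∏ b ∈ σ, t b c else 0 := by
      have h2 := lin_bet_TT (Q := Q) (x₀ := x₀) (bit := fun _ _ => 0) hh ht (e := (c, σ)) hl
        ⟨hC.1, hC.2, by rw [hσ, zero_add], fun _ _ => rfl⟩
      have h3 : TT Q x₀ (c, σ) = Tm Q x₀ l.length c σ := by
        show Tm Q x₀ σ.card c σ = _
        rw [hσ, zero_add]
      rw [← h3]
      exact h2
    rw [h0, h1]
    have h4 : l.toFinset ⊆ σ ↔ σ = l.toFinset := by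
      constructor
      · intro h5
        refine (eq_of_subset_of_card_le h5 ?_).symm
        rw [hσ, List.toFinset_card_of_nodup hl, zero_add]
      · intro h5
        rw [h5]
    have h5 : Tm Q x₀ 0 c (σ \ l.toFinset) = Finsupp.single [c] 1 := rfl
    rw [h5, lin_single]
    by_cases h6 : σ = l.toFinset
    · rw [if_pos h6, if_pos (h4.2 h6), h6, mul_comm]
    · rw [if_neg h6, if_neg (fun h => h6 (h4.1 h)), mul_zero]
  | succ m ih =>
    intro G c σ hC hσ
    have h1 : lin (betg (m + 1) G h l) (Tm Q x₀ (m + 1 + l.length) c σ) =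
        ∑ v ∈ σ, lin (betg m (fun M => G (c :: M)) h l)
          (Tm Q x₀ (m + l.length) (Q.nbc x₀ v c) (σ.erase v)) := by
      have h2 : m + 1 + l.length = (m + l.length) + 1 := by omega
      rw [h2]
      show lin _ (∑ v ∈ σ, (Tm Q x₀ (m + l.length) (Q.nbc x₀ v c) (σ.erase v)).mapDomain (c :: ·)) = _
      rw [map_sum]
      refine sum_congr rfl fun v _ => ?_
      rw [lin_map]
      congr 2
    rw [h1, sum_congr rfl fun v hv => ih _ _ _ (hC.step hv) (by
      rw [card_erase_of_mem hv, hσ]; omega)]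
    by_cases h2 : l.toFinset ⊆ σ
    · rw [if_pos h2]
      have h3 : lin G (Tm Q x₀ (m + 1) c (σ \ l.toFinset)) = ∑ v ∈ σ \ l.toFinset,
          lin (fun M => G (c :: M)) (Tm Q x₀ m (Q.nbc x₀ v c) ((σ \ l.toFinset).erase v)) := by
        show lin G (∑ v ∈ σ \ l.toFinset,
          (Tm Q x₀ m (Q.nbc x₀ v c) ((σ \ l.toFinset).erase v)).mapDomain (c :: ·)) = _
        rw [map_sum]
        exact sum_congr rfl fun v _ => lin_map _ _ _
      rw [h3, mul_sum]
      refine (sum_subset sdiff_subset fun v hv hv' => ?_).symm.trans (sum_congr rfl fun v hv => ?_)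
      · have h4 : v ∈ l.toFinset := by
          by_contra h5
          exact hv' (mem_sdiff.2 ⟨hv, h5⟩)
        rw [if_neg fun h5 => notMem_erase v σ (h5 h4)]
      · obtain ⟨h4, h5⟩ := mem_sdiff.1 hv
        have h6 : l.toFinset ⊆ σ.erase v := fun u hu =>
          mem_erase.2 ⟨fun h7 => h5 (h7 ▸ hu), h2 hu⟩
        rw [if_pos h6]
        have h8 : ∏ b ∈ l.toFinset, t b (Q.nbc x₀ v c) = ∏ b ∈ l.toFinset, t b c :=
          prod_congr rfl fun b hb => ht c v (hC.1 h4) b (Or.inr
            (hC.2 (mem_coe.2 (h2 hb)) (mem_coe.2 h4) fun h7 => h5 (h7 ▸ hb)))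
        have h9 : σ.erase v \ l.toFinset = (σ \ l.toFinset).erase v := by
          ext u
          simp only [mem_sdiff, mem_erase]
          tauto
        rw [h8, h9]
    · rw [if_neg h2]
      refine sum_eq_zero fun v hv => if_neg fun h3 => h2 (h3.trans (erase_subset v σ))

end

section

variable {V X U Γ P K : Type} [DecidableEq V] [DecidableEq U] [Group Γ] [MulAction Γ U]
  {Q : CubeComplex V X} {x₀ : X} [MulAction Γ (Q.Cover x₀)] {bit : X → V → ZMod 2}
  [Group P] [Field K] [Algebra (ZMod 2) K] {g : V → P} {t : V → P → K}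

/-- the functional -/
theorem isFun_betg (D : Dat Q g t) (s : Finset V) (hΓ : IsDeck Γ Q x₀) (l : List V) (m : ℕ)
    {G : List (Q.Cover x₀) → K} (hG : ∀ x, lin G (BL x) = 0)
    (hGg : ∀ (γ : Γ) (L : List (Q.Cover x₀)), G (L.map (γ • ·)) = G L) :
    IsFun Γ D (fun p => betg m G (fun b c => pot D s x₀ b c p) l) where
  cyc p x := lin_betg_BL _ l m hG x
  smul p γ L := by
    unfold betg
    rw [← List.map_take, ← List.map_drop, hGg]
    congr 1
    have h := be_smul D s hΓ l p γ (Finsupp.single (L.drop m) 1)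
    unfold be at h
    rw [Finsupp.mapDomain_single, lin_single, lin_single] at h
    exact h

/-- **The left side.** -/
theorem star_leftG [Fintype V] [Fintype X] [Fintype P] [CharP K 2] (D : Dat Q g t)
    {s : Finset V} {i m : ℕ} (hΓ : IsDeck Γ Q x₀)
    {cl : X → Q.Cover x₀} (hcl : ∀ x, Q.proj x₀ (cl x) = x) {z : Finset V → X → Finset V × P → K}
    (hz : z ∈ ZQ K Q i (rX g s t)) {l : List V} (hl : l.Nodup) (hls : l.toFinset = s)
    (hm : m + s.card = i) {G : List (Q.Cover x₀) → K}
    (hGg : ∀ (γ : Γ) (L : List (Q.Cover x₀)), G (L.map (γ • ·)) = G L) :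
    osum Γ (fun e : Q.Cover x₀ × Finset V => open Classical in
      if e ∈ Cell Q x₀ bit i then ∑ p, lin (betg m G (fun b c => pot D s x₀ b c p) l) (TT Q x₀ e) *
        upz D s x₀ z e (∅, p) ^ 2 else 0) =
      ∑ A ∈ (univ : Finset (Finset V)).filter (fun A => s ⊆ A),
        ∑ x ∈ univ.filter (fun x => ∀ v ∈ A, bit x v = 0), ∑ p,
          (∏ v ∈ s, t v p) * lin G (TT Q x₀ (cl x, A \ s)) * z A x (∅, p) ^ 2 := by
  classical
  have hld : m + l.length = i := by rw [← hm, ← hls, List.toFinset_card_of_nodup hl]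
  set Φ : Finset V → X → K := fun A x => ∑ p,
    (∏ v ∈ s, t v p) * lin G (TT Q x₀ (cl x, A \ s)) * z A x (∅, p) ^ 2 with hΦ
  -- the value at a cube
  have hval : ∀ e : Q.Cover x₀ × Finset V, (if e ∈ Cell Q x₀ bit i then
      ∑ p, lin (betg m G (fun b c => pot D s x₀ b c p) l) (TT Q x₀ e) *
        upz D s x₀ z e (∅, p) ^ 2 else 0) =
      if e ∈ Cell Q x₀ bit i ∧ s ⊆ e.2 then Φ e.2 (Q.proj x₀ e.1) else 0 := by
    intro e
    by_cases he : e ∈ Cell Q x₀ bit i
    · rw [if_pos he]
      have h1 : ∀ p : P, lin (betg m G (fun b c => pot D s x₀ b c p) l) (TT Q x₀ e) =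
          if s ⊆ e.2 then (∏ b ∈ s, t b (p * pos D x₀ e.1)) * lin G (Tm Q x₀ m e.1 (e.2 \ s))
            else 0 := by
        intro p
        have h2 := lin_betg_Tm (Q := Q) (x₀ := x₀)
          (h := fun b c => pot D s x₀ b c p)
          (t := fun b c => if b ∈ s then t b (p * pos D x₀ c) else 0)
          (fun c v hv b => by
            show pot D s x₀ b (Q.nbc x₀ v c) p = pot D s x₀ b c p + _
            rw [pot_nbc D s x₀ hv]
            congr 1
            by_cases h3 : v = b <;> by_cases h4 : b ∈ s <;> simp [h3, h4])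
          (fun c v hv b hbv => by
            show (if b ∈ s then t b (p * pos D x₀ (Q.nbc x₀ v c)) else 0) =
              if b ∈ s then t b (p * pos D x₀ c) else 0
            rw [pos_nbc D x₀ hv, ← mul_assoc, D.star b v (hbv.imp Eq.symm id)])
          hl m G e.1 e.2 ⟨he.1, he.2.1⟩ (by rw [he.2.2.1, hld])
        have h3 : TT Q x₀ e = Tm Q x₀ (m + l.length) e.1 e.2 := by
          show Tm Q x₀ e.2.card e.1 e.2 = _
          rw [he.2.2.1, hld]
        rw [h3, h2, hls]
        by_cases h4 : s ⊆ e.2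
        · rw [if_pos h4, if_pos h4]
          congr 1
          exact prod_congr rfl fun b hb => if_pos hb
        · rw [if_neg h4, if_neg h4]
      by_cases h3 : s ⊆ e.2
      · rw [if_pos ⟨he, h3⟩, hΦ]
        refine Fintype.sum_equiv (Equiv.mulRight (pos D x₀ e.1)) _ _ fun p => ?_
        rw [h1, if_pos h3]
        have h4 : lin G (Tm Q x₀ m e.1 (e.2 \ s)) =
            lin G (TT Q x₀ (cl (Q.proj x₀ e.1), e.2 \ s)) := by
          obtain ⟨γ, hγ⟩ := hΓ.trans e.1 (cl (Q.proj x₀ e.1)) (hcl _).symm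
          have hcard : (e.2 \ s).card = m := by
            rw [card_sdiff_of_subset h3, he.2.2.1]
            omega
          have h5 : ((e.1, e.2 \ s) : Q.Cover x₀ × Finset V) ∈
              Cell Q x₀ bit (e.2 \ s).card :=
            ⟨sdiff_subset.trans he.1, he.2.1.subset (by exact_mod_cast sdiff_subset), rfl,
              fun v hv => he.2.2.2 v (sdiff_subset hv)⟩
          have h6 := TT_smul hΓ h5 γ
          rw [← hγ, h6, lin_map]
          have h7 : (fun L => G (List.map (γ • ·) L)) = G := funext fun L => hGg γ L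
          rw [h7]
          show _ = lin G (Tm Q x₀ (e.2 \ s).card e.1 (e.2 \ s))
          rw [hcard]
        rw [h4]
        show _ * (act D s x₀ e.1 (z e.2 (Q.proj x₀ e.1)) (∅, p)) ^ 2 = _
        rw [act_empty]
        rfl
      · rw [if_neg (fun h => h3 h.2)]
        refine sum_eq_zero fun p _ => ?_
        rw [h1, if_neg h3, zero_mul]
    · rw [if_neg he, if_neg (fun h => he h.1)]
  rw [show (fun e : Q.Cover x₀ × Finset V => open Classical in
      if e ∈ Cell Q x₀ bit i then ∑ p, lin (betg m G (fun b c => pot D s x₀ b c p) l) (TT Q x₀ e) *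
        upz D s x₀ z e (∅, p) ^ 2 else 0) = fun e =>
        if e ∈ Cell Q x₀ bit i ∧ s ⊆ e.2 then Φ e.2 (Q.proj x₀ e.1) else 0 from funext hval]
  have hcell : ∀ x A, (cl x, A) ∈ Cell Q x₀ bit i ↔ A ⊆ Q.lab x ∧ Q.graph.IsClique (A : Set V) ∧
      A.card = i ∧ ∀ v ∈ A, bit x v = 0 := by
    intro x A
    unfold Cell
    rw [Set.mem_ofPred_eq, hcl]
  rw [osum_eq_of_reps (J := {y : Finset V × X // s ⊆ y.1 ∧ (cl y.2, y.1) ∈ Cell Q x₀ bit i}) _ ?_
    (fun j => (cl j.1.2, j.1.1)) ?_ ?_]
  · have h1 : ∀ A x, Φ A x ≠ 0 → A ⊆ Q.lab x ∧ Q.graph.IsClique (A : Set V) ∧ A.card = i := by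
      intro A x h
      refine (mem_ZQ.1 hz).1 A x fun h0 => h ?_
      rw [hΦ]
      refine sum_eq_zero fun p _ => ?_
      rw [h0, Pi.zero_apply, zero_pow two_ne_zero, mul_zero]
    have h2 : ∑ A ∈ (univ : Finset (Finset V)).filter (fun A => s ⊆ A),
        ∑ x ∈ univ.filter (fun x => ∀ v ∈ A, bit x v = 0), Φ A x =
        ∑ y ∈ (univ : Finset (Finset V × X)).filter
          (fun y => s ⊆ y.1 ∧ (cl y.2, y.1) ∈ Cell Q x₀ bit i), Φ y.1 y.2 := by
      rw [sum_sigma']
      symm
      refine sum_bij_ne_zero (fun y _ _ => ⟨y.1, y.2⟩) ?_ ?_ ?_ ?_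
      · intro y hy _
        rw [mem_filter, hcell] at hy
        exact mem_sigma.2 ⟨mem_filter.2 ⟨mem_univ _, hy.2.1⟩, mem_filter.2 ⟨mem_univ _, hy.2.2.2.2.2⟩⟩
      · intro y _ _ y' _ _ h
        have h3 := Sigma.mk.inj_iff.1 h
        exact Prod.ext h3.1 (eq_of_heq h3.2)
      · rintro ⟨A, x⟩ hy hne
        rw [mem_sigma, mem_filter, mem_filter] at hy
        have h4 := h1 A x hne
        refine ⟨(A, x), ?_, hne, rfl⟩
        rw [mem_filter, hcell]
        exact ⟨mem_univ _, hy.1.2, h4.1, h4.2.1, h4.2.2, hy.2.2⟩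
      · intro y _ _
        rfl
    rw [h2, sum_subtype (univ.filter fun y : Finset V × X =>
      s ⊆ y.1 ∧ (cl y.2, y.1) ∈ Cell Q x₀ bit i) (p := fun y =>
      s ⊆ y.1 ∧ (cl y.2, y.1) ∈ Cell Q x₀ bit i) (fun y => by simp)]
    refine sum_congr rfl fun j _ => ?_
    rw [if_pos ⟨j.2.2, j.2.1⟩, hcl]
  · intro γ e
    simp only [cell_smul hΓ]
    rw [cu_smul]
    simp only [hΓ.proj]
  · intro j j' γ h
    have h1 := congrArg Prod.fst h
    have h1' := congrArg Prod.snd h
    have h2 : Q.proj x₀ (γ • cl j.1.2) = Q.proj x₀ (cl j'.1.2) := congrArg (Q.proj x₀) h1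
    rw [hΓ.proj, hcl, hcl] at h2
    exact Subtype.ext (Prod.ext h1' h2)
  · intro e he
    have h1 : e ∈ Cell Q x₀ bit i ∧ s ⊆ e.2 := by
      by_contra h
      exact he (if_neg h)
    have h2 : (cl (Q.proj x₀ e.1), e.2) ∈ Cell Q x₀ bit i :=
      (hcell _ _).2 ⟨h1.1.1, h1.1.2.1, h1.1.2.2.1, h1.1.2.2.2⟩
    obtain ⟨γ, hγ⟩ := hΓ.trans e.1 (cl (Q.proj x₀ e.1)) (hcl _).symm
    refine ⟨γ, ⟨(e.2, Q.proj x₀ e.1), h1.2, h2⟩, ?_⟩
    rw [cu_smul, hγ]

end

end Pool.Agent.H37.MA
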