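import Pool.Agent.H37.MA.Rel

/-!
# M side of project SM, module Zer6: the relation on the manifold with one more remainder term

`star_cobG` is `star_zeroG` for the coboundary part alone; `rel_psi6` and `rel_mfd6`: with `i + |s| = n` the sum over
the cubes is the sum over the top simplices of the product of the cocycle and of `PQ ht a s 1`.
-/

set_option autoImplicit false
set_option linter.unusedSectionVars false

open Finset Pointwise

namespace Pool.Agent.H37.MA

open Pool.Agent.H19.Cub Pool.Agent.H77.SX Pool.Agent.H37.TM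

variable {V X U Γ P K : Type} [DecidableEq V] [DecidableEq U] [Group Γ] [MulAction Γ U]
  {Q : CubeComplex V X} {x₀ : X} [MulAction Γ (Q.Cover x₀)] {bit : X → V → ZMod 2}
  [Group P] [Field K] [Algebra (ZMod 2) K] {g : V → P} {t : V → P → K}
  {M B : Set (Finset U)} {n : ℕ} {ht : U → ℕ}

/-- the coboundary part -/
theorem star_cobG [Fintype V] [Fintype X] [Fintype P] [CharP K 2] (D : Dat Q g t)
    {s : Finset V} {d q : ℕ} (hbit : IsBit Q bit) (hΓ : IsDeck Γ Q x₀) (hM : Psm M B n)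
    (hA : MAct Γ M B n ht) {Ψ : Q.Cover x₀ × Finset V → (Finset U × Finset U →₀ ZMod 2)}
    (hΨ : IsPsi Γ Q x₀ bit M B n Ψ) {f : U → Q.Cover x₀} (hf : IsVMap Γ f)
    {z : Finset V → X → Finset V × P → K}
    {l : List V} (hn : l.Nodup) {m : ℕ} (hmn : m + 2 ≤ n + 1)
    {G : List (Q.Cover x₀) → K} (hG : ∀ x, lin G (BL x) = 0)
    (hGg : ∀ (γ : Γ) (L : List (Q.Cover x₀)), G (L.map (γ • ·)) = G L) :
    osum Γ (fun τ : Finset U => open Classical in
      if τ ∈ M ∧ τ.card = n + 1 then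
        ∑ p, gc ht m (fun L => G (L.map f))
          (cob (VT ht (aa D s x₀ bit (d + 1) z Ψ p) (hpf D s x₀ f p) q l)) τ
      else 0) = 0 := by
  classical
  obtain ⟨hal1, hal2, -, hal4⟩ := al_fin (d := d + 1) hΓ hM hA hΨ
  set R : Finset U → K := fun r =>
    ∑ p, gc ht m (fun L => G (L.map f))
      (VT ht (aa D s x₀ bit (d + 1) z Ψ p) (hpf D s x₀ f p) q l) r with hR
  have hG' : ∀ L : List U, dG (fun L => G (L.map f)) L = 0 := by
    intro L
    have h := hG (Finsupp.single (L.map f) 1)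
    rw [BL_single, bdl_map, lin_map] at h
    exact h
  have hMg : ∀ (γ : Γ) (τ : Finset U), γ • τ ∈ M ↔ τ ∈ M := by
    intro γ τ
    refine ⟨fun h => ?_, hA.K_mem γ τ⟩
    have h1 := hA.K_mem γ⁻¹ _ h
    rwa [inv_smul_smul] at h1
  -- the values of `WW`
  have h1 : ∀ τ ∈ M, τ.card = n + 1 → ∑ p, gc ht m (fun L => G (L.map f))
      (cob (VT ht (aa D s x₀ bit (d + 1) z Ψ p) (hpf D s x₀ f p) q l)) τ =
      ∑ v ∈ τ, R (τ.erase v) := by
    intro τ hτ hτc
    rw [hR]
    simp only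
    rw [sum_comm]
    refine sum_congr rfl fun p _ => ?_
    have h := cob_gc_of m hG' (VT ht (aa D s x₀ bit (d + 1) z Ψ p) (hpf D s x₀ f p) q l)
      (hA.ht_inj τ hτ) (by omega)
    exact h.symm
  -- invariance
  have h2 : ∀ (γ : Γ) (r : Finset U), Set.InjOn ht (r : Set U) → R (γ • r) = R r := by
    intro γ r hr
    have h3 : ∀ p, gc ht m (fun L => G (L.map f))
        (VT ht (aa D s x₀ bit (d + 1) z Ψ p) (hpf D s x₀ f p) q l) (γ • r) =
        gc ht m (fun L => G (L.map f)) (VT ht (aa D s x₀ bit (d + 1) z Ψ (p * pos D x₀ (γ • base Q x₀)))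
          (hpf D s x₀ f (p * pos D x₀ (γ • base Q x₀))) q l) r := fun p =>
      gc_smul (fun u => hA.ht_smul γ u) m (fun L => by
        show G ((L.map (γ • ·)).map f) = G (L.map f)
        rw [← hGg γ (L.map f), List.map_map, List.map_map]
        exact congrArg G (List.map_congr_left fun u _ => hf γ u)) fun r' hr' =>
      VT_smul (fun u => hA.ht_smul γ u) (aa_corr D hbit hΓ hM hA hΨ hf z p γ) l hn r'
        (hr.mono (by exact_mod_cast hr'))
    rw [hR]
    simp only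
    rw [sum_congr rfl fun p _ => h3 p]
    exact Fintype.sum_equiv (Equiv.mulRight (pos D x₀ (γ • base Q x₀))) _ _ fun p => rfl
  -- support
  have h3 : ∀ r, R r ≠ 0 → ∃ r' ⊆ r, ∃ e ∈ Cell Q x₀ bit (d + 1), al (Ψ e) r' ≠ 0 := by
    intro r hr
    obtain ⟨p, -, hp⟩ := exists_ne_zero_of_sum_ne_zero hr
    obtain ⟨r'', h4', h5'⟩ := gc_ne_zero m hp
    obtain ⟨r', h4, A, h5⟩ := VT_ne_zero l r'' h5'
    exact ⟨r', h4.trans h4', aa_ne_zero D z p A r' h5⟩
  -- double counting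
  have h4 : osum Γ (fun τ : Finset U => ∑ᶠ r : Finset U,
      if τ ∈ M ∧ τ.card = n + 1 ∧ r ⊆ τ ∧ r.card = n then R r else 0) =
      osum Γ (fun r : Finset U => ∑ᶠ τ : Finset U,
      if τ ∈ M ∧ τ.card = n + 1 ∧ r ⊆ τ ∧ r.card = n then R r else 0) := by
    have hk : ∀ τ r : Finset U, (if τ ∈ M ∧ τ.card = n + 1 ∧ r ⊆ τ ∧ r.card = n then R r else 0) ≠
        0 → (τ ∈ M ∧ τ.card = n + 1 ∧ r ⊆ τ ∧ r.card = n) ∧ R r ≠ 0 := by
      intro τ r h
      by_cases hc : τ ∈ M ∧ τ.card = n + 1 ∧ r ⊆ τ ∧ r.card = n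
      · rw [if_pos hc] at h
        exact ⟨hc, h⟩
      · rw [if_neg hc] at h
        exact absurd rfl h
    refine osum_comm (Γ := Γ) (fun τ r : Finset U =>
      if τ ∈ M ∧ τ.card = n + 1 ∧ r ⊆ τ ∧ r.card = n then R r else 0) ?_ ?_ ?_ ?_ ?_
    · intro γ τ r
      show (if γ • τ ∈ M ∧ (γ • τ).card = n + 1 ∧ γ • r ⊆ γ • τ ∧ (γ • r).card = n
        then R (γ • r) else 0) = _
      have hiff : (γ • τ ∈ M ∧ (γ • τ).card = n + 1 ∧ γ • r ⊆ γ • τ ∧ (γ • r).card = n) ↔
          (τ ∈ M ∧ τ.card = n + 1 ∧ r ⊆ τ ∧ r.card = n) := by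
        rw [hMg, Finset.card_smul_finset, Finset.card_smul_finset,
          Finset.smul_finset_subset_smul_finset_iff]
      by_cases hc : τ ∈ M ∧ τ.card = n + 1 ∧ r ⊆ τ ∧ r.card = n
      · rw [if_pos hc, if_pos (hiff.2 hc)]
        exact h2 γ r ((hA.ht_inj τ hc.1).mono (by exact_mod_cast hc.2.2.1))
      · rw [if_neg hc, if_neg (fun h => hc (hiff.1 h))]
    · intro τ r h γ hγ
      exact hA.free γ τ (hk τ r h).1.1 hγ
    · intro τ r h γ hγ
      obtain ⟨⟨h5, h6, h7, h8⟩, -⟩ := hk τ r h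
      exact hA.free γ r (hM.down τ h5 r h7 (card_pos.1 (by omega))) hγ
    · intro τ
      refine (τ.powerset.finite_toSet).subset fun r h => ?_
      exact mem_coe.2 (mem_powerset.2 (hk τ r h).1.2.2.1)
    · obtain ⟨F, hF⟩ := cu_fin (x₀ := x₀) hΓ
      have hloc : ∀ r : Finset U, {τ | τ ∈ M ∧ r ⊆ τ ∧ r ∈ M}.Finite := by
        intro r
        by_cases hr : r ∈ M
        · exact (hM.locfin r hr).subset fun τ h => ⟨h.1, h.2.1⟩
        · exact Set.finite_empty.subset fun τ h => absurd h.2.2 hr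
      refine ⟨F.biUnion fun e => (hal2 e).toFinset.biUnion fun r => (hloc r).toFinset,
        fun τ r h => ?_⟩
      obtain ⟨⟨h5, -, h7, -⟩, h9⟩ := hk τ r h
      obtain ⟨r', h10, e, he, h11⟩ := h3 r h9
      obtain ⟨γ, hγ⟩ := hF e
      refine ⟨γ, mem_biUnion.2 ⟨γ • e, hγ, mem_biUnion.2 ⟨γ • r', ?_, ?_⟩⟩⟩
      · rw [Set.Finite.mem_toFinset]
        show al (Ψ (γ • e)) (γ • r') ≠ 0
        rwa [hal4 γ e he]
      · rw [Set.Finite.mem_toFinset]
        refine ⟨(hMg γ τ).2 h5, ?_, (hMg γ r').2 (hal1 e he r' h11).1⟩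
        rw [Finset.smul_finset_subset_smul_finset_iff]
        exact h10.trans h7
  -- the left side
  have h5 : (fun τ : Finset U =>
      if τ ∈ M ∧ τ.card = n + 1 then
        ∑ p, gc ht m (fun L => G (L.map f))
          (cob (VT ht (aa D s x₀ bit (d + 1) z Ψ p) (hpf D s x₀ f p) q l)) τ
      else 0) = fun τ : Finset U => ∑ᶠ r : Finset U,
      if τ ∈ M ∧ τ.card = n + 1 ∧ r ⊆ τ ∧ r.card = n then R r else 0 := by
    funext τ
    by_cases hτ : τ ∈ M ∧ τ.card = n + 1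
    · rw [if_pos hτ, h1 τ hτ.1 hτ.2]
      have h6 : ∀ r : Finset U, (if τ ∈ M ∧ τ.card = n + 1 ∧ r ⊆ τ ∧ r.card = n then R r else 0) =
          if r ∈ τ.powersetCard n then R r else 0 := by
        intro r
        have h7 : (τ ∈ M ∧ τ.card = n + 1 ∧ r ⊆ τ ∧ r.card = n) ↔ r ∈ τ.powersetCard n := by
          rw [mem_powersetCard]
          exact ⟨fun h => h.2.2, fun h => ⟨hτ.1, hτ.2, h⟩⟩
        simp only [h7]
      rw [finsum_congr h6, finsum_eq_sum_of_support_subset (s := τ.powersetCard n) _ (by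
        intro r hr
        rw [Function.mem_support] at hr
        by_contra h8
        exact hr (if_neg h8)), sum_congr rfl fun r hr => if_pos hr]
      rw [powersetCard_image_erase hτ.2, sum_image (Finset.erase_injOn τ)]
    · rw [if_neg hτ]
      exact (finsum_eq_zero_of_forall_eq_zero fun r => if_neg fun h => hτ ⟨h.1, h.2.1⟩).symm
  -- the right side
  have h6 : (fun r : Finset U => ∑ᶠ τ : Finset U,
      if τ ∈ M ∧ τ.card = n + 1 ∧ r ⊆ τ ∧ r.card = n then R r else 0) = fun _ => 0 := by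
    funext r
    by_cases hr : R r = 0
    · refine finsum_eq_zero_of_forall_eq_zero fun τ => ?_
      rw [hr, ite_self]
    · obtain ⟨r', h10, e, he, h11⟩ := h3 r hr
      obtain ⟨h12, h13, -⟩ := hal1 e he r' h11
      by_cases hrM : r ∈ M ∧ r.card = n
      · have hB : r ∉ B := fun h => h13 (hM.bd_down r h r' h10 (hM.ne r' h12))
        have h14 : ∀ τ : Finset U,
            (if τ ∈ M ∧ τ.card = n + 1 ∧ r ⊆ τ ∧ r.card = n then R r else 0) =
            if τ ∈ cofs M r (n + 1) then R r else 0 := by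
          intro τ
          have h15 : (τ ∈ M ∧ τ.card = n + 1 ∧ r ⊆ τ ∧ r.card = n) ↔ τ ∈ cofs M r (n + 1) := by
            rw [mem_cofsP hM hrM.1]
            exact ⟨fun h => ⟨h.1, h.2.2.1, h.2.1⟩, fun h => ⟨h.1, h.2.2, h.2.1, hrM.2⟩⟩
          simp only [h15]
        rw [finsum_congr h14, finsum_eq_sum_of_support_subset (s := cofs M r (n + 1)) _ (by
          intro τ hτ
          rw [Function.mem_support] at hτ
          by_contra h8
          exact hτ (if_neg h8)), sum_congr rfl fun τ hτ => if_pos hτ, sum_const,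
          ← Nat.cast_smul_eq_nsmul (ZMod 2), even_cofs hM hrM.1 hB hrM.2, zero_smul]
      · refine finsum_eq_zero_of_forall_eq_zero fun τ => if_neg fun h => hrM ⟨?_, h.2.2.2⟩
        exact hM.down τ h.1 r h.2.2.1 (hM.ne r' h12 |>.mono h10)
  have h7 : (fun τ : Finset U => open Classical in
      if τ ∈ M ∧ τ.card = n + 1 then
        ∑ p, gc ht m (fun L => G (L.map f))
          (cob (VT ht (aa D s x₀ bit (d + 1) z Ψ p) (hpf D s x₀ f p) q l)) τ
      else 0) = fun τ : Finset U => ∑ᶠ r : Finset U,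
      if τ ∈ M ∧ τ.card = n + 1 ∧ r ⊆ τ ∧ r.card = n then R r else 0 := by
    rw [← h5]
  rw [h7, h4, h6]
  unfold osum
  exact finsum_zero

omit [Algebra (ZMod 2) K] in
theorem gc_add_right (m : ℕ) :
    ∀ (G : List U → K) (w w' : Finset U → K) (s : Finset U),
    gc ht m G (fun t => w t + w' t) s = gc ht m G w s + gc ht m G w' s := by
  induction m with
  | zero =>
    intro G w w' s
    show _ * (w s + w' s) = _
    rw [mul_add]
    rfl
  | succ m ih =>
    intro G w w' s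
    show ∑ v ∈ lows ht s, gc ht m (fun l => G (v :: l)) (fun t => w t + w' t) (s.erase v) =
      (∑ v ∈ lows ht s, gc ht m (fun l => G (v :: l)) w (s.erase v)) +
        ∑ v ∈ lows ht s, gc ht m (fun l => G (v :: l)) w' (s.erase v)
    rw [← sum_add_distrib]
    exact sum_congr rfl fun v _ => ih _ _ _ _

/-- finitely many orbits of simplices which contain a simplex of the support of `aa` -/
theorem top_fin [Fintype V] [Fintype X] (D : Dat Q g t) {s : Finset V} {d : ℕ}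
    (hΓ : IsDeck Γ Q x₀) (hM : Psm M B n) (hA : MAct Γ M B n ht)
    {Ψ : Q.Cover x₀ × Finset V → (Finset U × Finset U →₀ ZMod 2)}
    (hΨ : IsPsi Γ Q x₀ bit M B n Ψ) {z : Finset V → X → Finset V × P → K} {F : Finset U → K}
    (hF : ∀ τ, F τ ≠ 0 → τ ∈ M ∧ ∃ r ⊆ τ, ∃ p A, aa D s x₀ bit d z Ψ p A r ≠ 0) :
    ∃ S : Finset (Finset U), ∀ τ, F τ ≠ 0 → ∃ γ : Γ, γ • τ ∈ S := by
  classical
  obtain ⟨hal1, hal2, -, hal4⟩ := al_fin (d := d) hΓ hM hA hΨ
  obtain ⟨S, hS⟩ := cu_fin (x₀ := x₀) hΓ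
  have hMg : ∀ (γ : Γ) (τ : Finset U), γ • τ ∈ M ↔ τ ∈ M := by
    intro γ τ
    refine ⟨fun h => ?_, hA.K_mem γ τ⟩
    have h1 := hA.K_mem γ⁻¹ _ h
    rwa [inv_smul_smul] at h1
  have hloc : ∀ r : Finset U, {τ | τ ∈ M ∧ r ⊆ τ ∧ r ∈ M}.Finite := by
    intro r
    by_cases hr : r ∈ M
    · exact (hM.locfin r hr).subset fun τ h => ⟨h.1, h.2.1⟩
    · exact Set.finite_empty.subset fun τ h => absurd h.2.2 hr
  refine ⟨S.biUnion fun e => (hal2 e).toFinset.biUnion fun r => (hloc r).toFinset,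
    fun τ h => ?_⟩
  obtain ⟨h5, r', h10, p, A, h11'⟩ := hF τ h
  obtain ⟨e, he, h11⟩ := aa_ne_zero D z p A r' h11'
  obtain ⟨γ, hγ⟩ := hS e
  refine ⟨γ, mem_biUnion.2 ⟨γ • e, hγ, mem_biUnion.2 ⟨γ • r', ?_, ?_⟩⟩⟩
  · rw [Set.Finite.mem_toFinset]
    show al (Ψ (γ • e)) (γ • r') ≠ 0
    rwa [hal4 γ e he]
  · rw [Set.Finite.mem_toFinset]
    refine ⟨(hMg γ τ).2 h5, ?_, (hMg γ r').2 (hal1 e he r' h11).1⟩
    rwa [Finset.smul_finset_subset_smul_finset_iff]

/-- **The remainder** for `q = l.length + 1` -/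
theorem star_remG [Fintype V] [Fintype X] [Fintype P] [CharP K 2] (D : Dat Q g t)
    {s : Finset V} {d : ℕ} (hbit : IsBit Q bit) (hΓ : IsDeck Γ Q x₀) (hM : Psm M B n)
    (hA : MAct Γ M B n ht) {Ψ : Q.Cover x₀ × Finset V → (Finset U × Finset U →₀ ZMod 2)}
    (hΨ : IsPsi Γ Q x₀ bit M B n Ψ) {f : U → Q.Cover x₀} (hf : IsVMap Γ f)
    {z : Finset V → X → Finset V × P → K}
    (hz : z ∈ ZQ K Q (d + 1) (rX g s t)) {l : List V} (hn : l.Nodup) {m : ℕ}
    (hmn : m + 2 ≤ n + 1) {G : List (Q.Cover x₀) → K} (hG : ∀ x, lin G (BL x) = 0)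
    (hGg : ∀ (γ : Γ) (L : List (Q.Cover x₀)), G (L.map (γ • ·)) = G L) :
    osum Γ (fun τ : Finset U => open Classical in
      if τ ∈ M ∧ τ.card = n + 1 then
        ∑ p, gc ht m (fun L => G (L.map f))
          (WW ht (aa D s x₀ bit (d + 1) z Ψ p) (hpf D s x₀ f p) (l.length + 1) l) τ
      else 0) =
    osum Γ (fun τ : Finset U => open Classical in
      if τ ∈ M ∧ τ.card = n + 1 then
        ∑ p, gc ht m (fun L => G (L.map f))
          (PQ ht (aa D s x₀ bit (d + 1) z Ψ p) l.toFinset 1) τ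
      else 0) := by
  classical
  have h0 := star_cobG D (s := s) (d := d) (q := l.length + 1) hbit hΓ hM hA hΨ hf (z := z) hn hmn
    hG hGg
  have h1 : ∀ τ : Finset U, (if τ ∈ M ∧ τ.card = n + 1 then
        ∑ p, gc ht m (fun L => G (L.map f))
          (WW ht (aa D s x₀ bit (d + 1) z Ψ p) (hpf D s x₀ f p) (l.length + 1) l) τ
      else 0) = (if τ ∈ M ∧ τ.card = n + 1 then
        ∑ p, gc ht m (fun L => G (L.map f))
          (PQ ht (aa D s x₀ bit (d + 1) z Ψ p) l.toFinset 1) τ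
      else 0) + if τ ∈ M ∧ τ.card = n + 1 then
        ∑ p, gc ht m (fun L => G (L.map f))
          (cob (VT ht (aa D s x₀ bit (d + 1) z Ψ p) (hpf D s x₀ f p) (l.length + 1) l)) τ
      else 0 := by
    intro τ
    by_cases hτ : τ ∈ M ∧ τ.card = n + 1
    · rw [if_pos hτ, if_pos hτ, if_pos hτ, ← sum_add_distrib]
      refine sum_congr rfl fun p _ => ?_
      rw [← gc_add_right]
      refine gc_congr m _ fun r hr => ?_
      have h2 := WW_aux (hp := hpf D s x₀ f p) (q := l.length + 1)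
        (fun A => aa_empty D s (bit := bit) (d + 1) Ψ z p A) l hn r
        ((hA.ht_inj τ hτ.1).mono (by exact_mod_cast hr)) (by
          intro A r' hr'
          rcases r'.eq_empty_or_nonempty with rfl | hne
          · exact sum_empty
          · exact aa_cob D hbit hΓ hM hA hΨ hz p A (hM.down τ hτ.1 r' (hr'.trans hr) hne))
      rw [h2, if_pos (Nat.le_succ _)]
      have h3 : l.length + 1 - l.length = 1 := by omega
      rw [h3]
    · rw [if_neg hτ, if_neg hτ, if_neg hτ, add_zero]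
  rw [funext h1, osum_add, h0, add_zero]
  · refine top_fin D hΓ hM hA hΨ (s := s) (d := d + 1) (z := z) fun τ h => ?_
    by_cases hτ : τ ∈ M ∧ τ.card = n + 1
    · rw [if_pos hτ] at h
      obtain ⟨p, -, hp⟩ := exists_ne_zero_of_sum_ne_zero h
      obtain ⟨r, hr, h3⟩ := gc_ne_zero m hp
      obtain ⟨A, -, h4⟩ := exists_ne_zero_of_sum_ne_zero h3
      obtain ⟨r', hr', h5⟩ := cup_ne_zero h4
      exact ⟨hτ.1, r', hr'.trans hr, p, A, h5⟩
    · exact absurd (if_neg hτ) h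
  · refine top_fin D hΓ hM hA hΨ (s := s) (d := d + 1) (z := z) fun τ h => ?_
    by_cases hτ : τ ∈ M ∧ τ.card = n + 1
    · rw [if_pos hτ] at h
      obtain ⟨p, -, hp⟩ := exists_ne_zero_of_sum_ne_zero h
      obtain ⟨r, hr, h3⟩ := gc_ne_zero m hp
      obtain ⟨v, -, h4⟩ := exists_ne_zero_of_sum_ne_zero h3
      obtain ⟨r', hr', A, h5⟩ := VT_ne_zero l _ h4
      exact ⟨hτ.1, r', (hr'.trans (erase_subset v r)).trans hr, p, A, h5⟩
    · exact absurd (if_neg hτ) h

/-- **The relation with the remainder**, from a pseudomanifold with a height: `i + |s| = n`. -/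
theorem rel_psi6 [Fintype V] [Fintype X] [Fintype P] [CharP K 2] (D : Dat Q g t)
    (hbit : IsBit Q bit) (hΓ : IsDeck Γ Q x₀) (hM : Psm M B n)
    (hA : MAct Γ M B n ht) {f : U → Q.Cover x₀} (hf : IsVMap Γ f)
    {Ψ : Q.Cover x₀ × Finset V → (Finset U × Finset U →₀ ZMod 2)}
    (hΨ : IsPsi Γ Q x₀ bit M B n Ψ) {cl : X → Q.Cover x₀} (hcl : ∀ x, Q.proj x₀ (cl x) = x)
    {s : Finset V} {i m : ℕ} (hs1 : 1 ≤ s.card) (hm : m + s.card = i) (hi : i + s.card = n)
    {z : Finset V → X → Finset V × P → K} (hz : z ∈ ZQ K Q i (rX g s t))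
    {G : List (Q.Cover x₀) → K} (hG : ∀ x, lin G (BL x) = 0)
    (hGg : ∀ (γ : Γ) (L : List (Q.Cover x₀)), G (L.map (γ • ·)) = G L) :
    ∑ A ∈ (univ : Finset (Finset V)).filter (fun A => s ⊆ A),
        ∑ x ∈ univ.filter (fun x => ∀ v ∈ A, bit x v = 0), ∑ p,
          (∏ v ∈ s, t v p) * lin G (TT Q x₀ (cl x, A \ s)) * z A x (∅, p) ^ 2 =
    osum Γ (fun τ : Finset U => open Classical in
      if τ ∈ M ∧ τ.card = n + 1 then
        ∑ p, gc ht m (fun L => G (L.map f)) (PQ ht (aa D s x₀ bit i z Ψ p) s 1) τ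
      else 0) := by
  classical
  obtain ⟨d, rfl⟩ : ∃ d', i = d' + 1 := ⟨i - 1, by omega⟩
  have hnd : s.toList.Nodup := s.nodup_toList
  have hls : s.toList.toFinset = s := s.toList_toFinset
  have hll : s.toList.length = s.card := length_toList s
  rw [← star_leftG D hΓ hcl hz hnd hls hm hGg]
  have hW := isFun_betg D s hΓ s.toList m hG hGg
  rw [star_top D hbit hΓ hM hA hf hΨ hz hW (by omega)]
  have h2 := star_remG D hbit hΓ hM hA hΨ hf hz hnd (m := m) (by omega) hG hGg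
  rw [hls] at h2
  rw [← h2]
  congr 1
  funext τ
  by_cases hτ : τ ∈ M ∧ τ.card = n + 1
  · rw [if_pos hτ, if_pos hτ]
    refine sum_congr rfl fun p _ => ?_
    have h := gcWW_top (hA.ht_inj τ hτ.1) (hA.ht_le τ hτ.1) hτ.2
      (aa D s x₀ bit (d + 1) z Ψ p) (hpf D s x₀ f p) (q := s.toList.length + 1) (by omega) s.toList m
      (fun L => G (L.map f)) (by omega)
    rw [h]
    have h1 : m + s.toList.length = d + 1 := by omega
    rw [h1]
    congr 1
    unfold betg
    rw [← List.map_take, ← List.map_drop]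
    congr 1
    exact bet_map' _ f _ _
  · rw [if_neg hτ, if_neg hτ]

end Pool.Agent.H37.MA
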